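import Pool.Agent.Lib.MP_0a0e82_gt.Chains

set_option autoImplicit false

namespace Pool.Agent.Lib.MP_0a0e82_gt

/-- the segments of the list form a path from `u` to `w` -/
def IsPath : List Seg → Pt → Pt → Prop
  | [], u, w => u = w
  | s :: l, u, w => s.1 = u ∧ IsPath l s.2 w

lemma IsPath.bd : ∀ {l : List Seg} {u w : Pt}, IsPath l u w → Bd l u w
  | [], u, w, h => by intro φ; cases h; simp [two_self]
  | s :: l, u, w, h => by
    intro φ
    obtain ⟨h1, h2⟩ := h
    simp only [List.map_cons, List.sum_cons, h2.bd φ, h1]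
    have := two_self (φ s.2)
    linear_combination this

lemma IsPath.append : ∀ {l l' : List Seg} {u v w : Pt}, IsPath l u v → IsPath l' v w →
    IsPath (l ++ l') u w
  | [], l', u, v, w, h, h' => by cases h; exact h'
  | s :: l, l', u, v, w, h, h' => ⟨h.1, IsPath.append h.2 h'⟩

lemma IsPath.of_append : ∀ {l₁ l₂ : List Seg} {s : Seg} {u w : Pt}, IsPath (l₁ ++ s :: l₂) u w →
    IsPath l₁ u s.1 ∧ IsPath l₂ s.2 w
  | [], _, _, _, _, h => ⟨h.1.symm, h.2⟩
  | _ :: _, _, _, _, _, h => ⟨⟨h.1, (IsPath.of_append h.2).1⟩, (IsPath.of_append h.2).2⟩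

/-- general position of two lists of segments -/
def GP (l l' : List Seg) : Prop := ∀ s ∈ l, ∀ t ∈ l', Sc s t ∨ Dj s t

open Classical in
/-- number of crossings of two lists of segments -/
noncomputable def cnt (l l' : List Seg) : ℕ :=
  (l.map fun s => (l'.map fun t => if Sc s t then 1 else 0).sum).sum

lemma cnt_append (l₁ l₂ l' : List Seg) : cnt (l₁ ++ l₂) l' = cnt l₁ l' + cnt l₂ l' := by
  simp [cnt]

lemma cnt_cons (s : Seg) (l l' : List Seg) : cnt (s :: l) l' = cnt [s] l' + cnt l l' := by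
  simp [cnt]

lemma GP.append {l₁ l₂ l' : List Seg} (h₁ : GP l₁ l') (h₂ : GP l₂ l') : GP (l₁ ++ l₂) l' := by
  intro s hs
  rcases List.mem_append.1 hs with h | h
  · exact h₁ s h
  · exact h₂ s h

lemma GP.mono {l₁ l₂ l' : List Seg} (h : GP l₂ l') (hs : ∀ s ∈ l₁, s ∈ l₂) : GP l₁ l' :=
  fun s h1 t ht => h s (hs s h1) t ht

lemma cnt_cast {l l' : List Seg} (h : GP l l') : (cnt l l' : ZMod 2) = XL l l' := by
  classical
  unfold cnt XL
  rw [Nat.cast_list_sum, List.map_map]
  congr 1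
  apply List.map_congr_left
  intro s hs
  simp only [Function.comp]
  rw [Nat.cast_list_sum, List.map_map]
  congr 1
  apply List.map_congr_left
  intro t ht
  simp only [Function.comp]
  rcases h s hs t ht with h1 | h1
  · rw [X_of_cross s t h1]; simp [h1]
  · rw [X_of_disj s t h1, if_neg (fun h2 => h2.not_dj h1)]; simp

lemma disj_of_cnt_zero {l l' : List Seg} (h : GP l l') (h0 : cnt l l' = 0) :
    Disjoint (supp l) (supp l') := by
  classical
  refine Set.disjoint_left.2 ?_
  rintro p ⟨s, hs, hp⟩ ⟨t, ht, hp'⟩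
  have hnd : ¬ Dj s t := fun hd => Set.disjoint_left.1 hd hp hp'
  have hc : Sc s t := (h s hs t ht).resolve_right hnd
  unfold cnt at h0
  have h1 := (List.sum_eq_zero_iff.1 h0) ((l'.map fun t => if Sc s t then 1 else 0).sum)
    (List.mem_map.2 ⟨s, hs, rfl⟩)
  have h2 := (List.sum_eq_zero_iff.1 h1) (if Sc s t then 1 else 0) (List.mem_map.2 ⟨t, ht, rfl⟩)
  rw [if_pos hc] at h2
  exact one_ne_zero h2

lemma cnt_zero_of_disj {l l' : List Seg} (h : Disjoint (supp l) (supp l')) : cnt l l' = 0 := by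
  classical
  unfold cnt
  apply List.sum_eq_zero
  intro x hx
  obtain ⟨s, hs, rfl⟩ := List.mem_map.1 hx
  apply List.sum_eq_zero
  intro y hy
  obtain ⟨t, ht, rfl⟩ := List.mem_map.1 hy
  rw [if_neg]
  intro hc
  apply hc.not_dj
  exact Set.disjoint_left.2 fun p hp hp' => Set.disjoint_left.1 h ⟨s, hs, hp⟩ ⟨t, ht, hp'⟩

lemma exists_common_of_cnt {l l' : List Seg} (h0 : cnt l l' ≠ 0) :
    ∃ p, p ∈ supp l ∧ p ∈ supp l' := by
  by_contra hcon
  apply h0
  apply cnt_zero_of_disj
  refine Set.disjoint_left.2 fun p hp hp' => hcon ⟨p, hp, hp'⟩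

/-- closed chains in general position cross an even number of times -/
theorem cnt_even {l l' : List Seg} {u w : Pt} (h : GP l l') (hl : IsPath l u u) (hl' : IsPath l' w w) :
    Even (cnt l l') := by
  rw [← ZMod.natCast_eq_zero_iff_even, cnt_cast h, XL_eq hl.bd hl'.bd]
  simp only [two_self, add_zero]

/-- splitting a segment at a point -/
lemma seg_split {a b q : Pt} (hq : q ∈ segment ℝ a b) :
    segment ℝ a q ⊆ segment ℝ a b ∧ segment ℝ q b ⊆ segment ℝ a b ∧
    segment ℝ a b ⊆ segment ℝ a q ∪ segment ℝ q b := by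
  refine ⟨(convex_segment a b).segment_subset (left_mem_segment ℝ a b) hq,
    (convex_segment a b).segment_subset hq (right_mem_segment ℝ a b), ?_⟩
  rw [segment_eq_image_lineMap] at hq
  obtain ⟨w, ⟨hw0, hw1⟩, rfl⟩ := hq
  intro p hp
  rw [segment_eq_image_lineMap] at hp
  obtain ⟨t, ⟨ht0, ht1⟩, rfl⟩ := hp
  rcases le_total t w with h | h
  · left
    have := image_segment ℝ (AffineMap.lineMap (k := ℝ) a b) 0 w
    rw [AffineMap.lineMap_apply_zero] at this
    rw [← this]
    exact ⟨t, by rw [segment_eq_Icc hw0]; exact ⟨ht0, h⟩, rfl⟩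
  · right
    have := image_segment ℝ (AffineMap.lineMap (k := ℝ) a b) w 1
    rw [AffineMap.lineMap_apply_one] at this
    rw [← this]
    exact ⟨t, by rw [segment_eq_Icc hw1]; exact ⟨h, ht1⟩, rfl⟩

lemma supp_cons (s : Seg) (l : List Seg) : supp (s :: l) = s.set ∪ supp l := by
  ext p
  simp only [supp, Set.mem_ofPred_eq, List.mem_cons, Set.mem_union]
  constructor
  · rintro ⟨s', rfl | hs, h⟩
    · exact Or.inl h
    · exact Or.inr ⟨s', hs, h⟩
  · rintro (h | ⟨s', hs, h⟩)
    · exact ⟨s, Or.inl rfl, h⟩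
    · exact ⟨s', Or.inr hs, h⟩

lemma supp_nil : supp [] = ∅ := by
  ext p; simp [supp]

/-- cutting one segment of a chain in general position -/
lemma seg_split_gp {a b q : Pt} (hq : q ∈ segment ℝ a b) {l' : List Seg} (h : GP [(a, b)] l')
    (hql : q ∉ supp l') :
    GP [(a, q)] l' ∧ GP [(q, b)] l' ∧ cnt [(a, q)] l' + cnt [(q, b)] l' = cnt [(a, b)] l' := by
  classical
  obtain ⟨h1, h2, _⟩ := seg_split hq
  have key : ∀ t ∈ l', (Sc (a, q) t ∧ Dj (q, b) t) ∨ (Dj (a, q) t ∧ Sc (q, b) t) ∨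
      (Dj (a, q) t ∧ Dj (q, b) t ∧ Dj (a, b) t) := by
    intro t ht
    rcases h (a, b) (by simp) t ht with h3 | h3
    · rcases cross_split a b q t h3 hq (fun hqt => hql ⟨t, ht, hqt⟩) with h4 | h4
      · exact Or.inl h4
      · exact Or.inr (Or.inl h4)
    · exact Or.inr (Or.inr ⟨Disjoint.mono_left h1 h3, Disjoint.mono_left h2 h3, h3⟩)
  refine ⟨?_, ?_, ?_⟩
  · intro s hs t ht
    rw [List.mem_singleton] at hs
    subst hs
    rcases key t ht with h4 | h4 | h4
    · exact Or.inl h4.1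
    · exact Or.inr h4.1
    · exact Or.inr h4.1
  · intro s hs t ht
    rw [List.mem_singleton] at hs
    subst hs
    rcases key t ht with h4 | h4 | h4
    · exact Or.inr h4.2
    · exact Or.inl h4.2
    · exact Or.inr h4.2.1
  · simp only [cnt, List.map_cons, List.map_nil, List.sum_cons, List.sum_nil, add_zero]
    have hk : ∀ t ∈ l', (if Sc (a, q) t then 1 else 0) + (if Sc (q, b) t then 1 else 0) =
        (if Sc (a, b) t then 1 else 0) := by
      intro t ht
      rcases key t ht with h4 | h4 | h4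
      · have h5 : Sc (a, b) t := (h (a, b) (by simp) t ht).resolve_right fun hd =>
          h4.1.not_dj (Disjoint.mono_left h1 hd)
        rw [if_pos h4.1, if_neg (fun h6 => h6.not_dj h4.2), if_pos h5]
      · have h5 : Sc (a, b) t := (h (a, b) (by simp) t ht).resolve_right fun hd =>
          h4.2.not_dj (Disjoint.mono_left h2 hd)
        rw [if_pos h4.2, if_neg (fun h6 => h6.not_dj h4.1), if_pos h5]
      · rw [if_neg (fun h6 => h6.not_dj h4.1), if_neg (fun h6 => h6.not_dj h4.2.1),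
          if_neg (fun h6 => h6.not_dj h4.2.2)]
    clear h hql key
    induction l' with
    | nil => simp
    | cons t l' ih =>
      simp only [List.map_cons, List.sum_cons]
      have h6 := hk t (by simp)
      have h7 := ih (fun t ht => hk t (by simp [ht]))
      omega

/-- cutting a path at a point of its support -/
theorem path_split {l : List Seg} {u w q : Pt} (hl : IsPath l u w) (hq : q ∈ supp l) :
    ∃ l₁ l₂, IsPath l₁ u q ∧ IsPath l₂ q w ∧ supp l₁ ⊆ supp l ∧ supp l₂ ⊆ supp l ∧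
      supp l ⊆ supp l₁ ∪ supp l₂ ∧ ∀ l', GP l l' → q ∉ supp l' →
        GP l₁ l' ∧ GP l₂ l' ∧ cnt l₁ l' + cnt l₂ l' = cnt l l' := by
  obtain ⟨s, hs, hqs⟩ := hq
  obtain ⟨m₁, m₂, rfl⟩ := List.append_of_mem hs
  obtain ⟨h1, h2⟩ := hl.of_append
  obtain ⟨a, b⟩ := s
  obtain ⟨i1, i2, i3⟩ := seg_split hqs
  refine ⟨m₁ ++ [(a, q)], (q, b) :: m₂, h1.append ⟨rfl, rfl⟩, ⟨rfl, h2⟩, ?_, ?_, ?_, ?_⟩
  · rw [supp_append, supp_append, supp_cons, supp_cons, supp_nil, Set.union_empty]
    exact Set.union_subset_union_right _ (i1.trans Set.subset_union_left)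
  · rw [supp_append, supp_cons, supp_cons]
    exact (Set.union_subset_union_left _ i2).trans Set.subset_union_right
  · rw [supp_append, supp_append, supp_cons, supp_cons, supp_cons, supp_nil, Set.union_empty]
    rintro p (hp | hp | hp)
    · exact Or.inl (Or.inl hp)
    · rcases i3 hp with h | h
      · exact Or.inl (Or.inr h)
      · exact Or.inr (Or.inl h)
    · exact Or.inr (Or.inr hp)
  · intro l' hgp hql
    have g1 : GP m₁ l' := hgp.mono (by intro s hs; simp [hs])
    have g2 : GP m₂ l' := hgp.mono (by intro s hs; simp [hs])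
    have g3 : GP [(a, b)] l' := hgp.mono (by intro s hs; rw [List.mem_singleton] at hs; simp [hs])
    obtain ⟨j1, j2, j3⟩ := seg_split_gp hqs g3 hql
    refine ⟨g1.append j1, ?_, ?_⟩
    · have : (q, b) :: m₂ = [(q, b)] ++ m₂ := rfl
      rw [this]; exact j2.append g2
    · rw [cnt_append, cnt_append, cnt_cons (a, b) m₂, cnt_cons (q, b) m₂]
      have j3' : cnt [(a, q)] l' + cnt [(q, b)] l' = cnt [(a, b)] l' := j3
      omega

/-- moving the base point of a closed path -/
theorem path_rotate {l : List Seg} {u c : Pt} (hl : IsPath l u u) (hc : c ∈ supp l) :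
    ∃ l₀, IsPath l₀ c c ∧ supp l₀ = supp l ∧ ∀ l', GP l l' → c ∉ supp l' →
        GP l₀ l' ∧ cnt l₀ l' = cnt l l' := by
  obtain ⟨l₁, l₂, h1, h2, h3, h4, h5, h6⟩ := path_split hl hc
  refine ⟨l₂ ++ l₁, h2.append h1, ?_, ?_⟩
  · rw [supp_append, Set.union_comm]
    exact Set.Subset.antisymm (Set.union_subset h3 h4) h5
  · intro l' hgp hql
    obtain ⟨j1, j2, j3⟩ := h6 l' hgp hql
    refine ⟨j2.append j1, ?_⟩
    rw [cnt_append]; omega

/-- two points of a closed path are joined inside it -/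
theorem closed_conn {l : List Seg} {u p q : Pt} (hl : IsPath l u u) (hp : p ∈ supp l)
    (hq : q ∈ supp l) : Conn (supp l) p q := by
  obtain ⟨l₁, _, h1, _, h3, _⟩ := path_split hl hp
  obtain ⟨l₂, _, h1', _, h3', _⟩ := path_split hl hq
  exact (Conn.symm ⟨l₁, h1.bd, h3⟩).trans ⟨l₂, h1'.bd, h3'⟩

/-- If the closed path `l` crosses the closed path `l'` exactly twice and `c`, `q` are points of
`l` that can be joined in the complement of `l'`, then they can be joined inside `l` minus `l'`. -/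
theorem arc_avoid {l l' : List Seg} {u w c q : Pt} (hl : IsPath l u u) (hl' : IsPath l' w w)
    (hgp : GP l l') (hcnt : cnt l l' = 2) (hc : c ∈ supp l) (hq : q ∈ supp l) (hc' : c ∉ supp l')
    (hq' : q ∉ supp l') (hconn : Conn (supp l')ᶜ c q) : Conn (supp l \ supp l') c q := by
  obtain ⟨l₀, h1, h2, h3⟩ := path_rotate hl hc
  obtain ⟨h4, h5⟩ := h3 l' hgp hc'
  obtain ⟨l₁, l₂, k1, k2, k3, k4, k5, k6⟩ := path_split h1 (by rw [h2]; exact hq)
  obtain ⟨j1, j2, j3⟩ := k6 l' h4 hq'
  obtain ⟨M, hM, hMs⟩ := hconn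
  have e1 : XL M l' = 0 := XL_zero_of_disj (Set.disjoint_left.2 fun p hp hp' => hMs hp hp')
  have e2 : XL l₁ l' = 0 := by
    rw [← e1, XL_eq k1.bd hl'.bd, XL_eq hM hl'.bd]
    simp only [two_self, add_zero]
  have e3 : Even (cnt l₁ l') := by
    rw [← ZMod.natCast_eq_zero_iff_even, cnt_cast j1, e2]
  have e4 : cnt l₁ l' = 0 ∨ cnt l₂ l' = 0 := by
    obtain ⟨r, hr⟩ := e3
    omega
  rcases e4 with h | h
  · have := disj_of_cnt_zero j1 h
    refine ⟨l₁, k1.bd, fun p hp => ⟨h2 ▸ k3 hp, fun hp' => Set.disjoint_left.1 this hp hp'⟩⟩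
  · have := disj_of_cnt_zero j2 h
    refine ⟨l₂, k2.bd.symm, fun p hp => ⟨h2 ▸ k4 hp, fun hp' => Set.disjoint_left.1 this hp hp'⟩⟩

end Pool.Agent.Lib.MP_0a0e82_gt
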