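import Pool.Agent.Lib.MP_0a0e82_gt.Defs

set_option autoImplicit false

namespace Pool.Agent.Lib.MP_0a0e82_gt

variable {m : ℕ}

/-- parity of the number of crossings at which component `i` is over component `j` (Gauss codes) -/
def lk2 (G : Code m) (i j : Fin m) : ZMod 2 :=
  ((G i).map fun p => ((G j).map fun q =>
    if p.isOver = true ∧ q.isOver = false ∧ p.lab = q.lab then (1 : ZMod 2) else 0).sum).sum

open Classical in
/-- the same for diagrams -/
noncomputable def Diagram.lk2 (D : Diagram m) (i j : Fin m) : ZMod 2 :=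
  ∑ k ∈ Finset.range (D.n i), ∑ l ∈ Finset.range (D.n j),
    if D.Cross (i, k) (j, l) ∧ D.kind (i, k) (j, l) = Kind.above then (1 : ZMod 2) else 0

namespace Linking

/-- the contribution of a pair of entries -/
def ind (p q : Pass) : ZMod 2 :=
  if p.isOver = true ∧ q.isOver = false ∧ p.lab = q.lab then (1 : ZMod 2) else 0

/-- the contribution of a pair of words -/
def lkw (A B : List Pass) : ZMod 2 := (A.map fun p => (B.map fun q => ind p q).sum).sum

theorem lk2_eq (G : Code m) (i j : Fin m) : lk2 G i j = lkw (G i) (G j) := rfl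

theorem lkw_perm_left {A A' : List Pass} (h : A.Perm A') (B : List Pass) :
    lkw A B = lkw A' B := (h.map _).sum_eq

theorem lkw_perm_right (A : List Pass) {B B' : List Pass} (h : B.Perm B') :
    lkw A B = lkw A B' := by
  unfold lkw
  congr 1
  apply List.map_congr_left
  intro p _
  exact (h.map _).sum_eq

theorem lkw_append_left (A A' B : List Pass) : lkw (A ++ A') B = lkw A B + lkw A' B := by
  unfold lkw
  rw [List.map_append, List.sum_append]

theorem lkw_nil_left (B : List Pass) : lkw [] B = 0 := rfl

theorem lkw_cons_left (p : Pass) (A B : List Pass) :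
    lkw (p :: A) B = (B.map fun q => ind p q).sum + lkw A B := by
  unfold lkw
  rw [List.map_cons, List.sum_cons]

theorem lkw_append_right (A B B' : List Pass) : lkw A (B ++ B') = lkw A B + lkw A B' := by
  induction A with
  | nil => rfl
  | cons p A ih =>
    rw [lkw_cons_left, lkw_cons_left, lkw_cons_left, ih, List.map_append, List.sum_append]
    ring

theorem lkw_eq_zero {A B : List Pass} (h : ∀ p ∈ A, ∀ q ∈ B, ind p q = 0) : lkw A B = 0 := by
  induction A with
  | nil => rfl
  | cons p A ih =>
    rw [lkw_cons_left, ih fun p' hp' => h p' (List.mem_cons_of_mem _ hp'), add_zero]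
    apply List.sum_eq_zero
    intro x hx
    obtain ⟨q, hq, rfl⟩ := List.mem_map.1 hx
    exact h p List.mem_cons_self q hq

theorem ind_lab {p q : Pass} (h : p.lab ≠ q.lab) : ind p q = 0 := by
  unfold ind
  rw [if_neg]
  exact fun h' => h h'.2.2

theorem lkw_map {A B : List Pass} (f g : Pass → Pass) (h : ∀ p q, ind (f p) (g q) = ind p q) :
    lkw (A.map f) (B.map g) = lkw A B := by
  unfold lkw
  rw [List.map_map]
  congr 1
  apply List.map_congr_left
  intro p _
  simp only [Function.comp_apply, List.map_map]
  congr 1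
  apply List.map_congr_left
  intro q _
  exact h p q

/-- permuting the words -/
theorem lk2_perm {G G' : Code m} (h : ∀ i, (G' i).Perm (G i)) (i j : Fin m) :
    lk2 G' i j = lk2 G i j := by
  rw [lk2_eq, lk2_eq, lkw_perm_left (h i), lkw_perm_right _ (h j)]

/-- adding entries -/
theorem lk2_add {G G' : Code m} (E : Code m) (h : ∀ i, (G' i).Perm (G i ++ E i)) {i j : Fin m}
    (h1 : lkw (E i) (G j) = 0) (h2 : lkw (G i) (E j) = 0) (h3 : lkw (E i) (E j) = 0) :
    lk2 G' i j = lk2 G i j := by
  rw [lk2_eq, lk2_eq, lkw_perm_left (h i), lkw_perm_right _ (h j), lkw_append_left,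
    lkw_append_right, lkw_append_right, h1, h2, h3]
  ring

theorem swap_perm {P Q : Pass} {G H : Code m} (h : Code.Swap P Q G H) (i : Fin m) :
    (H i).Perm (G i) := by
  obtain ⟨i', A, B, h1, rfl⟩ := h
  by_cases hi : i = i'
  · subst hi
    rw [Function.update_self, h1]
    exact List.Perm.append_left A (List.Perm.swap P Q B)
  · rw [Function.update_of_ne hi]

theorem swapO_perm {o : Bool} {P Q : Pass} {G H : Code m} (h : Code.SwapO o P Q G H)
    (i : Fin m) : (H i).Perm (G i) := by
  cases o
  · exact swap_perm (by simpa [Code.SwapO] using h) i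
  · exact swap_perm (by simpa [Code.SwapO] using h) i

theorem perm_insert (A E B : List Pass) : (A ++ (E ++ B)).Perm (A ++ B ++ E) := by
  rw [List.append_assoc]
  exact List.Perm.append_left A List.perm_append_comm

/-- adding entries with fresh names to one component -/
theorem lk2_fresh {G G' : Code m} (i₀ : Fin m) (E : List Pass)
    (hE : ∀ p ∈ E, Code.Fresh p.lab G)
    (h0 : (G' i₀).Perm (G i₀ ++ E)) (h : ∀ i, i ≠ i₀ → G' i = G i) {i j : Fin m} (hij : i ≠ j) :
    lk2 G' i j = lk2 G i j := by
  classical
  refine lk2_add (fun i => if i = i₀ then E else []) ?_ ?_ ?_ ?_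
  · intro i
    by_cases hi : i = i₀
    · subst hi; simpa using h0
    · rw [if_neg hi, h i hi, List.append_nil]
  · by_cases hi : i = i₀
    · rw [if_pos hi]
      refine lkw_eq_zero fun p hp q hq => ind_lab fun e => hE p hp j q hq e.symm
    · rw [if_neg hi]; rfl
  · by_cases hj : j = i₀
    · rw [if_pos hj]
      refine lkw_eq_zero fun p hp q hq => ind_lab fun e => hE q hq i p hp e
    · rw [if_neg hj]
      exact lkw_eq_zero fun p _ q hq => absurd hq List.not_mem_nil
  · by_cases hi : i = i₀
    · have hj : ¬ j = i₀ := fun hj => hij (hi.trans hj.symm)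
      rw [if_neg hj]
      exact lkw_eq_zero fun p _ q hq => absurd hq List.not_mem_nil
    · rw [if_neg hi]; rfl

end Linking

open Linking

/-- moves preserve the mod 2 linking numbers up to a permutation of the components -/
theorem lk2_move {G G' : Code m} (h : Move G G') :
    ∃ σ : Equiv.Perm (Fin m), ∀ i j, i ≠ j → lk2 G' i j = lk2 G (σ i) (σ j) := by
  cases h with
  | rotate i k =>
    refine ⟨1, fun a b _ => lk2_perm (fun i' => ?_) a b⟩
    by_cases hi : i' = i
    · subst hi
      rw [Function.update_self]
      exact List.rotate_perm _ _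
    · rw [Function.update_of_ne hi]
  | relabel f hf =>
    refine ⟨1, fun a b _ => ?_⟩
    rw [lk2_eq]
    refine lkw_map _ _ fun p q => ?_
    unfold ind
    simp only [hf.eq_iff]
  | permute σ => exact ⟨σ, fun a b _ => rfl⟩
  | reverse i =>
    refine ⟨1, fun a b _ => ?_⟩
    have key : ∀ j : Fin m, ∃ f : Pass → Pass, (∀ p, (f p).lab = p.lab ∧ (f p).isOver = p.isOver) ∧
        (G.reverseComp i j).Perm ((G j).map f) := by
      intro j
      refine ⟨fun p => if ((G i).filter fun q => q.lab = p.lab).length = 1
        then { p with isPos := !p.isPos } else p, ?_, ?_⟩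
      · intro p
        dsimp only
        split_ifs <;> exact ⟨rfl, rfl⟩
      · unfold Code.reverseComp
        dsimp only
        split_ifs
        · exact List.reverse_perm _
        · exact List.Perm.refl _
    obtain ⟨f, hf, hfp⟩ := key a
    obtain ⟨g, hg, hgp⟩ := key b
    rw [lk2_eq, lkw_perm_left hfp, lkw_perm_right _ hgp]
    refine lkw_map f g fun p q => ?_
    unfold ind
    rw [(hf p).1, (hf p).2, (hg q).1, (hg q).2]
  | r1 i A B c o s hc h =>
    refine ⟨1, fun a b hab => lk2_fresh i [⟨c, o, s⟩, ⟨c, !o, s⟩] ?_ ?_ ?_ hab⟩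
    · intro p hp
      simp only [List.mem_cons, List.not_mem_nil, or_false] at hp
      rcases hp with rfl | rfl <;> exact hc
    · rw [Function.update_self, h]
      exact perm_insert A [⟨c, o, s⟩, ⟨c, !o, s⟩] B
    · intro i' hi'
      rw [Function.update_of_ne hi']
  | r2 i j hij A B A' B' c d s dirn hcd hc hd hi hj =>
    refine ⟨1, fun a b hab => ?_⟩
    classical
    set U : List Pass :=
      if dirn then [⟨c, false, s⟩, ⟨d, false, !s⟩] else [⟨d, false, !s⟩, ⟨c, false, s⟩] with hU
    have hUp : U.Perm [⟨c, false, s⟩, ⟨d, false, !s⟩] := by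
      rw [hU]
      cases dirn
      · exact List.Perm.swap _ _ _
      · exact List.Perm.refl _
    have hmO : ∀ p ∈ ([⟨c, true, s⟩, ⟨d, true, !s⟩] : List Pass), Code.Fresh p.lab G := by
      intro p hp
      simp only [List.mem_cons, List.not_mem_nil, or_false] at hp
      rcases hp with rfl | rfl
      · exact hc
      · exact hd
    have hmU : ∀ p ∈ ([⟨c, false, s⟩, ⟨d, false, !s⟩] : List Pass), Code.Fresh p.lab G := by
      intro p hp
      simp only [List.mem_cons, List.not_mem_nil, or_false] at hp
      rcases hp with rfl | rfl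
      · exact hc
      · exact hd
    set E : Code m := fun x => if x = i then [⟨c, true, s⟩, ⟨d, true, !s⟩]
      else if x = j then [⟨c, false, s⟩, ⟨d, false, !s⟩] else [] with hE
    have hEf : ∀ x, ∀ p ∈ E x, Code.Fresh p.lab G := by
      intro x p hp
      rw [hE] at hp
      dsimp only at hp
      split_ifs at hp
      · exact hmO p hp
      · exact hmU p hp
      · exact absurd hp List.not_mem_nil
    refine lk2_add E ?_ ?_ ?_ ?_
    · intro x
      by_cases hxj : x = j
      · subst hxj
        rw [Function.update_self, hj]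
        have : E x = [⟨c, false, s⟩, ⟨d, false, !s⟩] := by
          rw [hE]; dsimp only; rw [if_neg (Ne.symm hij), if_pos rfl]
        rw [this]
        refine (List.Perm.append_right B' (List.Perm.append_left A' hUp)).trans ?_
        rw [List.append_assoc]
        exact perm_insert A' [⟨c, false, s⟩, ⟨d, false, !s⟩] B'
      · rw [Function.update_of_ne hxj]
        by_cases hxi : x = i
        · subst hxi
          rw [Function.update_self, hi]
          have : E x = [⟨c, true, s⟩, ⟨d, true, !s⟩] := by
            rw [hE]; dsimp only; rw [if_pos rfl]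
          rw [this]
          exact perm_insert A [⟨c, true, s⟩, ⟨d, true, !s⟩] B
        · rw [Function.update_of_ne hxi]
          have : E x = [] := by
            rw [hE]; dsimp only; rw [if_neg hxi, if_neg hxj]
          rw [this, List.append_nil]
    · exact lkw_eq_zero fun p hp q hq => ind_lab fun e => hEf a p hp b q hq e.symm
    · exact lkw_eq_zero fun p hp q hq => ind_lab fun e => hEf b q hq a p hp e
    · rw [hE]
      dsimp only
      by_cases hai : a = i
      · rw [if_pos hai]
        have hbi : b ≠ i := fun e => hab (hai.trans e.symm)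
        rw [if_neg hbi]
        by_cases hbj : b = j
        · rw [if_pos hbj]
          have h1 : ¬ c = d := hcd
          have h2 : ¬ d = c := fun e => hcd e.symm
          simp only [lkw, ind, List.map_cons, List.map_nil, List.sum_cons, List.sum_nil, h1, h2]
          decide
        · rw [if_neg hbj]
          exact lkw_eq_zero fun p _ q hq => absurd hq List.not_mem_nil
      · rw [if_neg hai]
        by_cases haj : a = j
        · rw [if_pos haj]
          refine lkw_eq_zero fun p hp q _ => ?_
          simp only [List.mem_cons, List.not_mem_nil, or_false] at hp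
          unfold ind
          rw [if_neg]
          rintro ⟨h1, _, _⟩
          rcases hp with rfl | rfl <;> exact absurd h1 (by simp)
        · rw [if_neg haj]; rfl
  | r2self i A B C c d s dirn hcd hc hd hi =>
    refine ⟨1, fun a b hab => lk2_fresh i ([⟨c, true, s⟩, ⟨d, true, !s⟩] ++
      (if dirn then [⟨c, false, s⟩, ⟨d, false, !s⟩] else [⟨d, false, !s⟩, ⟨c, false, s⟩]))
      ?_ ?_ ?_ hab⟩
    · intro p hp
      cases dirn
      · simp only [Bool.false_eq_true, if_false, List.mem_append, List.mem_cons,
          List.not_mem_nil, or_false] at hp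
        rcases hp with (rfl | rfl) | (rfl | rfl)
        · exact hc
        · exact hd
        · exact hd
        · exact hc
      · simp only [if_true, List.mem_append, List.mem_cons,
          List.not_mem_nil, or_false] at hp
        rcases hp with (rfl | rfl) | (rfl | rfl)
        · exact hc
        · exact hd
        · exact hc
        · exact hd
    · rw [Function.update_self, hi]
      generalize (if dirn then [⟨c, false, s⟩, ⟨d, false, !s⟩] else
        [⟨d, false, !s⟩, ⟨c, false, s⟩] : List Pass) = U
      have e1 : A ++ ⟨c, true, s⟩ :: ⟨d, true, !s⟩ :: B ++ U ++ C =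
          A ++ ([⟨c, true, s⟩, ⟨d, true, !s⟩] ++ (B ++ (U ++ C))) := by
        simp [List.append_assoc]
      rw [e1]
      refine (perm_insert A [⟨c, true, s⟩, ⟨d, true, !s⟩] (B ++ (U ++ C))).trans ?_
      have e2 : (A ++ (B ++ (U ++ C))).Perm (A ++ B ++ C ++ U) := by
        rw [← List.append_assoc]
        exact perm_insert (A ++ B) U C
      refine (List.Perm.append_right _ e2).trans ?_
      rw [List.append_assoc (A ++ B ++ C)]
      exact List.Perm.append_left _ List.perm_append_comm
    · intro i' hi'
      rw [Function.update_of_ne hi']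
  | r3 G₁ G₂ G₃ a b c sa sb sc oT oM oB hab hac hbc h1 h2 hT hM hB =>
    refine ⟨1, fun x y _ => lk2_perm (fun i => ?_) x y⟩
    exact (swapO_perm hB i).trans ((swapO_perm hM i).trans (swapO_perm hT i))

theorem lk2_hasCode (D : Diagram m) (G : Code m) (h : D.HasCode G) (i j : Fin m) (hij : i ≠ j) :
    lk2 G i j = D.lk2 i j := by
  classical
  obtain ⟨lab, hlab, hG⟩ := h
  obtain ⟨ps, ⟨hps, hpw⟩, hGi⟩ := hG i
  obtain ⟨qs, ⟨hqs, hqw⟩, hGj⟩ := hG j
  have nps : ps.Nodup := hpw.imp (by
    rintro a b h rfl
    rcases h with h | ⟨_, h⟩ <;> exact lt_irrefl _ h)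
  have nqs : qs.Nodup := hqw.imp (by
    rintro a b h rfl
    rcases h with h | ⟨_, h⟩ <;> exact lt_irrefl _ h)
  -- the inner sums
  have inner : ∀ p ∈ ps, (qs.map fun q => ind (D.pass lab (i, p.1) p.2)
      (D.pass lab (j, q.1) q.2)).sum =
      if D.kind (i, p.1) p.2 = Kind.above ∧ p.2.1 = j then (1 : ZMod 2) else 0 := by
    intro p hp
    obtain ⟨k, f⟩ := p
    obtain ⟨he, hf, hx, hk⟩ := (hps k f).1 hp
    have hind : ∀ q ∈ qs, ind (D.pass lab (i, k) f) (D.pass lab (j, q.1) q.2) =
        if q = (f.2, (i, k)) then
          (if D.kind (i, k) f = Kind.above ∧ f.1 = j then (1 : ZMod 2) else 0) else 0 := by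
      intro q hq
      obtain ⟨l, g⟩ := q
      obtain ⟨he', hf', hx', hk'⟩ := (hqs l g).1 hq
      have hl := hlab (i, k) f (j, l) g he hf he' hf' hx hx'
      unfold ind Diagram.pass
      dsimp only
      by_cases hq' : (l, g) = (f.2, (i, k))
      · rw [if_pos hq']
        simp only [Prod.mk.injEq] at hq'
        obtain ⟨rfl, rfl⟩ := hq'
        by_cases hc : D.kind (i, k) f = Kind.above ∧ f.1 = j
        · rw [if_pos hc]
          obtain ⟨h1, h2⟩ := hc
          subst h2
          have h3 : D.kind f (i, k) = Kind.below := by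
            rw [D.kind_flip (i, k) f he hf hx, h1]; rfl
          rw [if_pos]
          refine ⟨by simpa using h1, ?_, hl.2 (Or.inr ⟨rfl, rfl⟩)⟩
          have : D.kind (f.1, f.2) (i, k) ≠ Kind.above := by
            show D.kind f (i, k) ≠ Kind.above
            rw [h3]; decide
          exact decide_eq_false this
        · rw [if_neg hc, if_neg]
          rintro ⟨h1, _, h3⟩
          apply hc
          refine ⟨by simpa using h1, ?_⟩
          rcases hl.1 h3 with ⟨h4, _⟩ | ⟨_, h5⟩
          · exact absurd (congrArg Prod.fst h4) hij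
          · exact congrArg Prod.fst h5
      · rw [if_neg hq', if_neg]
        rintro ⟨_, _, h3⟩
        apply hq'
        rcases hl.1 h3 with ⟨h4, _⟩ | ⟨h4, h5⟩
        · exact absurd (congrArg Prod.fst h4) hij
        · rw [← h4, h5]
    rw [List.map_congr_left hind]
    by_cases hc : D.kind (i, k) f = Kind.above ∧ f.1 = j
    · have hmem : (f.2, (i, k)) ∈ qs := by
        obtain ⟨h1, h2⟩ := hc
        subst h2
        refine (hqs f.2 (i, k)).2 ⟨hf, he, ?_, ?_⟩
        · show D.Cross f (i, k)
          obtain ⟨h3, p, h4, h5⟩ := hx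
          refine ⟨?_, p, h5, h4⟩
          intro h6
          apply h3
          have : det2 (D.tgt (i, k) - D.src (i, k)) (D.tgt f - D.src f) =
              - det2 (D.tgt f - D.src f) (D.tgt (i, k) - D.src (i, k)) := by
            unfold det2; ring
          rw [this]
          have h7 : det2 (D.tgt f - D.src f) (D.tgt (i, k) - D.src (i, k)) = 0 := h6
          rw [h7, neg_zero]
        · show D.kind f (i, k) ≠ Kind.virt
          rw [D.kind_flip (i, k) f he hf hx, h1]
          decide
      rw [if_pos hc, ← List.sum_toFinset _ nqs, Finset.sum_ite_eq',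
        if_pos (List.mem_toFinset.2 hmem)]
    · rw [if_neg hc]
      apply List.sum_eq_zero
      intro x hx
      obtain ⟨q, _, rfl⟩ := List.mem_map.1 hx
      split_ifs <;> rfl
  rw [lk2_eq, hGi, hGj]
  unfold lkw
  rw [List.map_map]
  have e1 : (ps.map ((fun p => ((qs.map fun q => D.pass lab (j, q.1) q.2).map fun q =>
      ind p q).sum) ∘ fun p => D.pass lab (i, p.1) p.2)).sum =
      (ps.map fun p => if D.kind (i, p.1) p.2 = Kind.above ∧ p.2.1 = j then (1 : ZMod 2)
        else 0).sum := by
    congr 1
    apply List.map_congr_left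
    intro p hp
    simp only [Function.comp_apply, List.map_map]
    exact inner p hp
  rw [e1]
  rw [← List.sum_toFinset _ nps]
  unfold Diagram.lk2
  rw [← Finset.sum_product', ← Finset.sum_filter, ← Finset.sum_filter]
  refine Finset.sum_nbij' (fun p => (p.1, p.2.2)) (fun x => (x.1, (j, x.2))) ?_ ?_ ?_ ?_ ?_
  · rintro ⟨k, f⟩ hp
    simp only [Finset.mem_filter, List.mem_toFinset] at hp
    obtain ⟨hp, h1, h2⟩ := hp
    obtain ⟨he, hf, hx, hk⟩ := (hps k f).1 hp
    subst h2
    simp only [Finset.mem_filter, Finset.mem_product, Finset.mem_range]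
    exact ⟨⟨he, hf⟩, hx, h1⟩
  · rintro ⟨k, l⟩ hp
    simp only [Finset.mem_filter, Finset.mem_product, Finset.mem_range] at hp
    obtain ⟨⟨he, hf⟩, hx, h1⟩ := hp
    simp only [Finset.mem_filter, List.mem_toFinset]
    refine ⟨(hps k (j, l)).2 ⟨he, hf, hx, ?_⟩, h1, trivial⟩
    rw [h1]; decide
  · rintro ⟨k, f⟩ hp
    simp only [Finset.mem_filter, List.mem_toFinset] at hp
    obtain ⟨hp, h1, h2⟩ := hp
    subst h2
    rfl
  · rintro ⟨k, l⟩ _
    rfl
  · intro p _
    rfl

namespace Linking

/-- equality of two matrices off the diagonal up to a permutation -/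
def Same (f g : Fin m → Fin m → ZMod 2) : Prop :=
  ∃ σ : Equiv.Perm (Fin m), ∀ i j, i ≠ j → g i j = f (σ i) (σ j)

theorem Same.refl (f : Fin m → Fin m → ZMod 2) : Same f f := ⟨1, fun _ _ _ => rfl⟩

theorem Same.symm {f g : Fin m → Fin m → ZMod 2} (h : Same f g) : Same g f := by
  obtain ⟨σ, h⟩ := h
  refine ⟨σ⁻¹, fun i j hij => ?_⟩
  rw [h _ _ fun e => hij (σ⁻¹.injective e)]
  simp

theorem Same.trans {f g k : Fin m → Fin m → ZMod 2} (h : Same f g) (h' : Same g k) :
    Same f k := by
  obtain ⟨σ, h⟩ := h
  obtain ⟨τ, h'⟩ := h'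
  refine ⟨σ * τ, fun i j hij => ?_⟩
  rw [h' i j hij, h _ _ fun e => hij (τ.injective e)]
  rfl

theorem same_of_eqvGen {G G' : Code m} (h : Relation.EqvGen Move G G') :
    Same (lk2 G) (lk2 G') := by
  induction h with
  | rel G G' h => exact lk2_move h
  | refl G => exact Same.refl _
  | symm G G' _ ih => exact ih.symm
  | trans G G' G'' _ _ ih ih' => exact ih.trans ih'

theorem same_hasCode {D : Diagram m} {G : Code m} (h : D.HasCode G) :
    Same (lk2 G) D.lk2 := ⟨1, fun i j hij => (lk2_hasCode D G h i j hij).symm⟩

end Linking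

/-- diagrams of the same virtual link have the same mod 2 linking numbers up to a permutation -/
theorem lk2_link (D D' : Diagram m) (h : D.link = D'.link) :
    ∃ σ : Equiv.Perm (Fin m), ∀ i j, i ≠ j → D'.lk2 i j = D.lk2 (σ i) (σ j) := by
  have h1 : Relation.EqvGen Diagram.Rel D D' := Quot.eqvGen_exact h
  show Same D.lk2 D'.lk2
  clear h
  induction h1 with
  | rel D D' h =>
    obtain ⟨G, G', hG, hG', hr⟩ := h
    exact (same_hasCode hG).symm.trans ((same_of_eqvGen hr).trans (same_hasCode hG'))
  | refl D => exact Same.refl _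
  | symm D D' _ ih => exact ih.symm
  | trans D D' D'' _ _ ih ih' => exact ih.trans ih'

end Pool.Agent.Lib.MP_0a0e82_gt
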