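import Pool.Agent.Lib.MP_0a0e82_gt.Count
import Pool.Agent.Lib.MP_0a0e82_gt.Linking

/-!
# From diagrams to families of closed curves, and the lower bound for the total crossing number
-/

set_option autoImplicit false

namespace Pool.Agent.Lib.MP_0a0e82_gt

open Finset

variable {m : ℕ} (D : Diagram m)

/-- the list of edges of component `i` -/
def Diagram.edgeList (i : Fin m) : List Seg :=
  (List.range (D.n i)).map fun k => (D.v i k, D.v i (k + 1))

lemma isPath_range (v : ℕ → Pt) : ∀ n a : ℕ,
    IsPath ((List.range' a n).map fun k => (v k, v (k + 1))) (v a) (v (a + n))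
  | 0, a => by simp [IsPath]
  | n + 1, a => by
    rw [List.range'_succ, List.map_cons]
    refine ⟨rfl, ?_⟩
    have := isPath_range v n (a + 1)
    rw [show a + 1 + n = a + (n + 1) by omega] at this
    exact this

lemma Diagram.edgeList_path (i : Fin m) : IsPath (D.edgeList i) (D.v i 0) (D.v i 0) := by
  have := isPath_range (D.v i) (D.n i) 0
  rw [Nat.zero_add, D.closed i, ← List.range_eq_range'] at this
  exact this

/-- component `i` as a closed curve -/
def Diagram.cv (i : Fin m) : Cv := ⟨D.edgeList i, D.v i 0, D.edgeList_path i⟩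

lemma Diagram.gp {i j : Fin m} (hij : i ≠ j) : GP (D.cv i).l (D.cv j).l := by
  intro s hs t ht
  obtain ⟨k, hk, rfl⟩ := List.mem_map.1 hs
  obtain ⟨l, hl, rfl⟩ := List.mem_map.1 ht
  rw [List.mem_range] at hk hl
  exact D.general (i, k) (j, l) hk hl (fun h => hij (congrArg Prod.fst h))
    (fun h => hij (congrArg Prod.fst h).symm) (fun h => hij (congrArg Prod.fst h))

lemma sum_map_range {M : Type} [AddCommMonoid M] (n : ℕ) (f : ℕ → M) :
    ((List.range n).map f).sum = ∑ k ∈ range n, f k := by
  induction n with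
  | zero => simp
  | succ n ih =>
    rw [List.range_succ, List.map_append, List.sum_append, ih, Finset.sum_range_succ]
    simp

open Classical in
lemma Diagram.cv_t (i j : Fin m) : (D.cv i).t (D.cv j) =
    ∑ k ∈ range (D.n i), ∑ l ∈ range (D.n j), if D.Cross (i, k) (j, l) then 1 else 0 := by
  unfold Cv.t cnt Diagram.cv Diagram.edgeList
  simp only [List.map_map, Function.comp_def]
  rw [sum_map_range]
  apply Finset.sum_congr rfl
  intro k _
  rw [sum_map_range]
  apply Finset.sum_congr rfl
  intro l _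
  rfl

/-- a nonzero mod 2 linking number forces a crossing -/
lemma Diagram.t_ne_zero_of_lk2 {i j : Fin m} (h : D.lk2 i j ≠ 0) : (D.cv i).t (D.cv j) ≠ 0 := by
  classical
  intro h0
  apply h
  rw [D.cv_t i j] at h0
  unfold Diagram.lk2
  apply Finset.sum_eq_zero
  intro k hk
  apply Finset.sum_eq_zero
  intro l hl
  rw [if_neg]
  rintro ⟨h1, _⟩
  have h2 := (Finset.sum_eq_zero_iff.1 h0) k hk
  have h3 := (Finset.sum_eq_zero_iff.1 h2) l hl
  rw [if_pos h1] at h3
  exact one_ne_zero h3

lemma Polygons.mem_edges (P : Polygons m) (e : Fin m × ℕ) : e ∈ P.edges ↔ P.IsEdge e := by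
  unfold Polygons.edges Polygons.IsEdge
  simp only [Finset.mem_biUnion, Finset.mem_univ, true_and, Finset.mem_image, Finset.mem_range]
  constructor
  · rintro ⟨i, k, hk, rfl⟩; exact hk
  · intro h; exact ⟨e.1, e.2, h, rfl⟩

lemma Polygons.sum_edges (P : Polygons m) (f : Fin m × ℕ → ℕ) :
    ∑ e ∈ P.edges, f e = ∑ i, ∑ k ∈ range (P.n i), f (i, k) := by
  unfold Polygons.edges
  rw [Finset.sum_biUnion]
  · apply Finset.sum_congr rfl
    intro i _
    rw [Finset.sum_image]
    intro a _ b _ h
    exact (Prod.ext_iff.1 h).2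
  · intro i _ j _ hij
    refine Finset.disjoint_left.2 ?_
    intro e he he'
    rw [Finset.mem_image] at he he'
    obtain ⟨k, _, rfl⟩ := he
    obtain ⟨l, _, hl⟩ := he'
    exact hij (Prod.ext_iff.1 hl).1.symm

lemma segCross_symm {a b c d : Pt} (h : SegCross a b c d) : SegCross c d a b := by
  obtain ⟨h1, p, hp, hp'⟩ := h
  refine ⟨?_, p, hp', hp⟩
  intro h2
  apply h1
  unfold det2 at h2 ⊢
  linarith

open Classical in
/-- all ordered crossing pairs -/
lemma Diagram.total_ge : (∑ i, ∑ j, if i = j then 0 else (D.cv i).t (D.cv j)) ≤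
    2 * D.totalCrossings + 1 := by
  set E := D.edges ×ˢ D.edges with hE
  set cr := E.filter fun p => D.Cross p.1 p.2 with hcr
  have hA : (E.filter fun p => D.Cross p.1 p.2 ∧ D.kind p.1 p.2 = Kind.above).card =
      (E.filter fun p => D.Cross p.1 p.2 ∧ D.kind p.1 p.2 = Kind.below).card := by
    apply Finset.card_bij (fun p _ => (p.2, p.1))
    · intro p hp
      rw [Finset.mem_filter] at hp ⊢
      obtain ⟨hp1, hp2, hp3⟩ := hp
      rw [hE, Finset.mem_product] at hp1 ⊢
      refine ⟨⟨hp1.2, hp1.1⟩, segCross_symm hp2, ?_⟩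
      have := D.kind_flip p.1 p.2 ((D.mem_edges _).1 hp1.1) ((D.mem_edges _).1 hp1.2) hp2
      rw [this, hp3]; rfl
    · intro p _ q _ h
      exact Prod.ext (Prod.ext_iff.1 h).2 (Prod.ext_iff.1 h).1
    · intro p hp
      rw [Finset.mem_filter] at hp
      obtain ⟨hp1, hp2, hp3⟩ := hp
      rw [hE, Finset.mem_product] at hp1
      refine ⟨(p.2, p.1), ?_, rfl⟩
      rw [Finset.mem_filter, hE, Finset.mem_product]
      refine ⟨⟨hp1.2, hp1.1⟩, segCross_symm hp2, ?_⟩
      have := D.kind_flip p.1 p.2 ((D.mem_edges _).1 hp1.1) ((D.mem_edges _).1 hp1.2) hp2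
      rw [this, hp3]; rfl
  have hsplit : cr.card = (E.filter fun p => D.Cross p.1 p.2 ∧ D.kind p.1 p.2 = Kind.above).card +
      (E.filter fun p => D.Cross p.1 p.2 ∧ D.kind p.1 p.2 = Kind.below).card +
      (E.filter fun p => D.Cross p.1 p.2 ∧ D.kind p.1 p.2 = Kind.virt).card := by
    rw [hcr, Finset.card_filter, Finset.card_filter, Finset.card_filter, Finset.card_filter,
      ← Finset.sum_add_distrib, ← Finset.sum_add_distrib]
    apply Finset.sum_congr rfl
    intro p _
    by_cases h : D.Cross p.1 p.2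
    · cases hk : D.kind p.1 p.2 <;> simp [h]
    · simp [h]
  have hle : (∑ i, ∑ j, if i = j then 0 else (D.cv i).t (D.cv j)) ≤ cr.card := by
    rw [hcr, Finset.card_filter, hE, Finset.sum_product, D.sum_edges]
    apply Finset.sum_le_sum
    intro i _
    have : ∀ k, (∑ f ∈ D.edges, if D.Cross (i, k) f then 1 else 0) =
        ∑ j, ∑ l ∈ range (D.n j), if D.Cross (i, k) (j, l) then 1 else 0 := fun k =>
      D.sum_edges (fun f => if D.Cross (i, k) f then 1 else 0)
    simp only [this]
    rw [Finset.sum_comm]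
    apply Finset.sum_le_sum
    intro j _
    by_cases hij : i = j
    · rw [if_pos hij]; exact Nat.zero_le _
    · rw [if_neg hij, D.cv_t i j]
  have htot : D.totalCrossings = (E.filter fun p => D.Cross p.1 p.2 ∧ D.kind p.1 p.2 = Kind.above).card +
      (E.filter fun p => D.Cross p.1 p.2 ∧ D.kind p.1 p.2 = Kind.virt).card / 2 := by
    unfold Diagram.totalCrossings Diagram.classicalCrossings Diagram.virtualCrossings
    rfl
  omega

end Pool.Agent.Lib.MP_0a0e82_gt
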