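import Pool.Agent.Lib.MP_0a0e82_gt.SegDefs

set_option autoImplicit false
set_option linter.unusedSimpArgs false

namespace Pool.Agent.Lib.MP_0a0e82_gt

/-- membership in a closed segment, by coordinates -/
theorem sb_mem_seg_iff (a b p : Pt) : p ∈ segment ℝ a b ↔
    ∃ w : ℝ, 0 ≤ w ∧ w ≤ 1 ∧ p.1 = a.1 + w * (b.1 - a.1) ∧ p.2 = a.2 + w * (b.2 - a.2) := by
  rw [segment_eq_image']
  constructor
  · rintro ⟨w, ⟨h0, h1⟩, rfl⟩
    exact ⟨w, h0, h1, by simp, by simp⟩
  · rintro ⟨w, h0, h1, e1, e2⟩
    refine ⟨w, ⟨h0, h1⟩, ?_⟩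
    apply Prod.ext
    · simp [e1]
    · simp [e2]

/-- membership in an open segment, by coordinates -/
theorem sb_mem_oseg_iff (a b p : Pt) : p ∈ openSegment ℝ a b ↔
    ∃ w : ℝ, 0 < w ∧ w < 1 ∧ p.1 = a.1 + w * (b.1 - a.1) ∧ p.2 = a.2 + w * (b.2 - a.2) := by
  rw [openSegment_eq_image']
  constructor
  · rintro ⟨w, ⟨h0, h1⟩, rfl⟩
    exact ⟨w, h0, h1, by simp, by simp⟩
  · rintro ⟨w, h0, h1, e1, e2⟩
    refine ⟨w, ⟨h0, h1⟩, ?_⟩
    apply Prod.ext
    · simp [e1]
    · simp [e2]

theorem sb_seg_coord {a1 a2 b1 b2 x y : ℝ} (h : (x, y) ∉ segment ℝ ((a1, a2) : Pt) (b1, b2)) :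
    ∀ w : ℝ, 0 ≤ w → w ≤ 1 → x = a1 + w * (b1 - a1) → y ≠ a2 + w * (b2 - a2) := by
  intro w h0 h1 e1 e2
  apply h
  rw [sb_mem_seg_iff]
  exact ⟨w, h0, h1, e1, e2⟩

theorem sb_RR_lt {a1 a2 b1 b2 x y : ℝ} (hab : a1 < b1)
    (h : (x, y) ∉ segment ℝ ((a1, a2) : Pt) (b1, b2)) :
    Rp (x, y) ((a1, a2), (b1, b2)) + Rm (x, y) ((a1, a2), (b1, b2)) =
      lam (x, y) (a1, a2) + lam (x, y) (b1, b2) := by
  have h' := sb_seg_coord h
  have two : (1 : ZMod 2) + 1 = 0 := by decide
  unfold Rp Rm lam det2
  simp only [Prod.fst_sub, Prod.snd_sub]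
  rcases lt_trichotomy x a1 with hx | hx | hx
  · have e1 : ¬ a1 ≤ x := not_le.mpr hx
    have e2 : ¬ a1 < x := not_lt.mpr hx.le
    have e3 : ¬ b1 ≤ x := by linarith
    have e4 : ¬ b1 < x := by linarith
    have e5 : a1 ≠ x := hx.ne'
    have e6 : b1 ≠ x := by linarith
    simp [e1, e2, e3, e4, e5, e6]
  · subst hx
    have e3 : ¬ b1 ≤ x := by linarith
    have e4 : ¬ b1 < x := by linarith
    have e6 : b1 ≠ x := by linarith
    simp [hab, e3, e4, e6]
  · rcases lt_trichotomy x b1 with hx' | hx' | hx'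
    · have hD : (b1 - a1) * (y - a2) - (b2 - a2) * (x - a1) ≠ 0 := by
        intro hD
        have hp : 0 < b1 - a1 := by linarith
        refine h' ((x - a1) / (b1 - a1)) (div_nonneg (by linarith) hp.le) ?_ ?_ ?_
        · rw [div_le_one hp]
          linarith
        · field_simp
          ring
        · field_simp
          linarith
      have e1 : a1 ≤ x := hx.le
      have e2 : ¬ b1 ≤ x := by linarith
      have e3 : ¬ b1 < x := by linarith
      have e4 : b1 ≠ x := hx'.ne'
      have e5 : x ≤ b1 := hx'.le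
      have e6 : ¬ x < a1 := by linarith
      rcases lt_or_gt_of_ne hD with h1 | h1
      · have h2 : ¬ 0 < (b1 - a1) * (y - a2) - (b2 - a2) * (x - a1) := not_lt.mpr h1.le
        simp only [e1, hx', h2, e2, e3, e4, e5, e6, hx, h1, and_false, and_true, false_and,
          true_and, or_false, false_or, or_true, true_or, if_true, if_false, zero_add, add_zero]
      · have h2 : ¬ (b1 - a1) * (y - a2) - (b2 - a2) * (x - a1) < 0 := not_lt.mpr h1.le
        simp only [e1, hx', h2, e2, e3, e4, e5, e6, hx, h1, and_false, and_true, false_and,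
          true_and, or_false, false_or, or_true, true_or, if_true, if_false, zero_add, add_zero]
    · subst hx'
      have hD : (x - a1) * (y - a2) - (b2 - a2) * (x - a1) = (x - a1) * (y - b2) := by ring
      have hy : y ≠ b2 := by
        have h3 := h' 1 zero_le_one le_rfl (by ring)
        intro h4
        apply h3
        rw [h4]
        ring
      have hp : 0 < x - a1 := by linarith
      have e1 : a1 ≤ x := hx.le
      have e6 : ¬ x < a1 := by linarith
      have e7 : ¬ x ≤ a1 := by linarith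
      simp only [hD]
      rcases lt_or_gt_of_ne hy with h1 | h1
      · have h2 : (x - a1) * (y - b2) < 0 := mul_neg_of_pos_of_neg hp (by linarith)
        have h3 : ¬ 0 < (x - a1) * (y - b2) := not_lt.mpr h2.le
        have h4 : ¬ b2 < y := not_lt.mpr h1.le
        simp only [e1, h2, h3, h4, e6, e7, hx, and_false, and_true, false_and, lt_irrefl,
          true_and, or_false, false_or, or_true, true_or, if_true, if_false, zero_add, add_zero,
          le_refl]
      · have h2 : 0 < (x - a1) * (y - b2) := mul_pos hp (by linarith)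
        have h3 : ¬ (x - a1) * (y - b2) < 0 := not_lt.mpr h2.le
        simp only [e1, h1, h2, h3, e6, e7, hx, and_false, and_true, false_and, lt_irrefl,
          true_and, or_false, false_or, or_true, true_or, if_true, if_false, zero_add, add_zero,
          le_refl, two]
    · have e1 : ¬ x < b1 := by linarith
      have e2 : ¬ x ≤ b1 := by linarith
      have e3 : ¬ x < a1 := by linarith
      have e4 : ¬ x ≤ a1 := by linarith
      simp only [e1, e2, e3, e4, hx, hx', and_false, and_true, false_and, true_and, or_false,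
        false_or, or_true, true_or, if_true, if_false, zero_add, add_zero, two]

theorem sb_RR_eq {a1 a2 b2 x y : ℝ} (h : (x, y) ∉ segment ℝ ((a1, a2) : Pt) (a1, b2)) :
    Rp (x, y) ((a1, a2), (a1, b2)) + Rm (x, y) ((a1, a2), (a1, b2)) =
      lam (x, y) (a1, a2) + lam (x, y) (a1, b2) := by
  have h' := sb_seg_coord h
  have two : (1 : ZMod 2) + 1 = 0 := by decide
  have e0 : ∀ z : ZMod 2, z + z = 0 := by decide
  have hR : Rp (x, y) ((a1, a2), (a1, b2)) = 0 := by
    unfold Rp
    rw [if_neg]
    simp only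
    rintro (⟨h1, h2, _⟩ | ⟨h1, h2, _⟩) <;> linarith
  have hM : Rm (x, y) ((a1, a2), (a1, b2)) = 0 := by
    unfold Rm
    rw [if_neg]
    simp only
    rintro (⟨h1, h2, _⟩ | ⟨h1, h2, _⟩) <;> linarith
  rw [hR, hM]
  have key : lam (x, y) (a1, a2) = lam (x, y) (a1, b2) := by
    unfold lam
    simp only
    by_cases hx : a1 = x
    · subst hx
      have h1 : a2 < y ↔ b2 < y := by
        have hb : ∀ w : ℝ, 0 ≤ w → w ≤ 1 → y ≠ a2 + w * (b2 - a2) := fun w h0 h1 =>
          h' w h0 h1 (by ring)
        by_contra hne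
        rcases lt_trichotomy a2 b2 with h2 | h2 | h2
        · have h3 : a2 < y ∧ y ≤ b2 := by
            constructor
            · by_contra h4
              exact hne ⟨fun h5 => absurd h5 h4, fun h5 => by linarith⟩
            · by_contra h4
              exact hne ⟨fun _ => by linarith, fun _ => by linarith⟩
          have hp : 0 < b2 - a2 := by linarith
          refine hb ((y - a2) / (b2 - a2)) (div_nonneg (by linarith) hp.le) ?_ ?_
          · rw [div_le_one hp]
            linarith
          · field_simp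
            ring
        · subst h2
          exact hne Iff.rfl
        · have h3 : b2 < y ∧ y ≤ a2 := by
            constructor
            · by_contra h4
              exact hne ⟨fun h5 => by linarith, fun h5 => absurd h5 h4⟩
            · by_contra h4
              exact hne ⟨fun _ => by linarith, fun _ => by linarith⟩
          have hp : 0 < a2 - b2 := by linarith
          refine hb ((a2 - y) / (a2 - b2)) (div_nonneg (by linarith) hp.le) ?_ ?_
          · rw [div_le_one hp]
            linarith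
          · field_simp
            ring
      simp only [h1]
    · simp only [hx, false_and, or_false]
  rw [key, e0, e0]

theorem sb_Rp_swap (p : Pt) (a b : Pt) : Rp p (a, b) = Rp p (b, a) := by
  have e : det2 (a - b) (p - b) = -det2 (b - a) (p - a) := by
    unfold det2
    simp only [Prod.fst_sub, Prod.snd_sub]
    ring
  unfold Rp
  simp only [e, neg_lt_zero, neg_pos]
  simp only [or_comm]

theorem sb_Rm_swap (p : Pt) (a b : Pt) : Rm p (a, b) = Rm p (b, a) := by
  have e : det2 (a - b) (p - b) = -det2 (b - a) (p - a) := by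
    unfold det2
    simp only [Prod.fst_sub, Prod.snd_sub]
    ring
  unfold Rm
  simp only [e, neg_lt_zero, neg_pos]
  simp only [or_comm]

theorem Rp_add_Rm (p : Pt) (t : Seg) (h : p ∉ t.set) : Rp p t + Rm p t = lam p t.1 + lam p t.2 := by
  obtain ⟨⟨a1, a2⟩, ⟨b1, b2⟩⟩ := t
  obtain ⟨x, y⟩ := p
  have h2 : (x, y) ∉ segment ℝ ((a1, a2) : Pt) (b1, b2) := h
  rcases lt_trichotomy a1 b1 with hab | hab | hab
  · exact sb_RR_lt hab h2
  · subst hab
    exact sb_RR_eq h2
  · rw [segment_symm] at h2
    have h3 := sb_RR_lt hab h2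
    rw [sb_Rp_swap, sb_Rm_swap, h3, add_comm]

theorem lam_add (p q : Pt) (h : p ≠ q) : lam p q + lam q p = 1 := by
  obtain ⟨x, y⟩ := p
  obtain ⟨u, v⟩ := q
  unfold lam
  simp only
  rcases lt_trichotomy x u with hx | hx | hx
  · have e1 : ¬ u < x := by linarith
    have e2 : u ≠ x := hx.ne'
    simp [hx, e1, e2]
  · subst hx
    rcases lt_trichotomy y v with hy | hy | hy
    · simp [hy, not_lt.mpr hy.le]
    · subst hy
      exact absurd rfl h
    · simp [hy, not_lt.mpr hy.le]
  · have e1 : ¬ x < u := by linarith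
    have e2 : x ≠ u := hx.ne'
    simp [hx, e1, e2]

/-- two non-parallel lines have at most one common point -/
theorem sb_par_unique {a b c d : Pt} (h : det2 (b - a) (d - c) ≠ 0) {u v u' v' : ℝ}
    (e1 : a.1 + u * (b.1 - a.1) = c.1 + v * (d.1 - c.1))
    (e2 : a.2 + u * (b.2 - a.2) = c.2 + v * (d.2 - c.2))
    (e3 : a.1 + u' * (b.1 - a.1) = c.1 + v' * (d.1 - c.1))
    (e4 : a.2 + u' * (b.2 - a.2) = c.2 + v' * (d.2 - c.2)) : u = u' := by
  unfold det2 at h
  simp only [Prod.fst_sub, Prod.snd_sub] at h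
  have h1 : (u - u') * ((b.1 - a.1) * (d.2 - c.2) - (b.2 - a.2) * (d.1 - c.1)) = 0 := by
    linear_combination (d.2 - c.2) * (e1 - e3) - (d.1 - c.1) * (e2 - e4)
  rcases mul_eq_zero.mp h1 with h2 | h2
  · linarith
  · exact absurd h2 h

/-- a crossing of `[a,b]` with `t` is inherited by exactly one half of `[a,b]` when `[a,b]` is cut at
a point `q` not on `t` -/
theorem cross_split (a b q : Pt) (t : Seg) (h : Sc (a, b) t) (hq : q ∈ segment ℝ a b)
    (hqt : q ∉ t.set) :
    (Sc (a, q) t ∧ Dj (q, b) t) ∨ (Dj (a, q) t ∧ Sc (q, b) t) := by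
  obtain ⟨c, d⟩ := t
  obtain ⟨hdet, p, hp1, hp2⟩ := h
  simp only at hdet hp1 hp2
  rw [sb_mem_oseg_iff] at hp1 hp2
  rw [sb_mem_seg_iff] at hq
  obtain ⟨u, u0, u1, pu1, pu2⟩ := hp1
  obtain ⟨v, v0, v1, pv1, pv2⟩ := hp2
  obtain ⟨w, w0, w1, qw1, qw2⟩ := hq
  have huw : w ≠ u := by
    rintro rfl
    apply hqt
    show q ∈ segment ℝ c d
    rw [sb_mem_seg_iff]
    exact ⟨v, v0.le, v1.le, by rw [qw1, ← pu1, pv1], by rw [qw2, ← pu2, pv2]⟩
  have hdet' := hdet
  unfold det2 at hdet'
  simp only [Prod.fst_sub, Prod.snd_sub] at hdet'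
  rcases lt_or_gt_of_ne huw with hlt | hlt
  · right
    constructor
    · show Disjoint (segment ℝ a q) (segment ℝ c d)
      rw [Set.disjoint_left]
      intro z hz1 hz2
      rw [sb_mem_seg_iff] at hz1 hz2
      obtain ⟨s, s0, s1, zs1, zs2⟩ := hz1
      obtain ⟨v', v0', v1', zv1, zv2⟩ := hz2
      have h1 : u = s * w := sb_par_unique hdet (by rw [← pu1, pv1]) (by rw [← pu2, pv2])
        (v' := v') (by rw [← zv1, zs1, qw1]; ring) (by rw [← zv2, zs2, qw2]; ring)
      nlinarith
    · refine ⟨?_, p, ?_, ?_⟩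
      · show det2 (b - q) (d - c) ≠ 0
        unfold det2
        simp only [Prod.fst_sub, Prod.snd_sub]
        have h1 : (b.1 - q.1) * (d.2 - c.2) - (b.2 - q.2) * (d.1 - c.1) =
            (1 - w) * ((b.1 - a.1) * (d.2 - c.2) - (b.2 - a.2) * (d.1 - c.1)) := by
          rw [qw1, qw2]
          ring
        rw [h1]
        exact mul_ne_zero (by linarith) hdet'
      · show p ∈ openSegment ℝ q b
        rw [sb_mem_oseg_iff]
        have hw : 0 < 1 - w := by linarith
        refine ⟨(u - w) / (1 - w), div_pos (by linarith) hw, ?_, ?_, ?_⟩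
        · rw [div_lt_one hw]
          linarith
        · rw [pu1, qw1]
          field_simp
          ring
        · rw [pu2, qw2]
          field_simp
          ring
      · show p ∈ openSegment ℝ c d
        rw [sb_mem_oseg_iff]
        exact ⟨v, v0, v1, pv1, pv2⟩
  · left
    constructor
    · refine ⟨?_, p, ?_, ?_⟩
      · show det2 (q - a) (d - c) ≠ 0
        unfold det2
        simp only [Prod.fst_sub, Prod.snd_sub]
        have h1 : (q.1 - a.1) * (d.2 - c.2) - (q.2 - a.2) * (d.1 - c.1) =
            w * ((b.1 - a.1) * (d.2 - c.2) - (b.2 - a.2) * (d.1 - c.1)) := by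
          rw [qw1, qw2]
          ring
        rw [h1]
        exact mul_ne_zero (by linarith) hdet'
      · show p ∈ openSegment ℝ a q
        rw [sb_mem_oseg_iff]
        have hw : 0 < w := by linarith
        refine ⟨u / w, div_pos u0 hw, ?_, ?_, ?_⟩
        · rw [div_lt_one hw]
          linarith
        · rw [pu1, qw1]
          field_simp
          ring
        · rw [pu2, qw2]
          field_simp
          ring
      · show p ∈ openSegment ℝ c d
        rw [sb_mem_oseg_iff]
        exact ⟨v, v0, v1, pv1, pv2⟩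
    · show Disjoint (segment ℝ q b) (segment ℝ c d)
      rw [Set.disjoint_left]
      intro z hz1 hz2
      rw [sb_mem_seg_iff] at hz1 hz2
      obtain ⟨s, s0, s1, zs1, zs2⟩ := hz1
      obtain ⟨v', v0', v1', zv1, zv2⟩ := hz2
      have h1 : u = w + s * (1 - w) := sb_par_unique hdet (by rw [← pu1, pv1]) (by rw [← pu2, pv2])
        (v' := v') (by rw [← zv1, zs1, qw1]; ring) (by rw [← zv2, zs2, qw2]; ring)
      nlinarith [mul_nonneg s0 (sub_nonneg.mpr w1)]

theorem Sc.symm {s t : Seg} (h : Sc s t) : Sc t s := by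
  obtain ⟨h1, p, h2, h3⟩ := h
  refine ⟨?_, p, h3, h2⟩
  have e : det2 (t.2 - t.1) (s.2 - s.1) = -det2 (s.2 - s.1) (t.2 - t.1) := by
    unfold det2
    ring
  rw [e]
  exact neg_ne_zero.mpr h1

theorem Sc.not_dj {s t : Seg} (h : Sc s t) : ¬ Dj s t := by
  obtain ⟨h1, p, h2, h3⟩ := h
  intro h4
  exact Set.disjoint_left.mp h4 (openSegment_subset_segment ℝ _ _ h2)
    (openSegment_subset_segment ℝ _ _ h3)

end Pool.Agent.Lib.MP_0a0e82_gt
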