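import Pool.Agent.Lib.MP_0a0e82_gt.SegA
import Pool.Agent.Lib.MP_0a0e82_gt.SegB

set_option autoImplicit false

namespace Pool.Agent.Lib.MP_0a0e82_gt

/-- the list of segments `l` has boundary `u + w` modulo 2 -/
def Bd (l : List Seg) (u w : Pt) : Prop :=
  ∀ φ : Pt → ZMod 2, (l.map fun s => φ s.1 + φ s.2).sum = φ u + φ w

/-- support of a list of segments -/
def supp (l : List Seg) : Set Pt := {p | ∃ s ∈ l, p ∈ s.set}

/-- `p` and `q` are joined inside `S` by a polygonal chain modulo 2 -/
def Conn (S : Set Pt) (p q : Pt) : Prop := ∃ l : List Seg, Bd l p q ∧ supp l ⊆ S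

lemma two_self (a : ZMod 2) : a + a = 0 := CharTwo.add_self_eq_zero a

lemma supp_append (l l' : List Seg) : supp (l ++ l') = supp l ∪ supp l' := by
  ext p
  simp only [supp, Set.mem_ofPred_eq, List.mem_append, Set.mem_union]
  constructor
  · rintro ⟨s, hs | hs, h⟩
    · exact Or.inl ⟨s, hs, h⟩
    · exact Or.inr ⟨s, hs, h⟩
  · rintro (⟨s, hs, h⟩ | ⟨s, hs, h⟩)
    · exact ⟨s, Or.inl hs, h⟩
    · exact ⟨s, Or.inr hs, h⟩

lemma Bd.append {l l' : List Seg} {u v w : Pt} (h : Bd l u v) (h' : Bd l' v w) :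
    Bd (l ++ l') u w := by
  intro φ
  rw [List.map_append, List.sum_append, h φ, h' φ]
  have := two_self (φ v)
  linear_combination this

lemma Bd.symm {l : List Seg} {u v : Pt} (h : Bd l u v) : Bd l v u := by
  intro φ; rw [h φ, add_comm]

lemma Conn.refl (S : Set Pt) (p : Pt) : Conn S p p :=
  ⟨[], fun φ => by simp [two_self], by intro x hx; obtain ⟨s, hs, _⟩ := hx; simp at hs⟩

lemma Conn.symm {S : Set Pt} {p q : Pt} (h : Conn S p q) : Conn S q p := by
  obtain ⟨l, h1, h2⟩ := h
  exact ⟨l, h1.symm, h2⟩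

lemma Conn.trans {S : Set Pt} {p q r : Pt} (h : Conn S p q) (h' : Conn S q r) : Conn S p r := by
  obtain ⟨l, h1, h2⟩ := h
  obtain ⟨l', h1', h2'⟩ := h'
  refine ⟨l ++ l', h1.append h1', ?_⟩
  rw [supp_append]
  exact Set.union_subset h2 h2'

lemma Conn.mono {S S' : Set Pt} {p q : Pt} (h : Conn S p q) (hs : S ⊆ S') : Conn S' p q := by
  obtain ⟨l, h1, h2⟩ := h
  exact ⟨l, h1, h2.trans hs⟩

/-! ### crossing parity of lists -/

/-- crossing parity of two lists of segments -/
noncomputable def XL (l l' : List Seg) : ZMod 2 := (l.map fun s => (l'.map fun t => X s t).sum).sum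

noncomputable def RpL (p : Pt) (l : List Seg) : ZMod 2 := (l.map fun t => Rp p t).sum
noncomputable def RmL (p : Pt) (l : List Seg) : ZMod 2 := (l.map fun t => Rm p t).sum

lemma sum_map_add' {α : Type} (l : List α) (f g : α → ZMod 2) :
    (l.map fun s => f s + g s).sum = (l.map f).sum + (l.map g).sum := by
  induction l with
  | nil => simp
  | cons a l ih => simp only [List.map_cons, List.sum_cons, ih]; ring

lemma sum_comm' {α β : Type} (l : List α) (l' : List β) (f : α → β → ZMod 2) :
    (l.map fun s => (l'.map fun t => f s t).sum).sum = (l'.map fun t => (l.map fun s => f s t).sum).sum := by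
  induction l with
  | nil => simp
  | cons a l ih =>
    simp only [List.map_cons, List.sum_cons, ih]
    rw [sum_map_add']

lemma XL_eq {l l' : List Seg} {u w u' w' : Pt} (h : Bd l u w) (h' : Bd l' u' w') :
    XL l l' = RpL u l' + RpL w l' + (RmL u' l + RmL w' l) := by
  have e1 : ∀ s : Seg, (l'.map fun t => X s t).sum =
      (l'.map fun t => Rp s.1 t + Rp s.2 t).sum + (Rm u' s + Rm w' s) := by
    intro s
    have : (fun t => X s t) = fun t : Seg => (Rp s.1 t + Rp s.2 t) + (Rm t.1 s + Rm t.2 s) := by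
      funext t; simp only [X]; ring
    rw [this, sum_map_add', h' (fun p => Rm p s)]
  unfold XL
  simp only [e1]
  rw [sum_map_add', sum_map_add' l (fun s => Rm u' s) (fun s => Rm w' s)]
  rw [sum_comm']
  have e2 : ∀ t : Seg, (l.map fun s => Rp s.1 t + Rp s.2 t).sum = Rp u t + Rp w t :=
    fun t => h (fun p => Rp p t)
  simp only [e2]
  rw [sum_map_add' l' (fun t => Rp u t) (fun t => Rp w t)]
  rfl

lemma XL_zero_of_disj {l l' : List Seg} (h : Disjoint (supp l) (supp l')) : XL l l' = 0 := by
  unfold XL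
  have : ∀ s ∈ l, (l'.map fun t => X s t).sum = 0 := by
    intro s hs
    apply List.sum_eq_zero
    intro x hx
    obtain ⟨t, ht, rfl⟩ := List.mem_map.1 hx
    apply X_of_disj
    refine Set.disjoint_left.2 fun p hp hp' => ?_
    exact Set.disjoint_left.1 h ⟨s, hs, hp⟩ ⟨t, ht, hp'⟩
  apply List.sum_eq_zero
  intro x hx
  obtain ⟨s, hs, rfl⟩ := List.mem_map.1 hx
  exact this s hs

lemma RpL_add_RmL {l : List Seg} {u w : Pt} (h : Bd l u w) (p : Pt) (hp : p ∉ supp l) :
    RpL p l + RmL p l = lam p u + lam p w := by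
  unfold RpL RmL
  rw [← sum_map_add', ← h (fun z => lam p z)]
  congr 1
  apply List.map_congr_left
  intro t ht
  exact Rp_add_Rm p t fun hpt => hp ⟨t, ht, hpt⟩

/-- the nonplanarity of `K₃,₃`, in its polygonal form -/
theorem K33 (A B : Fin 3 → Pt) (S : Fin 3 → Fin 3 → Set Pt)
    (hc : ∀ i j, Conn (S i j) (A i) (B j)) (hB : ∀ i j, B j ∈ S i j)
    (hd : ∀ i k j l, i < k → j ≠ l → Disjoint (S i j) (S k l)) : False := by
  choose P hP hPS using hc
  have key : ∀ i k j l, i < k → j ≠ l → RpL (A i) (P k l) + RpL (B j) (P k l) +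
      (RmL (A k) (P i j) + RmL (B l) (P i j)) = 0 := by
    intro i k j l hik hjl
    rw [← XL_eq (hP i j) (hP k l)]
    exact XL_zero_of_disj ((hd i k j l hik hjl).mono (hPS i j) (hPS k l))
  have key2 : ∀ j l, j ≠ l → RpL (B j) (P 1 l) + RmL (B j) (P 1 l) =
      lam (B j) (A 1) + lam (B j) (B l) := by
    intro j l hjl
    apply RpL_add_RmL (hP 1 l)
    intro h
    exact Set.disjoint_left.1 (hd 0 1 j l (by decide) hjl) (hB 0 j) (hPS 1 l h)
  have key3 : ∀ j l, j ≠ l → lam (B j) (B l) + lam (B l) (B j) = 1 := by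
    intro j l hjl
    apply lam_add
    intro h
    exact Set.disjoint_left.1 (hd 0 1 j l (by decide) hjl) (hB 0 j) (h ▸ hB 1 l)
  have h2 : (2 : ZMod 2) = 0 := rfl
  have : (0 : ZMod 2) = 1 := by
    linear_combination (norm := (ring_nf; reduce_mod_char)) key 0 1 0 1 (by decide) (by decide) +
      key 0 1 0 2 (by decide) (by decide) +
      key 0 1 1 0 (by decide) (by decide) +
      key 0 1 1 2 (by decide) (by decide) +
      key 0 1 2 0 (by decide) (by decide) +
      key 0 1 2 1 (by decide) (by decide) +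
      key 0 2 0 1 (by decide) (by decide) +
      key 0 2 0 2 (by decide) (by decide) +
      key 0 2 1 0 (by decide) (by decide) +
      key 0 2 1 2 (by decide) (by decide) +
      key 0 2 2 0 (by decide) (by decide) +
      key 0 2 2 1 (by decide) (by decide) +
      key 1 2 0 1 (by decide) (by decide) +
      key 1 2 0 2 (by decide) (by decide) +
      key 1 2 1 0 (by decide) (by decide) +
      key 1 2 1 2 (by decide) (by decide) +
      key 1 2 2 0 (by decide) (by decide) +
      key 1 2 2 1 (by decide) (by decide) +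
      key2 0 1 (by decide) +
      key2 0 2 (by decide) +
      key2 1 0 (by decide) +
      key2 1 2 (by decide) +
      key2 2 0 (by decide) +
      key2 2 1 (by decide) +
      key3 0 1 (by decide) +
      key3 0 2 (by decide) +
      key3 1 2 (by decide)
  exact absurd this (by decide)

end Pool.Agent.Lib.MP_0a0e82_gt
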