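import Pool.Agent.Lib.MP_0a0e82_gt.Data

/-!
# Gauss codes of the two diagrams (literal) and crossing counts
-/

set_option autoImplicit false
set_option maxRecDepth 100000

namespace Pool.Agent.Lib.MP_0a0e82_gt


/-- words of the components other than 44, 45, 46, 47 -/
def baseWords : List (List Pass) := [
  [⟨2900, false, true⟩, ⟨2899, false, true⟩, ⟨2898, false, true⟩, ⟨2897, false, true⟩, ⟨2896, true, true⟩,
   ⟨2895, true, true⟩, ⟨2894, true, true⟩, ⟨2893, true, true⟩, ⟨2883, false, true⟩, ⟨2882, false, true⟩,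
   ⟨2881, false, true⟩, ⟨2880, false, true⟩, ⟨2877, true, true⟩, ⟨2876, true, true⟩, ⟨2875, true, true⟩,
   ⟨2874, true, true⟩, ⟨2859, false, true⟩, ⟨2858, false, true⟩, ⟨2857, false, true⟩, ⟨2856, false, true⟩,
   ⟨2855, true, true⟩, ⟨2854, true, true⟩, ⟨2853, true, true⟩, ⟨2852, true, true⟩, ⟨2837, false, true⟩,
   ⟨2836, false, true⟩, ⟨2835, false, true⟩, ⟨2834, false, true⟩, ⟨2831, true, true⟩, ⟨2830, true, true⟩,
   ⟨2829, true, true⟩, ⟨2828, true, true⟩, ⟨2822, false, true⟩, ⟨2821, false, true⟩, ⟨2820, false, true⟩,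
   ⟨2819, false, true⟩, ⟨2818, true, true⟩, ⟨2817, true, true⟩, ⟨2816, true, true⟩, ⟨2815, true, true⟩],
  [⟨2796, false, true⟩, ⟨2795, false, true⟩, ⟨2794, false, true⟩, ⟨2793, false, true⟩, ⟨2792, true, true⟩,
   ⟨2791, true, true⟩, ⟨2790, true, true⟩, ⟨2789, true, true⟩, ⟨2779, false, true⟩, ⟨2778, false, true⟩,
   ⟨2777, false, true⟩, ⟨2776, false, true⟩, ⟨2773, true, true⟩, ⟨2772, true, true⟩, ⟨2771, true, true⟩,
   ⟨2770, true, true⟩, ⟨2755, false, true⟩, ⟨2754, false, true⟩, ⟨2753, false, true⟩, ⟨2752, false, true⟩,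
   ⟨2751, true, true⟩, ⟨2750, true, true⟩, ⟨2749, true, true⟩, ⟨2748, true, true⟩, ⟨2733, false, true⟩,
   ⟨2732, false, true⟩, ⟨2731, false, true⟩, ⟨2730, false, true⟩, ⟨2727, true, true⟩, ⟨2726, true, true⟩,
   ⟨2725, true, true⟩, ⟨2724, true, true⟩, ⟨2718, false, true⟩, ⟨2717, false, true⟩, ⟨2716, false, true⟩,
   ⟨2715, false, true⟩, ⟨2714, true, true⟩, ⟨2713, true, true⟩, ⟨2712, true, true⟩, ⟨2711, true, true⟩],
  [⟨2692, false, true⟩, ⟨2691, false, true⟩, ⟨2690, false, true⟩, ⟨2689, false, true⟩, ⟨2688, true, true⟩,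
   ⟨2687, true, true⟩, ⟨2686, true, true⟩, ⟨2685, true, true⟩, ⟨2675, false, true⟩, ⟨2674, false, true⟩,
   ⟨2673, false, true⟩, ⟨2672, false, true⟩, ⟨2669, true, true⟩, ⟨2668, true, true⟩, ⟨2667, true, true⟩,
   ⟨2666, true, true⟩, ⟨2651, false, true⟩, ⟨2650, false, true⟩, ⟨2649, false, true⟩, ⟨2648, false, true⟩,
   ⟨2647, true, true⟩, ⟨2646, true, true⟩, ⟨2645, true, true⟩, ⟨2644, true, true⟩, ⟨2629, false, true⟩,
   ⟨2628, false, true⟩, ⟨2627, false, true⟩, ⟨2626, false, true⟩, ⟨2623, true, true⟩, ⟨2622, true, true⟩,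
   ⟨2621, true, true⟩, ⟨2620, true, true⟩, ⟨2614, false, true⟩, ⟨2613, false, true⟩, ⟨2612, false, true⟩,
   ⟨2611, false, true⟩, ⟨2610, true, true⟩, ⟨2609, true, true⟩, ⟨2608, true, true⟩, ⟨2607, true, true⟩],
  [⟨2588, false, true⟩, ⟨2587, false, true⟩, ⟨2586, false, true⟩, ⟨2585, false, true⟩, ⟨2584, true, true⟩,
   ⟨2583, true, true⟩, ⟨2582, true, true⟩, ⟨2581, true, true⟩, ⟨2571, false, true⟩, ⟨2570, false, true⟩,
   ⟨2569, false, true⟩, ⟨2568, false, true⟩, ⟨2565, true, true⟩, ⟨2564, true, true⟩, ⟨2563, true, true⟩,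
   ⟨2562, true, true⟩, ⟨2547, false, true⟩, ⟨2546, false, true⟩, ⟨2545, false, true⟩, ⟨2544, false, true⟩,
   ⟨2543, true, true⟩, ⟨2542, true, true⟩, ⟨2541, true, true⟩, ⟨2540, true, true⟩, ⟨2525, false, true⟩,
   ⟨2524, false, true⟩, ⟨2523, false, true⟩, ⟨2522, false, true⟩, ⟨2519, true, true⟩, ⟨2518, true, true⟩,
   ⟨2517, true, true⟩, ⟨2516, true, true⟩, ⟨2510, false, true⟩, ⟨2509, false, true⟩, ⟨2508, false, true⟩,
   ⟨2507, false, true⟩, ⟨2506, true, true⟩, ⟨2505, true, true⟩, ⟨2504, true, true⟩, ⟨2503, true, true⟩],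
  [⟨4388, false, true⟩, ⟨4389, false, true⟩, ⟨4390, false, true⟩, ⟨4391, false, true⟩, ⟨4394, true, true⟩,
   ⟨4395, true, true⟩, ⟨4396, true, true⟩, ⟨4397, true, true⟩, ⟨7317, false, true⟩, ⟨7421, false, true⟩,
   ⟨7525, false, true⟩, ⟨7629, false, true⟩, ⟨7837, true, true⟩, ⟨7941, true, true⟩, ⟨8045, true, true⟩,
   ⟨8149, true, true⟩, ⟨9167, true, true⟩, ⟨8959, true, true⟩, ⟨8335, true, true⟩],
  [⟨4700, false, true⟩, ⟨4701, false, true⟩, ⟨4702, false, true⟩, ⟨4703, false, true⟩, ⟨4706, true, true⟩,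
   ⟨4707, true, true⟩, ⟨4708, true, true⟩, ⟨4709, true, true⟩, ⟨7316, false, true⟩, ⟨7420, false, true⟩,
   ⟨7524, false, true⟩, ⟨7628, false, true⟩, ⟨7836, true, true⟩, ⟨7940, true, true⟩, ⟨8044, true, true⟩,
   ⟨8148, true, true⟩, ⟨9168, true, true⟩, ⟨8960, true, true⟩, ⟨8336, true, true⟩],
  [⟨5012, false, true⟩, ⟨5013, false, true⟩, ⟨5014, false, true⟩, ⟨5015, false, true⟩, ⟨5018, true, true⟩,
   ⟨5019, true, true⟩, ⟨5020, true, true⟩, ⟨5021, true, true⟩, ⟨7315, false, true⟩, ⟨7419, false, true⟩,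
   ⟨7523, false, true⟩, ⟨7627, false, true⟩, ⟨7835, true, true⟩, ⟨7939, true, true⟩, ⟨8043, true, true⟩,
   ⟨8147, true, true⟩, ⟨9169, true, true⟩, ⟨8961, true, true⟩, ⟨8337, true, true⟩],
  [⟨5324, false, true⟩, ⟨5325, false, true⟩, ⟨5326, false, true⟩, ⟨5327, false, true⟩, ⟨5330, true, true⟩,
   ⟨5331, true, true⟩, ⟨5332, true, true⟩, ⟨5333, true, true⟩, ⟨7314, false, true⟩, ⟨7418, false, true⟩,
   ⟨7522, false, true⟩, ⟨7626, false, true⟩, ⟨7834, true, true⟩, ⟨7938, true, true⟩, ⟨8042, true, true⟩,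
   ⟨8146, true, true⟩, ⟨9170, true, true⟩, ⟨8962, true, true⟩, ⟨8338, true, true⟩],
  [⟨4538, false, true⟩, ⟨4539, false, true⟩, ⟨4540, false, true⟩, ⟨4541, false, true⟩, ⟨4544, true, true⟩,
   ⟨4545, true, true⟩, ⟨4546, true, true⟩, ⟨4547, true, true⟩, ⟨8504, false, true⟩, ⟨9128, false, true⟩,
   ⟨9336, false, true⟩, ⟨8170, false, true⟩, ⟨8066, false, true⟩, ⟨7962, false, true⟩, ⟨7858, false, true⟩,
   ⟨7650, true, true⟩, ⟨7546, true, true⟩, ⟨7442, true, true⟩, ⟨7338, true, true⟩],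
  [⟨4850, false, true⟩, ⟨4851, false, true⟩, ⟨4852, false, true⟩, ⟨4853, false, true⟩, ⟨4856, true, true⟩,
   ⟨4857, true, true⟩, ⟨4858, true, true⟩, ⟨4859, true, true⟩, ⟨8503, false, true⟩, ⟨9127, false, true⟩,
   ⟨9335, false, true⟩, ⟨8171, false, true⟩, ⟨8067, false, true⟩, ⟨7963, false, true⟩, ⟨7859, false, true⟩,
   ⟨7651, true, true⟩, ⟨7547, true, true⟩, ⟨7443, true, true⟩, ⟨7339, true, true⟩],
  [⟨5162, false, true⟩, ⟨5163, false, true⟩, ⟨5164, false, true⟩, ⟨5165, false, true⟩, ⟨5168, true, true⟩,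
   ⟨5169, true, true⟩, ⟨5170, true, true⟩, ⟨5171, true, true⟩, ⟨8502, false, true⟩, ⟨9126, false, true⟩,
   ⟨9334, false, true⟩, ⟨8172, false, true⟩, ⟨8068, false, true⟩, ⟨7964, false, true⟩, ⟨7860, false, true⟩,
   ⟨7652, true, true⟩, ⟨7548, true, true⟩, ⟨7444, true, true⟩, ⟨7340, true, true⟩],
  [⟨5474, false, true⟩, ⟨5475, false, true⟩, ⟨5476, false, true⟩, ⟨5477, false, true⟩, ⟨5480, true, true⟩,
   ⟨5481, true, true⟩, ⟨5482, true, true⟩, ⟨5483, true, true⟩, ⟨8501, false, true⟩, ⟨9125, false, true⟩,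
   ⟨9333, false, true⟩, ⟨8173, false, true⟩, ⟨8069, false, true⟩, ⟨7965, false, true⟩, ⟨7861, false, true⟩,
   ⟨7653, true, true⟩, ⟨7549, true, true⟩, ⟨7445, true, true⟩, ⟨7341, true, true⟩],
  [⟨4661, false, true⟩, ⟨4662, false, true⟩, ⟨4663, false, true⟩, ⟨4664, false, true⟩, ⟨4665, true, true⟩,
   ⟨4666, true, true⟩, ⟨4667, true, true⟩, ⟨4668, true, true⟩, ⟨8520, false, true⟩, ⟨9144, false, true⟩,
   ⟨9352, false, true⟩, ⟨9337, true, true⟩, ⟨9129, true, true⟩, ⟨8505, true, true⟩],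
  [⟨4973, false, true⟩, ⟨4974, false, true⟩, ⟨4975, false, true⟩, ⟨4976, false, true⟩, ⟨4977, true, true⟩,
   ⟨4978, true, true⟩, ⟨4979, true, true⟩, ⟨4980, true, true⟩, ⟨8519, false, true⟩, ⟨9143, false, true⟩,
   ⟨9351, false, true⟩, ⟨9338, true, true⟩, ⟨9130, true, true⟩, ⟨8506, true, true⟩],
  [⟨5285, false, true⟩, ⟨5286, false, true⟩, ⟨5287, false, true⟩, ⟨5288, false, true⟩, ⟨5289, true, true⟩,
   ⟨5290, true, true⟩, ⟨5291, true, true⟩, ⟨5292, true, true⟩, ⟨8518, false, true⟩, ⟨9142, false, true⟩,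
   ⟨9350, false, true⟩, ⟨9339, true, true⟩, ⟨9131, true, true⟩, ⟨8507, true, true⟩],
  [⟨5597, false, true⟩, ⟨5598, false, true⟩, ⟨5599, false, true⟩, ⟨5600, false, true⟩, ⟨5601, true, true⟩,
   ⟨5602, true, true⟩, ⟨5603, true, true⟩, ⟨5604, true, true⟩, ⟨8517, false, true⟩, ⟨9141, false, true⟩,
   ⟨9349, false, true⟩, ⟨9340, true, true⟩, ⟨9132, true, true⟩, ⟨8508, true, true⟩],
  [⟨7314, true, true⟩, ⟨7315, true, true⟩, ⟨7316, true, true⟩, ⟨7317, true, true⟩, ⟨7332, false, true⟩,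
   ⟨7333, true, true⟩, ⟨7338, false, true⟩, ⟨7339, false, true⟩, ⟨7340, false, true⟩, ⟨7341, false, true⟩,
   ⟨8173, true, true⟩, ⟨8172, true, true⟩, ⟨8171, true, true⟩, ⟨8170, true, true⟩, ⟨8149, false, true⟩,
   ⟨8148, false, true⟩, ⟨8147, false, true⟩, ⟨8146, false, true⟩],
  [⟨7418, true, true⟩, ⟨7419, true, true⟩, ⟨7420, true, true⟩, ⟨7421, true, true⟩, ⟨7436, false, true⟩,
   ⟨7437, true, true⟩, ⟨7442, false, true⟩, ⟨7443, false, true⟩, ⟨7444, false, true⟩, ⟨7445, false, true⟩,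
   ⟨8069, true, true⟩, ⟨8068, true, true⟩, ⟨8067, true, true⟩, ⟨8066, true, true⟩, ⟨8045, false, true⟩,
   ⟨8044, false, true⟩, ⟨8043, false, true⟩, ⟨8042, false, true⟩],
  [⟨7522, true, true⟩, ⟨7523, true, true⟩, ⟨7524, true, true⟩, ⟨7525, true, true⟩, ⟨7540, false, true⟩,
   ⟨7541, true, true⟩, ⟨7546, false, true⟩, ⟨7547, false, true⟩, ⟨7548, false, true⟩, ⟨7549, false, true⟩,
   ⟨7965, true, true⟩, ⟨7964, true, true⟩, ⟨7963, true, true⟩, ⟨7962, true, true⟩, ⟨7941, false, true⟩,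
   ⟨7940, false, true⟩, ⟨7939, false, true⟩, ⟨7938, false, true⟩],
  [⟨7626, true, true⟩, ⟨7627, true, true⟩, ⟨7628, true, true⟩, ⟨7629, true, true⟩, ⟨7644, false, true⟩,
   ⟨7645, true, true⟩, ⟨7650, false, true⟩, ⟨7651, false, true⟩, ⟨7652, false, true⟩, ⟨7653, false, true⟩,
   ⟨7861, true, true⟩, ⟨7860, true, true⟩, ⟨7859, true, true⟩, ⟨7858, true, true⟩, ⟨7837, false, true⟩,
   ⟨7836, false, true⟩, ⟨7835, false, true⟩, ⟨7834, false, true⟩],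
  [⟨2956, false, true⟩, ⟨2957, false, true⟩, ⟨2958, false, true⟩, ⟨2959, false, true⟩, ⟨2960, true, true⟩,
   ⟨2961, true, true⟩, ⟨2962, true, true⟩, ⟨2963, true, true⟩, ⟨4317, false, true⟩, ⟨4316, true, true⟩,
   ⟨4307, false, true⟩, ⟨4306, true, true⟩],
  [⟨3060, false, true⟩, ⟨3061, false, true⟩, ⟨3062, false, true⟩, ⟨3063, false, true⟩, ⟨3064, true, true⟩,
   ⟨3065, true, true⟩, ⟨3066, true, true⟩, ⟨3067, true, true⟩, ⟨4213, false, true⟩, ⟨4212, true, true⟩,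
   ⟨4203, false, true⟩, ⟨4202, true, true⟩],
  [⟨3164, false, true⟩, ⟨3165, false, true⟩, ⟨3166, false, true⟩, ⟨3167, false, true⟩, ⟨3168, true, true⟩,
   ⟨3169, true, true⟩, ⟨3170, true, true⟩, ⟨3171, true, true⟩, ⟨4109, false, true⟩, ⟨4108, true, true⟩,
   ⟨4099, false, true⟩, ⟨4098, true, true⟩],
  [⟨3268, false, true⟩, ⟨3269, false, true⟩, ⟨3270, false, true⟩, ⟨3271, false, true⟩, ⟨3272, true, true⟩,
   ⟨3273, true, true⟩, ⟨3274, true, true⟩, ⟨3275, true, true⟩, ⟨4005, false, true⟩, ⟨4004, true, true⟩,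
   ⟨3995, false, true⟩, ⟨3994, true, true⟩],
  [⟨2525, true, true⟩, ⟨2629, true, true⟩, ⟨2733, true, true⟩, ⟨2837, true, true⟩, ⟨4397, false, true⟩,
   ⟨4709, false, true⟩, ⟨5021, false, true⟩, ⟨5333, false, true⟩, ⟨5324, true, true⟩, ⟨5012, true, true⟩,
   ⟨4700, true, true⟩, ⟨4388, true, true⟩, ⟨2828, false, true⟩, ⟨2724, false, true⟩, ⟨2620, false, true⟩,
   ⟨2516, false, true⟩],
  [⟨2524, true, true⟩, ⟨2628, true, true⟩, ⟨2732, true, true⟩, ⟨2836, true, true⟩, ⟨4396, false, true⟩,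
   ⟨4708, false, true⟩, ⟨5020, false, true⟩, ⟨5332, false, true⟩, ⟨5325, true, true⟩, ⟨5013, true, true⟩,
   ⟨4701, true, true⟩, ⟨4389, true, true⟩, ⟨2829, false, true⟩, ⟨2725, false, true⟩, ⟨2621, false, true⟩,
   ⟨2517, false, true⟩],
  [⟨2523, true, true⟩, ⟨2627, true, true⟩, ⟨2731, true, true⟩, ⟨2835, true, true⟩, ⟨4395, false, true⟩,
   ⟨4707, false, true⟩, ⟨5019, false, true⟩, ⟨5331, false, true⟩, ⟨5326, true, true⟩, ⟨5014, true, true⟩,
   ⟨4702, true, true⟩, ⟨4390, true, true⟩, ⟨2830, false, true⟩, ⟨2726, false, true⟩, ⟨2622, false, true⟩,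
   ⟨2518, false, true⟩],
  [⟨2522, true, true⟩, ⟨2626, true, true⟩, ⟨2730, true, true⟩, ⟨2834, true, true⟩, ⟨4394, false, true⟩,
   ⟨4706, false, true⟩, ⟨5018, false, true⟩, ⟨5330, false, true⟩, ⟨5327, true, true⟩, ⟨5015, true, true⟩,
   ⟨4703, true, true⟩, ⟨4391, true, true⟩, ⟨2831, false, true⟩, ⟨2727, false, true⟩, ⟨2623, false, true⟩,
   ⟨2519, false, true⟩],
  [⟨2571, true, true⟩, ⟨2675, true, true⟩, ⟨2779, true, true⟩, ⟨2883, true, true⟩, ⟨4547, false, true⟩,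
   ⟨4859, false, true⟩, ⟨5171, false, true⟩, ⟨5483, false, true⟩, ⟨5474, true, true⟩, ⟨5162, true, true⟩,
   ⟨4850, true, true⟩, ⟨4538, true, true⟩, ⟨2874, false, true⟩, ⟨2770, false, true⟩, ⟨2666, false, true⟩,
   ⟨2562, false, true⟩],
  [⟨2570, true, true⟩, ⟨2674, true, true⟩, ⟨2778, true, true⟩, ⟨2882, true, true⟩, ⟨4546, false, true⟩,
   ⟨4858, false, true⟩, ⟨5170, false, true⟩, ⟨5482, false, true⟩, ⟨5475, true, true⟩, ⟨5163, true, true⟩,
   ⟨4851, true, true⟩, ⟨4539, true, true⟩, ⟨2875, false, true⟩, ⟨2771, false, true⟩, ⟨2667, false, true⟩,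
   ⟨2563, false, true⟩],
  [⟨2569, true, true⟩, ⟨2673, true, true⟩, ⟨2777, true, true⟩, ⟨2881, true, true⟩, ⟨4545, false, true⟩,
   ⟨4857, false, true⟩, ⟨5169, false, true⟩, ⟨5481, false, true⟩, ⟨5476, true, true⟩, ⟨5164, true, true⟩,
   ⟨4852, true, true⟩, ⟨4540, true, true⟩, ⟨2876, false, true⟩, ⟨2772, false, true⟩, ⟨2668, false, true⟩,
   ⟨2564, false, true⟩],
  [⟨2568, true, true⟩, ⟨2672, true, true⟩, ⟨2776, true, true⟩, ⟨2880, true, true⟩, ⟨4544, false, true⟩,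
   ⟨4856, false, true⟩, ⟨5168, false, true⟩, ⟨5480, false, true⟩, ⟨5477, true, true⟩, ⟨5165, true, true⟩,
   ⟨4853, true, true⟩, ⟨4541, true, true⟩, ⟨2877, false, true⟩, ⟨2773, false, true⟩, ⟨2669, false, true⟩,
   ⟨2565, false, true⟩],
  [⟨2588, true, true⟩, ⟨2692, true, true⟩, ⟨2796, true, true⟩, ⟨2900, true, true⟩, ⟨4668, false, true⟩,
   ⟨4980, false, true⟩, ⟨5292, false, true⟩, ⟨5604, false, true⟩, ⟨5597, true, true⟩, ⟨5285, true, true⟩,
   ⟨4973, true, true⟩, ⟨4661, true, true⟩, ⟨2893, false, true⟩, ⟨2789, false, true⟩, ⟨2685, false, true⟩,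
   ⟨2581, false, true⟩],
  [⟨2587, true, true⟩, ⟨2691, true, true⟩, ⟨2795, true, true⟩, ⟨2899, true, true⟩, ⟨4667, false, true⟩,
   ⟨4979, false, true⟩, ⟨5291, false, true⟩, ⟨5603, false, true⟩, ⟨5598, true, true⟩, ⟨5286, true, true⟩,
   ⟨4974, true, true⟩, ⟨4662, true, true⟩, ⟨2894, false, true⟩, ⟨2790, false, true⟩, ⟨2686, false, true⟩,
   ⟨2582, false, true⟩],
  [⟨2586, true, true⟩, ⟨2690, true, true⟩, ⟨2794, true, true⟩, ⟨2898, true, true⟩, ⟨4666, false, true⟩,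
   ⟨4978, false, true⟩, ⟨5290, false, true⟩, ⟨5602, false, true⟩, ⟨5599, true, true⟩, ⟨5287, true, true⟩,
   ⟨4975, true, true⟩, ⟨4663, true, true⟩, ⟨2895, false, true⟩, ⟨2791, false, true⟩, ⟨2687, false, true⟩,
   ⟨2583, false, true⟩],
  [⟨2585, true, true⟩, ⟨2689, true, true⟩, ⟨2793, true, true⟩, ⟨2897, true, true⟩, ⟨4665, false, true⟩,
   ⟨4977, false, true⟩, ⟨5289, false, true⟩, ⟨5601, false, true⟩, ⟨5600, true, true⟩, ⟨5288, true, true⟩,
   ⟨4976, true, true⟩, ⟨4664, true, true⟩, ⟨2896, false, true⟩, ⟨2792, false, true⟩, ⟨2688, false, true⟩,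
   ⟨2584, false, true⟩],
  [⟨2547, true, true⟩, ⟨2651, true, true⟩, ⟨2755, true, true⟩, ⟨2859, true, true⟩, ⟨2963, false, true⟩,
   ⟨3067, false, true⟩, ⟨3171, false, true⟩, ⟨3275, false, true⟩, ⟨3268, true, true⟩, ⟨3164, true, true⟩,
   ⟨3060, true, true⟩, ⟨2956, true, true⟩, ⟨2852, false, true⟩, ⟨2748, false, true⟩, ⟨2644, false, true⟩,
   ⟨2540, false, true⟩],
  [⟨2546, true, true⟩, ⟨2650, true, true⟩, ⟨2754, true, true⟩, ⟨2858, true, true⟩, ⟨2962, false, true⟩,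
   ⟨3066, false, true⟩, ⟨3170, false, true⟩, ⟨3274, false, true⟩, ⟨3269, true, true⟩, ⟨3165, true, true⟩,
   ⟨3061, true, true⟩, ⟨2957, true, true⟩, ⟨2853, false, true⟩, ⟨2749, false, true⟩, ⟨2645, false, true⟩,
   ⟨2541, false, true⟩],
  [⟨2545, true, true⟩, ⟨2649, true, true⟩, ⟨2753, true, true⟩, ⟨2857, true, true⟩, ⟨2961, false, true⟩,
   ⟨3065, false, true⟩, ⟨3169, false, true⟩, ⟨3273, false, true⟩, ⟨3270, true, true⟩, ⟨3166, true, true⟩,
   ⟨3062, true, true⟩, ⟨2958, true, true⟩, ⟨2854, false, true⟩, ⟨2750, false, true⟩, ⟨2646, false, true⟩,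
   ⟨2542, false, true⟩],
  [⟨2544, true, true⟩, ⟨2648, true, true⟩, ⟨2752, true, true⟩, ⟨2856, true, true⟩, ⟨2960, false, true⟩,
   ⟨3064, false, true⟩, ⟨3168, false, true⟩, ⟨3272, false, true⟩, ⟨3271, true, true⟩, ⟨3167, true, true⟩,
   ⟨3063, true, true⟩, ⟨2959, true, true⟩, ⟨2855, false, true⟩, ⟨2751, false, true⟩, ⟨2647, false, true⟩,
   ⟨2543, false, true⟩],
  [⟨2510, true, true⟩, ⟨2614, true, true⟩, ⟨2718, true, true⟩, ⟨2822, true, true⟩, ⟨8334, false, true⟩,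
   ⟨8327, true, true⟩, ⟨2815, false, true⟩, ⟨2711, false, true⟩, ⟨2607, false, true⟩, ⟨2503, false, true⟩],
  [⟨2509, true, true⟩, ⟨2613, true, true⟩, ⟨2717, true, true⟩, ⟨2821, true, true⟩, ⟨8333, false, true⟩,
   ⟨8328, true, true⟩, ⟨2816, false, true⟩, ⟨2712, false, true⟩, ⟨2608, false, true⟩, ⟨2504, false, true⟩],
  [⟨2508, true, true⟩, ⟨2612, true, true⟩, ⟨2716, true, true⟩, ⟨2820, true, true⟩, ⟨8332, false, true⟩,
   ⟨8329, true, true⟩, ⟨2817, false, true⟩, ⟨2713, false, true⟩, ⟨2609, false, true⟩, ⟨2505, false, true⟩],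
  [⟨2507, true, true⟩, ⟨2611, true, true⟩, ⟨2715, true, true⟩, ⟨2819, true, true⟩, ⟨8331, false, true⟩,
   ⟨8330, true, true⟩, ⟨2818, false, true⟩, ⟨2714, false, true⟩, ⟨2610, false, true⟩, ⟨2506, false, true⟩],
  [],
  [],
  [],
  [],
  [⟨4005, true, true⟩, ⟨4109, true, true⟩, ⟨4213, true, true⟩, ⟨4317, true, true⟩, ⟨7333, false, true⟩,
   ⟨7437, false, true⟩, ⟨7541, false, true⟩, ⟨7645, false, true⟩, ⟨7644, true, true⟩, ⟨7540, true, true⟩,
   ⟨7436, true, true⟩, ⟨7332, true, true⟩, ⟨4316, false, true⟩, ⟨4212, false, true⟩, ⟨4108, false, true⟩,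
   ⟨4004, false, true⟩]]

def a0 : List Pass := [⟨8327, false, true⟩, ⟨8328, false, true⟩, ⟨8329, false, true⟩, ⟨8330, false, true⟩, ⟨8331, true, true⟩,
  ⟨8332, true, true⟩, ⟨8333, true, true⟩, ⟨8334, true, true⟩, ⟨8335, false, true⟩, ⟨8336, false, true⟩,
  ⟨8337, false, true⟩, ⟨8338, false, true⟩]

def a1 : List Pass := [⟨8501, true, true⟩, ⟨8502, true, true⟩, ⟨8503, true, true⟩, ⟨8504, true, true⟩, ⟨8505, false, true⟩,
  ⟨8506, false, true⟩, ⟨8507, false, true⟩, ⟨8508, false, true⟩, ⟨8517, true, true⟩, ⟨8518, true, true⟩,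
  ⟨8519, true, true⟩, ⟨8520, true, true⟩]

def b10 : List Pass := [⟨9167, false, true⟩, ⟨9168, false, true⟩, ⟨9169, false, true⟩, ⟨9170, false, true⟩]

def b11 : List Pass := [⟨9333, true, true⟩, ⟨9334, true, true⟩, ⟨9335, true, true⟩, ⟨9336, true, true⟩, ⟨9337, false, true⟩,
  ⟨9338, false, true⟩, ⟨9339, false, true⟩, ⟨9340, false, true⟩, ⟨9349, true, true⟩, ⟨9350, true, true⟩,
  ⟨9351, true, true⟩, ⟨9352, true, true⟩]

def b20 : List Pass := [⟨8959, false, true⟩, ⟨8960, false, true⟩, ⟨8961, false, true⟩, ⟨8962, false, true⟩]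

def b21 : List Pass := [⟨9125, true, true⟩, ⟨9126, true, true⟩, ⟨9127, true, true⟩, ⟨9128, true, true⟩, ⟨9129, false, true⟩,
  ⟨9130, false, true⟩, ⟨9131, false, true⟩, ⟨9132, false, true⟩, ⟨9141, true, true⟩, ⟨9142, true, true⟩,
  ⟨9143, true, true⟩, ⟨9144, true, true⟩]

def x0 : List Pass := [⟨3995, true, true⟩, ⟨4099, true, true⟩, ⟨4203, true, true⟩, ⟨4307, true, true⟩]

def x1 : List Pass := [⟨4306, false, true⟩, ⟨4202, false, true⟩, ⟨4098, false, true⟩, ⟨3994, false, true⟩]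

/-- the code with given words on the components 44, 45, 46, 47 -/
def K (wa w1 w2 wx : List Pass) : Code 49 := fun i =>
  if i = 44 then wa else if i = 45 then w1 else if i = 46 then w2 else if i = 47 then wx
  else baseWords.getD i.val []

def litA : Code 49 := K (a0 ++ [⟨8240, true, false⟩, ⟨8241, true, false⟩, ⟨8286, true, true⟩, ⟨8287, true, true⟩] ++ a1) (b10 ++ [⟨8241, false, false⟩, ⟨7114, false, true⟩, ⟨7115, true, true⟩, ⟨8286, false, true⟩] ++ b11) (b20 ++ [⟨8240, false, false⟩, ⟨7010, false, true⟩, ⟨7011, true, true⟩, ⟨8287, false, true⟩] ++ b21) (x0 ++ [⟨7011, false, true⟩, ⟨7115, false, true⟩, ⟨7114, true, true⟩, ⟨7010, true, true⟩] ++ x1)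

def litB : Code 49 := K (a0 ++ [⟨6906, true, false⟩, ⟨6907, true, true⟩] ++ a1) (b10 ++ [⟨7114, false, true⟩, ⟨7115, true, true⟩] ++ b11) (b20 ++ [⟨7010, false, true⟩, ⟨7011, true, true⟩] ++ b21) (x0 ++ [⟨6907, false, true⟩, ⟨7011, false, true⟩, ⟨7115, false, true⟩, ⟨7114, true, true⟩, ⟨7010, true, true⟩, ⟨6906, false, false⟩] ++ x1)


theorem codeA : TA.code = litA := by
  have h : ∀ i, TA.code i = litA i := by decide +kernel
  funext i; exact h i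

theorem codeB : TB.code = litB := by
  have h : ∀ i, TB.code i = litB i := by decide +kernel
  funext i; exact h i

theorem virtA : TA.virtCount = 28 := by decide +kernel

theorem classB : TB.classCount = 438 := by decide +kernel

end Pool.Agent.Lib.MP_0a0e82_gt
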