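import Pool.Agent.Lib.MP_0a0e82_gt.Arcs

set_option autoImplicit false

namespace Pool.Agent.Lib.MP_0a0e82_gt

/-- all points of `A` and `B` are joined inside `S` -/
def AllConn (S A B : Set Pt) : Prop := ∀ p ∈ A, ∀ q ∈ B, Conn S p q

lemma AllConn.trans {S A B C : Set Pt} (h : AllConn S A B) (h' : AllConn S B C) (hne : B.Nonempty) :
    AllConn S A C := by
  obtain ⟨b, hb⟩ := hne
  exact fun p hp q hq => (h p hp b hb).trans (h' b hb q hq)

lemma AllConn.mono {S S' A B : Set Pt} (h : AllConn S A B) (hs : S ⊆ S') : AllConn S' A B :=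
  fun p hp q hq => (h p hp q hq).mono hs

/-- closed polygonal curves -/
structure Cv where
  l : List Seg
  u : Pt
  path : IsPath l u u

/-- support of a curve -/
def Cv.S (c : Cv) : Set Pt := supp c.l

/-- number of crossings of two curves -/
noncomputable def Cv.t (c d : Cv) : ℕ := cnt c.l d.l

lemma Cv.self_conn (c : Cv) {S : Set Pt} (h : c.S ⊆ S) : AllConn S c.S c.S :=
  fun _ hp _ hq => (closed_conn c.path hp hq).mono h

lemma Cv.conn_of_meet {c d : Cv} {S : Set Pt} (hc : c.S ⊆ S) (hd : d.S ⊆ S)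
    (hm : (c.S ∩ d.S).Nonempty) : AllConn S c.S d.S := by
  obtain ⟨p, hp, hp'⟩ := hm
  exact fun a ha b hb => ((c.self_conn hc) a ha p hp).trans ((d.self_conn hd) p hp' b hb)

/-- a column of the `K₃,₃` configuration -/
theorem column {A₁ A₂ A₃ B e : Cv} (g₁ : GP B.l A₁.l) (g₂ : GP B.l A₂.l)
    (t₁ : B.t A₁ = 2) (t₂ : B.t A₂ = 2) (hm : (e.S ∩ B.S).Nonempty) (hm3 : (A₃.S ∩ e.S).Nonempty)
    (d₁ : Disjoint e.S A₁.S) (d₂ : Disjoint e.S A₂.S) (d12 : Disjoint A₁.S A₂.S)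
    (h₁ : AllConn (A₁.S)ᶜ e.S A₂.S) (h₂ : AllConn (A₂.S)ᶜ e.S A₁.S) {a₁ a₂ a₃ : Pt}
    (ha₁ : a₁ ∈ A₁.S) (ha₂ : a₂ ∈ A₂.S) (ha₃ : a₃ ∈ A₃.S) :
    ∃ c, c ∈ B.S ∧ c ∈ e.S ∧ Conn (A₁.S ∪ (B.S \ A₂.S)) a₁ c ∧ Conn (A₂.S ∪ (B.S \ A₁.S)) a₂ c ∧
      Conn (A₃.S ∪ e.S) a₃ c := by
  obtain ⟨c, hce, hcB⟩ := hm
  obtain ⟨q₁, hq1, hq1'⟩ : ∃ q, q ∈ supp B.l ∧ q ∈ supp A₁.l :=
    exists_common_of_cnt (by rw [Cv.t] at t₁; omega)
  obtain ⟨q₂, hq2, hq2'⟩ : ∃ q, q ∈ supp B.l ∧ q ∈ supp A₂.l :=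
    exists_common_of_cnt (by rw [Cv.t] at t₂; omega)
  have n1 : c ∉ supp A₁.l := fun h => Set.disjoint_left.1 d₁ hce h
  have n2 : c ∉ supp A₂.l := fun h => Set.disjoint_left.1 d₂ hce h
  have n3 : q₂ ∉ supp A₁.l := fun h => Set.disjoint_left.1 d12 h hq2'
  have n4 : q₁ ∉ supp A₂.l := fun h => Set.disjoint_left.1 d12 hq1' h
  have c1 := arc_avoid B.path A₁.path g₁ t₁ hcB hq2 n1 n3 (h₁ c hce q₂ hq2')
  have c2 := arc_avoid B.path A₂.path g₂ t₂ hcB hq1 n2 n4 (h₂ c hce q₁ hq1')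
  refine ⟨c, hcB, hce, ?_, ?_, ?_⟩
  · exact ((A₁.self_conn Set.subset_union_left) a₁ ha₁ q₁ hq1').trans
      (c2.symm.mono Set.subset_union_right)
  · exact ((A₂.self_conn Set.subset_union_left) a₂ ha₂ q₂ hq2').trans
      (c1.symm.mono Set.subset_union_right)
  · exact (Cv.conn_of_meet Set.subset_union_left Set.subset_union_right hm3) a₃ ha₃ c hce

/-- first configuration (three direct columns) -/
theorem config1 {A₁ A₂ A₃ : Cv} {B e : Fin 3 → Cv}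
    (g₁ : ∀ j, GP (B j).l A₁.l) (g₂ : ∀ j, GP (B j).l A₂.l)
    (t₁ : ∀ j, (B j).t A₁ = 2) (t₂ : ∀ j, (B j).t A₂ = 2)
    (hm : ∀ j, ((e j).S ∩ (B j).S).Nonempty) (hm3 : ∀ j, (A₃.S ∩ (e j).S).Nonempty)
    (d₁ : ∀ j, Disjoint (e j).S A₁.S) (d₂ : ∀ j, Disjoint (e j).S A₂.S)
    (d12 : Disjoint A₁.S A₂.S) (d13 : Disjoint A₁.S A₃.S) (d23 : Disjoint A₂.S A₃.S)
    (dB : ∀ j l, j ≠ l → Disjoint (B j).S (B l).S) (dB3 : ∀ j, Disjoint (B j).S A₃.S)
    (dBe : ∀ j l, j ≠ l → Disjoint (B j).S (e l).S)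
    (h₁ : ∀ j, AllConn (A₁.S)ᶜ (e j).S A₂.S) (h₂ : ∀ j, AllConn (A₂.S)ᶜ (e j).S A₁.S) : False := by
  obtain ⟨a₁, _, ha₁⟩ : ∃ q, q ∈ supp (B 0).l ∧ q ∈ supp A₁.l :=
    exists_common_of_cnt (by have := t₁ 0; rw [Cv.t] at this; omega)
  obtain ⟨a₂, _, ha₂⟩ : ∃ q, q ∈ supp (B 0).l ∧ q ∈ supp A₂.l :=
    exists_common_of_cnt (by have := t₂ 0; rw [Cv.t] at this; omega)
  obtain ⟨a₃, ha₃, _⟩ := hm3 0
  have hcol := fun j => column (g₁ j) (g₂ j) (t₁ j) (t₂ j) (hm j) (hm3 j) (d₁ j) (d₂ j) d12 (h₁ j)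
    (h₂ j) ha₁ ha₂ ha₃
  choose c hc1 hc2 hc3 hc4 hc5 using hcol
  let S : Fin 3 → Fin 3 → Set Pt := ![fun j => A₁.S ∪ ((B j).S \ A₂.S),
    fun j => A₂.S ∪ ((B j).S \ A₁.S), fun j => A₃.S ∪ (e j).S]
  refine K33 ![a₁, a₂, a₃] c S ?_ ?_ ?_
  · intro i j
    fin_cases i
    · exact hc3 j
    · exact hc4 j
    · exact hc5 j
  · intro i j
    fin_cases i
    · exact Or.inr ⟨hc1 j, fun h => Set.disjoint_left.1 (d₂ j) (hc2 j) h⟩
    · exact Or.inr ⟨hc1 j, fun h => Set.disjoint_left.1 (d₁ j) (hc2 j) h⟩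
    · exact Or.inr (hc2 j)
  · intro i k j l hik hjl
    have key12 : ∀ j l, j ≠ l → Disjoint (S 0 j) (S 1 l) := by
      intro j l hjl
      refine Set.disjoint_left.2 ?_
      rintro p (hp | ⟨hp, hp'⟩) (hq | ⟨hq, hq'⟩)
      · exact Set.disjoint_left.1 d12 hp hq
      · exact hq' hp
      · exact hp' hq
      · exact Set.disjoint_left.1 (dB j l hjl) hp hq
    have key13 : ∀ j l, j ≠ l → Disjoint (S 0 j) (S 2 l) := by
      intro j l hjl
      refine Set.disjoint_left.2 ?_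
      rintro p (hp | ⟨hp, hp'⟩) (hq | hq)
      · exact Set.disjoint_left.1 d13 hp hq
      · exact Set.disjoint_left.1 (d₁ l) hq hp
      · exact Set.disjoint_left.1 (dB3 j) hp hq
      · exact Set.disjoint_left.1 (dBe j l hjl) hp hq
    have key23 : ∀ j l, j ≠ l → Disjoint (S 1 j) (S 2 l) := by
      intro j l hjl
      refine Set.disjoint_left.2 ?_
      rintro p (hp | ⟨hp, hp'⟩) (hq | hq)
      · exact Set.disjoint_left.1 d23 hp hq
      · exact Set.disjoint_left.1 (d₂ l) hq hp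
      · exact Set.disjoint_left.1 (dB3 j) hp hq
      · exact Set.disjoint_left.1 (dBe j l hjl) hp hq
    fin_cases i <;> fin_cases k <;> first
      | exact key12 j l hjl
      | exact key13 j l hjl
      | exact key23 j l hjl
      | (exfalso; revert hik; decide)

/-- second configuration (two direct columns, the third one through intermediate curves) -/
theorem config2 {A₁ A₂ A₃ w x y f : Cv} {B e : Fin 2 → Cv}
    (g₁ : ∀ j, GP (B j).l A₁.l) (g₂ : ∀ j, GP (B j).l A₂.l)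
    (t₁ : ∀ j, (B j).t A₁ = 2) (t₂ : ∀ j, (B j).t A₂ = 2)
    (hm : ∀ j, ((e j).S ∩ (B j).S).Nonempty) (hm3 : ∀ j, (A₃.S ∩ (e j).S).Nonempty)
    (d₁ : ∀ j, Disjoint (e j).S A₁.S) (d₂ : ∀ j, Disjoint (e j).S A₂.S)
    (d12 : Disjoint A₁.S A₂.S) (d13 : Disjoint A₁.S A₃.S) (d23 : Disjoint A₂.S A₃.S)
    (dB : ∀ j l, j ≠ l → Disjoint (B j).S (B l).S) (dB3 : ∀ j, Disjoint (B j).S A₃.S)
    (dBe : ∀ j l, j ≠ l → Disjoint (B j).S (e l).S)
    (h₁ : ∀ j, AllConn (A₁.S)ᶜ (e j).S A₂.S) (h₂ : ∀ j, AllConn (A₂.S)ᶜ (e j).S A₁.S)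
    (m1 : (A₁.S ∩ x.S).Nonempty) (m2 : (x.S ∩ w.S).Nonempty) (m3 : (A₂.S ∩ y.S).Nonempty)
    (m4 : (y.S ∩ w.S).Nonempty) (m5 : (A₃.S ∩ f.S).Nonempty) (m6 : (f.S ∩ w.S).Nonempty)
    (q1 : Disjoint x.S A₂.S) (q2 : ∀ j, Disjoint x.S (B j).S) (q3 : Disjoint x.S A₃.S)
    (q4 : ∀ j, Disjoint x.S (e j).S) (q5 : Disjoint y.S A₁.S) (q6 : ∀ j, Disjoint y.S (B j).S)
    (q7 : Disjoint y.S A₃.S) (q8 : ∀ j, Disjoint y.S (e j).S)
    (w1 : Disjoint w.S A₁.S) (w2 : Disjoint w.S A₂.S) (w3 : Disjoint w.S A₃.S)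
    (w4 : ∀ j, Disjoint w.S (B j).S) (w5 : ∀ j, Disjoint w.S (e j).S)
    (f1 : Disjoint f.S A₁.S) (f2 : Disjoint f.S A₂.S) (f3 : ∀ j, Disjoint f.S (B j).S) : False := by
  obtain ⟨a₁, _, ha₁⟩ : ∃ q, q ∈ supp (B 0).l ∧ q ∈ supp A₁.l :=
    exists_common_of_cnt (by have := t₁ 0; rw [Cv.t] at this; omega)
  obtain ⟨a₂, _, ha₂⟩ : ∃ q, q ∈ supp (B 0).l ∧ q ∈ supp A₂.l :=
    exists_common_of_cnt (by have := t₂ 0; rw [Cv.t] at this; omega)
  obtain ⟨a₃, ha₃, _⟩ := hm3 0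
  have hcol := fun j => column (g₁ j) (g₂ j) (t₁ j) (t₂ j) (hm j) (hm3 j) (d₁ j) (d₂ j) d12 (h₁ j)
    (h₂ j) ha₁ ha₂ ha₃
  choose c hc1 hc2 hc3 hc4 hc5 using hcol
  obtain ⟨c₃, hc₃f, hc₃w⟩ := m6
  let S : Fin 3 → Fin 3 → Set Pt := ![
    ![A₁.S ∪ ((B 0).S \ A₂.S), A₁.S ∪ ((B 1).S \ A₂.S), A₁.S ∪ (x.S ∪ w.S)],
    ![A₂.S ∪ ((B 0).S \ A₁.S), A₂.S ∪ ((B 1).S \ A₁.S), A₂.S ∪ (y.S ∪ w.S)],
    ![A₃.S ∪ (e 0).S, A₃.S ∪ (e 1).S, A₃.S ∪ (f.S ∪ w.S)]]
  refine K33 ![a₁, a₂, a₃] ![c 0, c 1, c₃] S ?_ ?_ ?_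
  · intro i j
    have k1 : Conn (A₁.S ∪ (x.S ∪ w.S)) a₁ c₃ :=
      ((Cv.conn_of_meet (c := A₁) (d := x) (S := A₁.S ∪ (x.S ∪ w.S)) Set.subset_union_left
        (Set.subset_union_left.trans Set.subset_union_right) m1).trans
        (Cv.conn_of_meet (c := x) (d := w) (Set.subset_union_left.trans Set.subset_union_right)
        (Set.subset_union_right.trans Set.subset_union_right) m2)
        (m1.mono Set.inter_subset_right)) a₁ ha₁ c₃ hc₃w
    have k2 : Conn (A₂.S ∪ (y.S ∪ w.S)) a₂ c₃ :=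
      ((Cv.conn_of_meet (c := A₂) (d := y) (S := A₂.S ∪ (y.S ∪ w.S)) Set.subset_union_left
        (Set.subset_union_left.trans Set.subset_union_right) m3).trans
        (Cv.conn_of_meet (c := y) (d := w) (Set.subset_union_left.trans Set.subset_union_right)
        (Set.subset_union_right.trans Set.subset_union_right) m4)
        (m3.mono Set.inter_subset_right)) a₂ ha₂ c₃ hc₃w
    have k3 : Conn (A₃.S ∪ (f.S ∪ w.S)) a₃ c₃ :=
      (Cv.conn_of_meet (c := A₃) (d := f) (S := A₃.S ∪ (f.S ∪ w.S)) Set.subset_union_left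
        (Set.subset_union_left.trans Set.subset_union_right) m5) a₃ ha₃ c₃ hc₃f
    fin_cases i <;> fin_cases j
    · exact hc3 0
    · exact hc3 1
    · exact k1
    · exact hc4 0
    · exact hc4 1
    · exact k2
    · exact hc5 0
    · exact hc5 1
    · exact k3
  · have z1 : ∀ j, c j ∈ A₁.S ∪ ((B j).S \ A₂.S) := fun j =>
      Or.inr ⟨hc1 j, fun h => Set.disjoint_left.1 (d₂ j) (hc2 j) h⟩
    have z2 : ∀ j, c j ∈ A₂.S ∪ ((B j).S \ A₁.S) := fun j =>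
      Or.inr ⟨hc1 j, fun h => Set.disjoint_left.1 (d₁ j) (hc2 j) h⟩
    have z3 : ∀ j, c j ∈ A₃.S ∪ (e j).S := fun j => Or.inr (hc2 j)
    intro i j
    fin_cases i <;> fin_cases j
    · exact z1 0
    · exact z1 1
    · exact Or.inr (Or.inr hc₃w)
    · exact z2 0
    · exact z2 1
    · exact Or.inr (Or.inr hc₃w)
    · exact z3 0
    · exact z3 1
    · exact Or.inr (Or.inr hc₃w)
  · intro i k j l hik hjl
    have key12 : ∀ j l, j ≠ l → Disjoint (A₁.S ∪ ((B j).S \ A₂.S)) (A₂.S ∪ ((B l).S \ A₁.S)) := by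
      intro j l hjl
      refine Set.disjoint_left.2 ?_
      rintro p (hp | ⟨hp, hp'⟩) (hq | ⟨hq, hq'⟩)
      · exact Set.disjoint_left.1 d12 hp hq
      · exact hq' hp
      · exact hp' hq
      · exact Set.disjoint_left.1 (dB j l hjl) hp hq
    have key13 : ∀ j l, j ≠ l → Disjoint (A₁.S ∪ ((B j).S \ A₂.S)) (A₃.S ∪ (e l).S) := by
      intro j l hjl
      refine Set.disjoint_left.2 ?_
      rintro p (hp | ⟨hp, hp'⟩) (hq | hq)
      · exact Set.disjoint_left.1 d13 hp hq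
      · exact Set.disjoint_left.1 (d₁ l) hq hp
      · exact Set.disjoint_left.1 (dB3 j) hp hq
      · exact Set.disjoint_left.1 (dBe j l hjl) hp hq
    have key23 : ∀ j l, j ≠ l → Disjoint (A₂.S ∪ ((B j).S \ A₁.S)) (A₃.S ∪ (e l).S) := by
      intro j l hjl
      refine Set.disjoint_left.2 ?_
      rintro p (hp | ⟨hp, hp'⟩) (hq | hq)
      · exact Set.disjoint_left.1 d23 hp hq
      · exact Set.disjoint_left.1 (d₂ l) hq hp
      · exact Set.disjoint_left.1 (dB3 j) hp hq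
      · exact Set.disjoint_left.1 (dBe j l hjl) hp hq
    have r12 : ∀ j, Disjoint (A₁.S ∪ ((B j).S \ A₂.S)) (A₂.S ∪ (y.S ∪ w.S)) := by
      intro j
      refine Set.disjoint_left.2 ?_
      rintro p (hp | ⟨hp, hp'⟩) (hq | hq | hq)
      · exact Set.disjoint_left.1 d12 hp hq
      · exact Set.disjoint_left.1 q5 hq hp
      · exact Set.disjoint_left.1 w1 hq hp
      · exact hp' hq
      · exact Set.disjoint_left.1 (q6 j) hq hp
      · exact Set.disjoint_left.1 (w4 j) hq hp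
    have r21 : ∀ l, Disjoint (A₁.S ∪ (x.S ∪ w.S)) (A₂.S ∪ ((B l).S \ A₁.S)) := by
      intro l
      refine Set.disjoint_left.2 ?_
      rintro p (hp | hp | hp) (hq | ⟨hq, hq'⟩)
      · exact Set.disjoint_left.1 d12 hp hq
      · exact hq' hp
      · exact Set.disjoint_left.1 q1 hp hq
      · exact Set.disjoint_left.1 (q2 l) hp hq
      · exact Set.disjoint_left.1 w2 hp hq
      · exact Set.disjoint_left.1 (w4 l) hp hq
    have r13 : ∀ l, Disjoint (A₁.S ∪ (x.S ∪ w.S)) (A₃.S ∪ (e l).S) := by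
      intro l
      refine Set.disjoint_left.2 ?_
      rintro p (hp | hp | hp) (hq | hq)
      · exact Set.disjoint_left.1 d13 hp hq
      · exact Set.disjoint_left.1 (d₁ l) hq hp
      · exact Set.disjoint_left.1 q3 hp hq
      · exact Set.disjoint_left.1 (q4 l) hp hq
      · exact Set.disjoint_left.1 w3 hp hq
      · exact Set.disjoint_left.1 (w5 l) hp hq
    have r31 : ∀ j, Disjoint (A₁.S ∪ ((B j).S \ A₂.S)) (A₃.S ∪ (f.S ∪ w.S)) := by
      intro j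
      refine Set.disjoint_left.2 ?_
      rintro p (hp | ⟨hp, hp'⟩) (hq | hq | hq)
      · exact Set.disjoint_left.1 d13 hp hq
      · exact Set.disjoint_left.1 f1 hq hp
      · exact Set.disjoint_left.1 w1 hq hp
      · exact Set.disjoint_left.1 (dB3 j) hp hq
      · exact Set.disjoint_left.1 (f3 j) hq hp
      · exact Set.disjoint_left.1 (w4 j) hq hp
    have r23 : ∀ l, Disjoint (A₂.S ∪ (y.S ∪ w.S)) (A₃.S ∪ (e l).S) := by
      intro l
      refine Set.disjoint_left.2 ?_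
      rintro p (hp | hp | hp) (hq | hq)
      · exact Set.disjoint_left.1 d23 hp hq
      · exact Set.disjoint_left.1 (d₂ l) hq hp
      · exact Set.disjoint_left.1 q7 hp hq
      · exact Set.disjoint_left.1 (q8 l) hp hq
      · exact Set.disjoint_left.1 w3 hp hq
      · exact Set.disjoint_left.1 (w5 l) hp hq
    have r32 : ∀ j, Disjoint (A₂.S ∪ ((B j).S \ A₁.S)) (A₃.S ∪ (f.S ∪ w.S)) := by
      intro j
      refine Set.disjoint_left.2 ?_
      rintro p (hp | ⟨hp, hp'⟩) (hq | hq | hq)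
      · exact Set.disjoint_left.1 d23 hp hq
      · exact Set.disjoint_left.1 f2 hq hp
      · exact Set.disjoint_left.1 w2 hq hp
      · exact Set.disjoint_left.1 (dB3 j) hp hq
      · exact Set.disjoint_left.1 (f3 j) hq hp
      · exact Set.disjoint_left.1 (w4 j) hq hp
    fin_cases i <;> fin_cases k <;> fin_cases j <;> fin_cases l <;> first
      | exact key12 0 1 (by decide)
      | exact key12 1 0 (by decide)
      | exact key13 0 1 (by decide)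
      | exact key13 1 0 (by decide)
      | exact key23 0 1 (by decide)
      | exact key23 1 0 (by decide)
      | exact r12 0
      | exact r12 1
      | exact r21 0
      | exact r21 1
      | exact r13 0
      | exact r13 1
      | exact r31 0
      | exact r31 1
      | exact r23 0
      | exact r23 1
      | exact r32 0
      | exact r32 1
      | (exfalso; revert hik; decide)
      | (exfalso; exact hjl rfl)

end Pool.Agent.Lib.MP_0a0e82_gt
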