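import Pool.Agent.Lib.MP_0a0e82_gt.Lower

set_option autoImplicit false

namespace Pool.Agent.Lib.MP_0a0e82_gt

open Finset

lemma forced_self (i : Fin 49) : forced i i = 0 := by
  revert i; decide +kernel

lemma card_copies (h : ℕ) (hh : h < 11) :
    (univ.filter fun c : Fin 49 => lbl c = h).card = 4 := by
  interval_cases h <;> decide +kernel

/-- double sums restricted to a rectangle and its transpose -/
lemma sum_rect_le (δ : Fin 49 → Fin 49 → ℕ) (H : Finset (Fin 49)) :
    (∑ i ∈ H, ∑ j ∈ Hᶜ, δ i j) + (∑ i ∈ Hᶜ, ∑ j ∈ H, δ i j) ≤ ∑ i, ∑ j, δ i j := by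
  rw [← Finset.sum_add_sum_compl H (fun i => ∑ j, δ i j)]
  gcongr
  · exact Finset.subset_univ _
  · exact Finset.subset_univ _

/-- the system of copies has a representative of each heavy label that is exact with all other labels -/
theorem exists_copy (t : Fin 49 → Fin 49 → ℕ) (tsymm : ∀ i j, t i j = t j i)
    (tex : ∀ i j, i ≠ j → t i j = forced i j ∨ forced i j + 2 ≤ t i j)
    (hsum : ∑ i, ∑ j, (if i = j then 0 else t i j) < 936) (h : ℕ) (hh : h < 11) :
    ∃ c : Fin 49, lbl c = h ∧ ∀ j, lbl j ≠ h → t c j = forced c j := by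
  classical
  by_contra hcon
  push Not at hcon
  set δ : Fin 49 → Fin 49 → ℕ := fun i j => if i = j then 0 else t i j - forced i j with hδ
  have hδs : ∀ i j, δ i j = δ j i := by
    intro i j
    simp only [hδ]
    rw [tsymm i j, forced_symm i j]
    by_cases hij : i = j
    · rw [if_pos hij, if_pos hij.symm]
    · rw [if_neg hij, if_neg (Ne.symm hij)]
  have htot : ∑ i, ∑ j, (if i = j then 0 else t i j) = 920 + ∑ i, ∑ j, δ i j := by
    rw [← sum_forced, ← Finset.sum_add_distrib]
    apply Finset.sum_congr rfl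
    intro i _
    rw [← Finset.sum_add_distrib]
    apply Finset.sum_congr rfl
    intro j _
    simp only [hδ]
    by_cases hij : i = j
    · subst hij; simp [forced_self]
    · rw [if_neg hij, if_neg hij]
      rcases tex i j hij with h1 | h1 <;> omega
  have hlt : ∑ i, ∑ j, δ i j < 16 := by omega
  set H := univ.filter fun c : Fin 49 => lbl c = h with hH
  have h8 : 8 ≤ ∑ i ∈ H, ∑ j ∈ Hᶜ, δ i j := by
    have : ∑ i ∈ H, 2 ≤ ∑ i ∈ H, ∑ j ∈ Hᶜ, δ i j := by
      apply Finset.sum_le_sum
      intro c hc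
      rw [hH, Finset.mem_filter] at hc
      obtain ⟨j, hj1, hj2⟩ := hcon c hc.2
      have hcj : c ≠ j := by rintro rfl; exact hj1 hc.2
      have h3 : 2 ≤ δ c j := by
        simp only [hδ]
        rw [if_neg hcj]
        rcases tex c j hcj with h1 | h1
        · exact absurd h1 hj2
        · omega
      have h4 : j ∈ Hᶜ := by
        rw [Finset.mem_compl, hH, Finset.mem_filter]
        exact fun hh => hj1 hh.2
      exact h3.trans (Finset.single_le_sum (f := fun j => δ c j) (fun _ _ => Nat.zero_le _) h4)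
    rw [Finset.sum_const, card_copies h hh] at this
    simpa using this
  have h8' : 8 ≤ ∑ i ∈ Hᶜ, ∑ j ∈ H, δ i j := by
    rw [Finset.sum_comm]
    calc 8 ≤ ∑ i ∈ H, ∑ j ∈ Hᶜ, δ i j := h8
      _ = ∑ i ∈ H, ∑ j ∈ Hᶜ, δ j i := by
        apply Finset.sum_congr rfl; intro i _
        apply Finset.sum_congr rfl; intro j _
        exact hδs i j
  have := sum_rect_le δ H
  omega

/-- the lower bound -/
theorem lower_bound (γ : Fin 49 → Cv) (hgp : ∀ i j, i ≠ j → GP (γ i).l (γ j).l)
    (hlink : ∀ i j, lnk (lbl i) (lbl j) = true → (γ i).t (γ j) ≠ 0) :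
    936 ≤ ∑ i, ∑ j, (if i = j then 0 else (γ i).t (γ j)) := by
  classical
  by_contra hcon
  push Not at hcon
  set t : Fin 49 → Fin 49 → ℕ := fun i j => (γ i).t (γ j) with ht
  have tsymm : ∀ i j, t i j = t j i := fun i j => cnt_comm _ _
  have teven : ∀ i j, i ≠ j → Even (t i j) := fun i j hij =>
    cnt_even (hgp i j hij) (γ i).path (γ j).path
  have feven : ∀ i j, forced i j = 0 ∨ forced i j = 2 := by
    intro i j; unfold forced; split_ifs <;> simp
  have tex : ∀ i j, i ≠ j → t i j = forced i j ∨ forced i j + 2 ≤ t i j := by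
    intro i j hij
    obtain ⟨r, hr⟩ := teven i j hij
    by_cases hl : lnk (lbl i) (lbl j) = true
    · have h1 : t i j ≠ 0 := hlink i j hl
      have h2 : forced i j = 2 := by unfold forced; rw [if_pos hl]
      omega
    · have h2 : forced i j = 0 := by unfold forced; rw [if_neg hl]
      omega
  have hcopy := exists_copy t tsymm tex hcon
  choose! c hc1 hc2 using hcopy
  -- representatives of all labels
  set F : ℕ → Fin 49 := fun h => if h < 11 then c h else
    (if h = 11 then 44 else if h = 12 then 45 else if h = 13 then 46 else if h = 14 then 47 else 48)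
    with hF
  have hFl : ∀ h, h < 16 → lbl (F h) = h := by
    intro h hh
    by_cases h11 : h < 11
    · simp only [hF, if_pos h11]; exact hc1 h h11
    · simp only [hF, if_neg h11]
      have : h = 11 ∨ h = 12 ∨ h = 13 ∨ h = 14 ∨ h = 15 := by omega
      rcases this with rfl | rfl | rfl | rfl | rfl <;> decide
  have hFne : ∀ h h', h < 16 → h' < 16 → h ≠ h' → F h ≠ F h' := by
    intro h h' h1 h2 h3 h4
    apply h3
    rw [← hFl h h1, ← hFl h' h2, h4]
  have hFforced : ∀ h h', h < 16 → h' < 16 → forced (F h) (F h') = if lnk h h' then 2 else 0 := by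
    intro h h' h1 h2
    unfold forced
    rw [hFl h h1, hFl h' h2]
  have hexact : ∀ h h', h < 16 → h' < 16 → h ≠ h' → (h < 11 ∨ h' < 11) →
      t (F h) (F h') = if lnk h h' then 2 else 0 := by
    intro h h' h1 h2 h3 h4
    rcases h4 with h4 | h4
    · rw [← hFforced h h' h1 h2]
      have e : F h = c h := by simp only [hF, if_pos h4]
      rw [e]
      exact hc2 h h4 (F h') (by rw [hFl h' h2]; exact h3.symm)
    · rw [← hFforced h h' h1 h2, tsymm, forced_symm]
      have e : F h' = c h' := by simp only [hF, if_pos h4]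
      rw [e]
      exact hc2 h' h4 (F h) (by rw [hFl h h1]; exact h3)
  have good : Good (fun h => γ (F h)) := by
    refine ⟨?_, ?_, ?_, ?_⟩
    · intro h h' h1 h2 h3
      exact hgp _ _ (hFne h h' h1 h2 h3)
    · intro h h' h1 h2 h3 h4 h5
      have := hexact h h' h1 h2 h3 h4
      rw [h5] at this
      exact this
    · intro h h' h1 h2 h3 h4 h5
      have := hexact h h' h1 h2 h3 h4
      rw [h5] at this
      exact this
    · intro h h' h1 h2 h5
      apply hlink
      rw [hFl h h1, hFl h' h2]
      exact h5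
  have F11 : F 11 = 44 := by simp [hF]
  have F12 : F 12 = 45 := by simp [hF]
  have F13 : F 13 = 46 := by simp [hF]
  have F14 : F 14 = 47 := by simp [hF]
  have F15 : F 15 = 48 := by simp [hF]
  -- unforced crossings
  have a1 : t 45 48 ≠ 0 := by
    have := good.L3 12 (Or.inl rfl)
    simp only [F12, F15] at this
    exact this
  have a2 : t 46 48 ≠ 0 := by
    have := good.L3 13 (Or.inr rfl)
    simp only [F13, F15] at this
    exact this
  have lx1 : t 47 45 ≠ 0 := hlink 47 45 (by decide)
  have lx2 : t 47 46 ≠ 0 := hlink 47 46 (by decide)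
  have b1 : ¬ (t 44 45 = 0 ∧ t 44 47 = 0) := by
    rintro ⟨h1, h2⟩
    have := good.L1 12 14 (Or.inl rfl) (Or.inl rfl)
    simp only [F11, F12, F14] at this
    exact this lx1 h1 h2
  have b2 : ¬ (t 44 46 = 0 ∧ t 44 47 = 0) := by
    rintro ⟨h1, h2⟩
    have := good.L1 13 14 (Or.inr rfl) (Or.inl rfl)
    simp only [F11, F13, F14] at this
    exact this lx2 h1 h2
  have b3 : ¬ (t 44 45 = 0 ∧ t 44 48 = 0) := by
    rintro ⟨h1, h2⟩
    have := good.L1 12 15 (Or.inl rfl) (Or.inr rfl)
    simp only [F11, F12, F15] at this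
    exact this (by rw [Cv.t, cnt_comm]; exact a1) h1 h2
  have b4 : ¬ (t 44 46 = 0 ∧ t 44 48 = 0) := by
    rintro ⟨h1, h2⟩
    have := good.L1 13 15 (Or.inr rfl) (Or.inr rfl)
    simp only [F11, F13, F15] at this
    exact this (by rw [Cv.t, cnt_comm]; exact a2) h1 h2
  obtain ⟨r1, hr1⟩ := teven 45 48 (by decide)
  obtain ⟨r2, hr2⟩ := teven 46 48 (by decide)
  obtain ⟨r3, hr3⟩ := teven 44 45 (by decide)
  obtain ⟨r4, hr4⟩ := teven 44 46 (by decide)
  obtain ⟨r5, hr5⟩ := teven 44 47 (by decide)
  obtain ⟨r6, hr6⟩ := teven 44 48 (by decide)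
  have h8 : 8 ≤ t 45 48 + t 46 48 + t 44 45 + t 44 46 + t 44 47 + t 44 48 := by omega
  -- sum over all pairs
  set δ : Fin 49 → Fin 49 → ℕ := fun i j => if i = j then 0 else t i j - forced i j with hδ
  have htot : ∑ i, ∑ j, (if i = j then 0 else t i j) = 920 + ∑ i, ∑ j, δ i j := by
    rw [← sum_forced, ← Finset.sum_add_distrib]
    apply Finset.sum_congr rfl
    intro i _
    rw [← Finset.sum_add_distrib]
    apply Finset.sum_congr rfl
    intro j _
    simp only [hδ]
    by_cases hij : i = j
    · subst hij; simp [forced_self]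
    · rw [if_neg hij, if_neg hij]
      rcases tex i j hij with h1 | h1 <;> omega
  have hcon' : ∑ i, ∑ j, (if i = j then 0 else t i j) < 936 := hcon
  have hlt : ∑ i, ∑ j, δ i j < 16 := by omega
  have hP : ∑ p ∈ ({(45, 48), (46, 48), (44, 45), (44, 46), (44, 47), (44, 48),
      (48, 45), (48, 46), (45, 44), (46, 44), (47, 44), (48, 44)} : Finset (Fin 49 × Fin 49)),
      δ p.1 p.2 ≤ ∑ i, ∑ j, δ i j := by
    rw [← Finset.sum_product']
    exact Finset.sum_le_sum_of_subset (fun p _ => by simp)
  have hv : ∀ i j, i ≠ j → forced i j = 0 → δ i j = t i j := by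
    intro i j hij hf
    simp only [hδ]
    rw [if_neg hij, hf, Nat.sub_zero]
  have e1 : δ 45 48 = t 45 48 := hv _ _ (by decide) (by decide)
  have e2 : δ 46 48 = t 46 48 := hv _ _ (by decide) (by decide)
  have e3 : δ 44 45 = t 44 45 := hv _ _ (by decide) (by decide)
  have e4 : δ 44 46 = t 44 46 := hv _ _ (by decide) (by decide)
  have e5 : δ 44 47 = t 44 47 := hv _ _ (by decide) (by decide)
  have e6 : δ 44 48 = t 44 48 := hv _ _ (by decide) (by decide)
  have e1' : δ 48 45 = t 45 48 := by rw [tsymm]; exact hv _ _ (by decide) (by decide)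
  have e2' : δ 48 46 = t 46 48 := by rw [tsymm]; exact hv _ _ (by decide) (by decide)
  have e3' : δ 45 44 = t 44 45 := by rw [tsymm]; exact hv _ _ (by decide) (by decide)
  have e4' : δ 46 44 = t 44 46 := by rw [tsymm]; exact hv _ _ (by decide) (by decide)
  have e5' : δ 47 44 = t 44 47 := by rw [tsymm]; exact hv _ _ (by decide) (by decide)
  have e6' : δ 48 44 = t 44 48 := by rw [tsymm]; exact hv _ _ (by decide) (by decide)
  rw [Finset.sum_insert (by decide), Finset.sum_insert (by decide), Finset.sum_insert (by decide),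
    Finset.sum_insert (by decide), Finset.sum_insert (by decide), Finset.sum_insert (by decide),
    Finset.sum_insert (by decide), Finset.sum_insert (by decide), Finset.sum_insert (by decide),
    Finset.sum_insert (by decide), Finset.sum_insert (by decide), Finset.sum_singleton] at hP
  simp only [e1, e2, e3, e4, e5, e6, e1', e2', e3', e4', e5', e6'] at hP
  omega

end Pool.Agent.Lib.MP_0a0e82_gt
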