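import Pool.Agent.Lib.MP_0a0e82_gt.Columns

set_option autoImplicit false

namespace Pool.Agent.Lib.MP_0a0e82_gt

/-! Labels: 0 s, 1 g1, 2 g2, 3 k, 4 p, 5 w, 6 e1, 7 e2, 8 e3, 9 f, 10 r (four copies each),
11 a, 12 b1, 13 b2, 14 x, 15 y (single). -/

/-- label of a component -/
def lbl (i : Fin 49) : ℕ := if i.val < 44 then i.val / 4 else i.val - 33

/-- the linked pairs of labels -/
def linkList : List (ℕ × ℕ) :=
  [(0,6),(0,7),(0,8),(0,9),(0,10),(6,1),(7,2),(8,3),(9,5),(4,1),(4,2),(10,11),(3,11),(3,12),(3,13),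
   (1,11),(2,11),(1,12),(2,12),(1,13),(2,13),(4,15),(5,15),(5,14),(14,12),(14,13)]

/-- linked labels -/
def lnk (a b : ℕ) : Bool := linkList.contains (a, b) || linkList.contains (b, a)

/-- forced number of crossings -/
def forced (i j : Fin 49) : ℕ := if lnk (lbl i) (lbl j) then 2 else 0

lemma lnk_symm (a b : ℕ) : lnk a b = lnk b a := by
  unfold lnk; rw [Bool.or_comm]

lemma forced_symm (i j : Fin 49) : forced i j = forced j i := by
  unfold forced; rw [lnk_symm]

lemma sum_forced : ∑ i : Fin 49, ∑ j : Fin 49, forced i j = 920 := by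
  decide +kernel

lemma cnt_comm (l l' : List Seg) : cnt l l' = cnt l' l := by
  classical
  unfold cnt
  have hs : ∀ s t : Seg, (if Sc s t then 1 else 0) = (if Sc t s then 1 else 0) := by
    intro s t
    by_cases h : Sc s t
    · rw [if_pos h, if_pos h.symm]
    · rw [if_neg h, if_neg (fun h' => h h'.symm)]
  induction l with
  | nil => simp
  | cons s l ih =>
    simp only [List.map_cons, List.sum_cons, ih]
    rw [← List.sum_map_add]
    congr 1
    apply List.map_congr_left
    intro t _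
    congr 1
    exact hs s t

/-- six curves meeting consecutively in the complement of `T` -/
lemma chain6 {A B C D E F T : Cv} (m1 : (A.S ∩ B.S).Nonempty) (m2 : (B.S ∩ C.S).Nonempty)
    (m3 : (C.S ∩ D.S).Nonempty) (m4 : (D.S ∩ E.S).Nonempty) (m5 : (E.S ∩ F.S).Nonempty)
    (d1 : Disjoint A.S T.S) (d2 : Disjoint B.S T.S) (d3 : Disjoint C.S T.S) (d4 : Disjoint D.S T.S)
    (d5 : Disjoint E.S T.S) (d6 : Disjoint F.S T.S) : AllConn (T.S)ᶜ A.S F.S := by
  have s : ∀ {X : Cv}, Disjoint X.S T.S → X.S ⊆ (T.S)ᶜ := fun h => Set.subset_compl_iff_disjoint_right.2 h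
  have c1 := Cv.conn_of_meet (s d1) (s d2) m1
  have c2 := Cv.conn_of_meet (s d2) (s d3) m2
  have c3 := Cv.conn_of_meet (s d3) (s d4) m3
  have c4 := Cv.conn_of_meet (s d4) (s d5) m4
  have c5 := Cv.conn_of_meet (s d5) (s d6) m5
  exact ((((c1.trans c2 (m1.mono Set.inter_subset_right)).trans c3
    (m2.mono Set.inter_subset_right)).trans c4 (m3.mono Set.inter_subset_right)).trans c5
    (m4.mono Set.inter_subset_right))

/-- four curves meeting consecutively in the complement of `T` -/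
lemma chain4 {A B C D T : Cv} (m1 : (A.S ∩ B.S).Nonempty) (m2 : (B.S ∩ C.S).Nonempty)
    (m3 : (C.S ∩ D.S).Nonempty)
    (d1 : Disjoint A.S T.S) (d2 : Disjoint B.S T.S) (d3 : Disjoint C.S T.S) (d4 : Disjoint D.S T.S) :
    AllConn (T.S)ᶜ A.S D.S := by
  have s : ∀ {X : Cv}, Disjoint X.S T.S → X.S ⊆ (T.S)ᶜ := fun h => Set.subset_compl_iff_disjoint_right.2 h
  have c1 := Cv.conn_of_meet (s d1) (s d2) m1
  have c2 := Cv.conn_of_meet (s d2) (s d3) m2
  have c3 := Cv.conn_of_meet (s d3) (s d4) m3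
  exact ((c1.trans c2 (m1.mono Set.inter_subset_right)).trans c3
    (m2.mono Set.inter_subset_right))

section core

variable (C : ℕ → Cv)

/-- the hypotheses on a system of representatives of the sixteen labels -/
structure Good : Prop where
  gp : ∀ h h', h < 16 → h' < 16 → h ≠ h' → GP (C h).l (C h').l
  exact_two : ∀ h h', h < 16 → h' < 16 → h ≠ h' → (h < 11 ∨ h' < 11) → lnk h h' = true →
    (C h).t (C h') = 2
  exact_zero : ∀ h h', h < 16 → h' < 16 → h ≠ h' → (h < 11 ∨ h' < 11) → lnk h h' = false →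
    (C h).t (C h') = 0
  linked : ∀ h h', h < 16 → h' < 16 → lnk h h' = true → (C h).t (C h') ≠ 0

variable {C}

lemma Good.gp' (g : Good C) (h h' : ℕ) (hh : h < 16 ∧ h' < 16 ∧ h ≠ h') : GP (C h).l (C h').l :=
  g.gp h h' hh.1 hh.2.1 hh.2.2

lemma Good.two (g : Good C) (h h' : ℕ)
    (hh : h < 16 ∧ h' < 16 ∧ h ≠ h' ∧ (h < 11 ∨ h' < 11) ∧ lnk h h' = true) : (C h).t (C h') = 2 :=
  g.exact_two h h' hh.1 hh.2.1 hh.2.2.1 hh.2.2.2.1 hh.2.2.2.2

lemma Good.dj (g : Good C) (h h' : ℕ)
    (hh : h < 16 ∧ h' < 16 ∧ h ≠ h' ∧ (h < 11 ∨ h' < 11) ∧ lnk h h' = false) :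
    Disjoint (C h).S (C h').S :=
  disj_of_cnt_zero (g.gp h h' hh.1 hh.2.1 hh.2.2.1)
    (g.exact_zero h h' hh.1 hh.2.1 hh.2.2.1 hh.2.2.2.1 hh.2.2.2.2)

lemma Good.mt (g : Good C) (h h' : ℕ) (hh : h < 16 ∧ h' < 16 ∧ lnk h h' = true) :
    ((C h).S ∩ (C h').S).Nonempty := by
  obtain ⟨p, hp, hp'⟩ := exists_common_of_cnt (g.linked h h' hh.1 hh.2.1 hh.2.2)
  exact ⟨p, hp, hp'⟩

/-- labels of the curves in the direct columns -/
def bI : Fin 3 → ℕ := ![1, 2, 3]
def eI : Fin 3 → ℕ := ![6, 7, 8]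
def bJ : Fin 2 → ℕ := ![1, 2]
def eJ : Fin 2 → ℕ := ![6, 7]

lemma Good.L3 (g : Good C) (b : ℕ) (hb : b = 12 ∨ b = 13) : (C b).t (C 15) ≠ 0 := by
  intro h0
  have hb16 : b < 16 := by omega
  have hbne : b ≠ 15 := by omega
  have d0 : Disjoint (C b).S (C 15).S := disj_of_cnt_zero (g.gp b 15 hb16 (by decide) hbne) h0
  rcases hb with rfl | rfl
  · refine config2 (A₁ := C 12) (A₂ := C 4) (A₃ := C 0) (w := C 5) (x := C 14) (y := C 15)
      (f := C 9) (B := fun j => C (bJ j)) (e := fun j => C (eJ j))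
      (fun j => g.gp' _ _ (by revert j; decide)) (fun j => g.gp' _ _ (by revert j; decide))
      (fun j => g.two _ _ (by revert j; decide)) (fun j => g.two _ _ (by revert j; decide))
      (fun j => g.mt _ _ (by revert j; decide)) (fun j => g.mt _ _ (by revert j; decide))
      (fun j => g.dj _ _ (by revert j; decide)) (fun j => g.dj _ _ (by revert j; decide))
      (g.dj _ _ (by decide)) (g.dj _ _ (by decide)) (g.dj _ _ (by decide))
      (fun j l hjl => g.dj _ _ (by revert j l; decide)) (fun j => g.dj _ _ (by revert j; decide))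
      (fun j l hjl => g.dj _ _ (by revert j l; decide)) ?_ ?_
      (g.mt _ _ (by decide)) (g.mt _ _ (by decide)) (g.mt _ _ (by decide)) (g.mt _ _ (by decide))
      (g.mt _ _ (by decide)) (g.mt _ _ (by decide))
      (g.dj _ _ (by decide)) (fun j => g.dj _ _ (by revert j; decide)) (g.dj _ _ (by decide))
      (fun j => g.dj _ _ (by revert j; decide)) d0.symm (fun j => g.dj _ _ (by revert j; decide))
      (g.dj _ _ (by decide)) (fun j => g.dj _ _ (by revert j; decide))
      (g.dj _ _ (by decide)) (g.dj _ _ (by decide)) (g.dj _ _ (by decide))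
      (fun j => g.dj _ _ (by revert j; decide)) (fun j => g.dj _ _ (by revert j; decide))
      (g.dj _ _ (by decide)) (g.dj _ _ (by decide)) (fun j => g.dj _ _ (by revert j; decide))
    · intro j
      exact chain6 (A := C (eJ j)) (B := C 0) (C := C 9) (D := C 5) (E := C 15) (F := C 4)
        (T := C 12) (g.mt _ _ (by revert j; decide)) (g.mt _ _ (by decide)) (g.mt _ _ (by decide))
        (g.mt _ _ (by decide)) (g.mt _ _ (by decide)) (g.dj _ _ (by revert j; decide))
        (g.dj _ _ (by decide)) (g.dj _ _ (by decide)) (g.dj _ _ (by decide)) d0.symm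
        (g.dj _ _ (by decide))
    · intro j
      exact chain6 (A := C (eJ j)) (B := C 0) (C := C 9) (D := C 5) (E := C 14) (F := C 12)
        (T := C 4) (g.mt _ _ (by revert j; decide)) (g.mt _ _ (by decide)) (g.mt _ _ (by decide))
        (g.mt _ _ (by decide)) (g.mt _ _ (by decide)) (g.dj _ _ (by revert j; decide))
        (g.dj _ _ (by decide)) (g.dj _ _ (by decide)) (g.dj _ _ (by decide))
        (g.dj _ _ (by decide)) (g.dj _ _ (by decide))
  · refine config2 (A₁ := C 13) (A₂ := C 4) (A₃ := C 0) (w := C 5) (x := C 14) (y := C 15)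
      (f := C 9) (B := fun j => C (bJ j)) (e := fun j => C (eJ j))
      (fun j => g.gp' _ _ (by revert j; decide)) (fun j => g.gp' _ _ (by revert j; decide))
      (fun j => g.two _ _ (by revert j; decide)) (fun j => g.two _ _ (by revert j; decide))
      (fun j => g.mt _ _ (by revert j; decide)) (fun j => g.mt _ _ (by revert j; decide))
      (fun j => g.dj _ _ (by revert j; decide)) (fun j => g.dj _ _ (by revert j; decide))
      (g.dj _ _ (by decide)) (g.dj _ _ (by decide)) (g.dj _ _ (by decide))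
      (fun j l hjl => g.dj _ _ (by revert j l; decide)) (fun j => g.dj _ _ (by revert j; decide))
      (fun j l hjl => g.dj _ _ (by revert j l; decide)) ?_ ?_
      (g.mt _ _ (by decide)) (g.mt _ _ (by decide)) (g.mt _ _ (by decide)) (g.mt _ _ (by decide))
      (g.mt _ _ (by decide)) (g.mt _ _ (by decide))
      (g.dj _ _ (by decide)) (fun j => g.dj _ _ (by revert j; decide)) (g.dj _ _ (by decide))
      (fun j => g.dj _ _ (by revert j; decide)) d0.symm (fun j => g.dj _ _ (by revert j; decide))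
      (g.dj _ _ (by decide)) (fun j => g.dj _ _ (by revert j; decide))
      (g.dj _ _ (by decide)) (g.dj _ _ (by decide)) (g.dj _ _ (by decide))
      (fun j => g.dj _ _ (by revert j; decide)) (fun j => g.dj _ _ (by revert j; decide))
      (g.dj _ _ (by decide)) (g.dj _ _ (by decide)) (fun j => g.dj _ _ (by revert j; decide))
    · intro j
      exact chain6 (A := C (eJ j)) (B := C 0) (C := C 9) (D := C 5) (E := C 15) (F := C 4)
        (T := C 13) (g.mt _ _ (by revert j; decide)) (g.mt _ _ (by decide)) (g.mt _ _ (by decide))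
        (g.mt _ _ (by decide)) (g.mt _ _ (by decide)) (g.dj _ _ (by revert j; decide))
        (g.dj _ _ (by decide)) (g.dj _ _ (by decide)) (g.dj _ _ (by decide)) d0.symm
        (g.dj _ _ (by decide))
    · intro j
      exact chain6 (A := C (eJ j)) (B := C 0) (C := C 9) (D := C 5) (E := C 14) (F := C 13)
        (T := C 4) (g.mt _ _ (by revert j; decide)) (g.mt _ _ (by decide)) (g.mt _ _ (by decide))
        (g.mt _ _ (by decide)) (g.mt _ _ (by decide)) (g.dj _ _ (by revert j; decide))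
        (g.dj _ _ (by decide)) (g.dj _ _ (by decide)) (g.dj _ _ (by decide))
        (g.dj _ _ (by decide)) (g.dj _ _ (by decide))

/-- the second obstruction, `z` is `x` or `y` -/
lemma Good.L1 (g : Good C) (b z : ℕ) (hb : b = 12 ∨ b = 13) (hz : z = 14 ∨ z = 15)
    (hzb : (C z).t (C b) ≠ 0) (h1 : (C 11).t (C b) = 0) (h2 : (C 11).t (C z) = 0) : False := by
  have d1 : Disjoint (C 11).S (C b).S :=
    disj_of_cnt_zero (g.gp 11 b (by decide) (by omega) (by omega)) h1
  have d2 : Disjoint (C 11).S (C z).S :=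
    disj_of_cnt_zero (g.gp 11 z (by decide) (by omega) (by omega)) h2
  have m1 : ((C z).S ∩ (C b).S).Nonempty := by
    obtain ⟨p, hp, hp'⟩ := exists_common_of_cnt hzb
    exact ⟨p, hp, hp'⟩
  have key : ∀ b, b = 12 ∨ b = 13 → (∀ j, bI j < 16 ∧ b < 16 ∧ bI j ≠ b ∧ (bI j < 11 ∨ b < 11) ∧
      lnk (bI j) b = true) ∧ (∀ j, eI j < 16 ∧ b < 16 ∧ eI j ≠ b ∧ (eI j < 11 ∨ b < 11) ∧
      lnk (eI j) b = false) ∧ (b < 16 ∧ 0 < 16 ∧ b ≠ 0 ∧ (b < 11 ∨ 0 < 11) ∧ lnk b 0 = false) ∧
      (10 < 16 ∧ b < 16 ∧ 10 ≠ b ∧ (10 < 11 ∨ b < 11) ∧ lnk 10 b = false) ∧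
      (0 < 16 ∧ b < 16 ∧ 0 ≠ b ∧ (0 < 11 ∨ b < 11) ∧ lnk 0 b = false) := by
    intro b hb
    rcases hb with rfl | rfl <;> decide
  have keyz : ∀ z, z = 14 ∨ z = 15 → (5 < 16 ∧ z < 16 ∧ lnk 5 z = true) := by
    intro z hz
    rcases hz with rfl | rfl <;> decide
  obtain ⟨k1, k2, k3, k4, k5⟩ := key b hb
  refine config1 (A₁ := C 11) (A₂ := C b) (A₃ := C 0) (B := fun j => C (bI j))
    (e := fun j => C (eI j)) (fun j => g.gp' _ _ (by revert j; decide))
    (fun j => g.gp' _ _ ⟨(k1 j).1, (k1 j).2.1, (k1 j).2.2.1⟩)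
    (fun j => g.two _ _ (by revert j; decide)) (fun j => g.two _ _ (k1 j))
    (fun j => g.mt _ _ (by revert j; decide)) (fun j => g.mt _ _ (by revert j; decide))
    (fun j => g.dj _ _ (by revert j; decide)) (fun j => g.dj _ _ (k2 j))
    d1 (g.dj _ _ (by decide)) (g.dj _ _ k3)
    (fun j l hjl => g.dj _ _ (by revert j l; decide)) (fun j => g.dj _ _ (by revert j; decide))
    (fun j l hjl => g.dj _ _ (by revert j l; decide)) ?_ ?_
  · intro j
    exact chain6 (A := C (eI j)) (B := C 0) (C := C 9) (D := C 5) (E := C z) (F := C b)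
      (T := C 11) (g.mt _ _ (by revert j; decide)) (g.mt _ _ (by decide)) (g.mt _ _ (by decide))
      (g.mt _ _ (keyz z hz)) m1 (g.dj _ _ (by revert j; decide))
      (g.dj _ _ (by decide)) (g.dj _ _ (by decide)) (g.dj _ _ (by decide)) d2.symm d1.symm
  · intro j
    exact chain4 (A := C (eI j)) (B := C 0) (C := C 10) (D := C 11)
      (T := C b) (g.mt _ _ (by revert j; decide)) (g.mt _ _ (by decide)) (g.mt _ _ (by decide))
      (g.dj _ _ (k2 j)) (g.dj _ _ k5) (g.dj _ _ k4) d1

end core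

end Pool.Agent.Lib.MP_0a0e82_gt
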