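import Pool.Agent.Lib.MP_0a0e82_gt.GridDefs
import Pool.Agent.Lib.MP_0a0e82_gt.Lower

/-!
# The two diagrams (data)

Both are rectilinear diagrams of the same 49-component virtual link; they differ only in the height of
one horizontal edge of component 44 (label a).
-/

set_option autoImplicit false
set_option maxRecDepth 100000

namespace Pool.Agent.Lib.MP_0a0e82_gt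

/-- kinds of the crossings, the same rule for both diagrams -/
def kindRule (e : HEdge 49) (f : VEdge 49) : Kind :=
  let a := lbl e.comp
  let b := lbl f.comp
  if ((a == 12 || a == 13 || a == 11) && b == 15) || (a == 15 && (b == 12 || b == 13 || b == 11)) then
    Kind.virt
  else if (a == 11 || a == 12 || a == 13) && b == 1 && f.idx == 0 then Kind.virt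
  else if (a == 11 || a == 12 || a == 13) && b == 2 && f.idx == 1 then Kind.virt
  else if a == 11 && (b == 12 || b == 13 || b == 14) then Kind.above
  else if b == 11 && (a == 12 || a == 13 || a == 14) then Kind.below
  else if (decide (e.x₁ < e.x₂) == decide (f.y₁ < f.y₂)) then Kind.above
  else Kind.below

/-- corners of the components, diagram A -/
def cornersA : List (List (ℕ × ℕ)) := [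
  [(0, 0), (100, 27)],
  [(1, 1), (99, 26)],
  [(2, 2), (98, 25)],
  [(3, 3), (97, 24)],
  [(15, 42), (37, 96)],
  [(16, 45), (36, 94)],
  [(17, 48), (35, 92)],
  [(18, 51), (34, 90)],
  [(58, 43), (80, 97)],
  [(59, 46), (79, 95)],
  [(60, 49), (78, 93)],
  [(61, 52), (77, 91)],
  [(81, 44), (96, 101)],
  [(82, 47), (95, 100)],
  [(83, 50), (94, 99)],
  [(84, 53), (93, 98)],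
  [(30, 70), (65, 78)],
  [(31, 71), (64, 77)],
  [(32, 72), (63, 76)],
  [(33, 73), (62, 75)],
  [(38, 28), (57, 41)],
  [(39, 29), (56, 40)],
  [(40, 30), (55, 39)],
  [(41, 31), (54, 38)],
  [(20, 4), (29, 63)],
  [(21, 9), (28, 60)],
  [(22, 14), (27, 57)],
  [(23, 19), (26, 54)],
  [(66, 5), (75, 64)],
  [(67, 10), (74, 61)],
  [(68, 15), (73, 58)],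
  [(69, 20), (72, 55)],
  [(85, 6), (92, 65)],
  [(86, 11), (91, 62)],
  [(87, 16), (90, 59)],
  [(88, 21), (89, 56)],
  [(44, 7), (51, 35)],
  [(45, 12), (50, 34)],
  [(46, 17), (49, 33)],
  [(47, 22), (48, 32)],
  [(7, 8), (14, 85)],
  [(8, 13), (13, 84)],
  [(9, 18), (12, 83)],
  [(10, 23), (11, 82)],
  [(4, 80), (19, 79), (76, 81), (103, 104)],
  [(6, 88), (25, 68), (70, 89), (101, 102)],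
  [(5, 86), (24, 67), (71, 87), (102, 103)],
  [(42, 36), (43, 69)],
  [(52, 37), (53, 74)]]

/-- rows, diagram A -/
def HTA : List (HEdge 49) := [⟨0, 0, 0, 0, 100⟩, ⟨1, 0, 1, 1, 99⟩, ⟨2, 0, 2, 2, 98⟩, ⟨3, 0, 3, 3, 97⟩, ⟨24, 0, 4, 20, 29⟩,
  ⟨28, 0, 5, 66, 75⟩, ⟨32, 0, 6, 85, 92⟩, ⟨36, 0, 7, 44, 51⟩, ⟨40, 0, 8, 7, 14⟩, ⟨25, 0, 9, 21, 28⟩,
  ⟨29, 0, 10, 67, 74⟩, ⟨33, 0, 11, 86, 91⟩, ⟨37, 0, 12, 45, 50⟩, ⟨41, 0, 13, 8, 13⟩, ⟨26, 0, 14, 22, 27⟩,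
  ⟨30, 0, 15, 68, 73⟩, ⟨34, 0, 16, 87, 90⟩, ⟨38, 0, 17, 46, 49⟩, ⟨42, 0, 18, 9, 12⟩, ⟨27, 0, 19, 23, 26⟩,
  ⟨31, 0, 20, 69, 72⟩, ⟨35, 0, 21, 88, 89⟩, ⟨39, 0, 22, 47, 48⟩, ⟨43, 0, 23, 10, 11⟩, ⟨3, 1, 24, 97, 3⟩,
  ⟨2, 1, 25, 98, 2⟩, ⟨1, 1, 26, 99, 1⟩, ⟨0, 1, 27, 100, 0⟩, ⟨20, 0, 28, 38, 57⟩, ⟨21, 0, 29, 39, 56⟩,
  ⟨22, 0, 30, 40, 55⟩, ⟨23, 0, 31, 41, 54⟩, ⟨39, 1, 32, 48, 47⟩, ⟨38, 1, 33, 49, 46⟩, ⟨37, 1, 34, 50, 45⟩,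
  ⟨36, 1, 35, 51, 44⟩, ⟨47, 0, 36, 42, 43⟩, ⟨48, 0, 37, 52, 53⟩, ⟨23, 1, 38, 54, 41⟩, ⟨22, 1, 39, 55, 40⟩,
  ⟨21, 1, 40, 56, 39⟩, ⟨20, 1, 41, 57, 38⟩, ⟨4, 0, 42, 15, 37⟩, ⟨8, 0, 43, 58, 80⟩, ⟨12, 0, 44, 81, 96⟩,
  ⟨5, 0, 45, 16, 36⟩, ⟨9, 0, 46, 59, 79⟩, ⟨13, 0, 47, 82, 95⟩, ⟨6, 0, 48, 17, 35⟩, ⟨10, 0, 49, 60, 78⟩,
  ⟨14, 0, 50, 83, 94⟩, ⟨7, 0, 51, 18, 34⟩, ⟨11, 0, 52, 61, 77⟩, ⟨15, 0, 53, 84, 93⟩, ⟨27, 1, 54, 26, 23⟩,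
  ⟨31, 1, 55, 72, 69⟩, ⟨35, 1, 56, 89, 88⟩, ⟨26, 1, 57, 27, 22⟩, ⟨30, 1, 58, 73, 68⟩, ⟨34, 1, 59, 90, 87⟩,
  ⟨25, 1, 60, 28, 21⟩, ⟨29, 1, 61, 74, 67⟩, ⟨33, 1, 62, 91, 86⟩, ⟨24, 1, 63, 29, 20⟩, ⟨28, 1, 64, 75, 66⟩,
  ⟨32, 1, 65, 92, 85⟩, ⟨46, 1, 67, 24, 71⟩, ⟨45, 1, 68, 25, 70⟩, ⟨47, 1, 69, 43, 42⟩, ⟨16, 0, 70, 30, 65⟩,
  ⟨17, 0, 71, 31, 64⟩, ⟨18, 0, 72, 32, 63⟩, ⟨19, 0, 73, 33, 62⟩, ⟨48, 1, 74, 53, 52⟩, ⟨19, 1, 75, 62, 33⟩,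
  ⟨18, 1, 76, 63, 32⟩, ⟨17, 1, 77, 64, 31⟩, ⟨16, 1, 78, 65, 30⟩, ⟨44, 1, 79, 19, 76⟩, ⟨44, 0, 80, 4, 19⟩,
  ⟨44, 2, 81, 76, 103⟩, ⟨43, 1, 82, 11, 10⟩, ⟨42, 1, 83, 12, 9⟩, ⟨41, 1, 84, 13, 8⟩, ⟨40, 1, 85, 14, 7⟩,
  ⟨46, 0, 86, 5, 24⟩, ⟨46, 2, 87, 71, 102⟩, ⟨45, 0, 88, 6, 25⟩, ⟨45, 2, 89, 70, 101⟩, ⟨7, 1, 90, 34, 18⟩,
  ⟨11, 1, 91, 77, 61⟩, ⟨6, 1, 92, 35, 17⟩, ⟨10, 1, 93, 78, 60⟩, ⟨5, 1, 94, 36, 16⟩, ⟨9, 1, 95, 79, 59⟩,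
  ⟨4, 1, 96, 37, 15⟩, ⟨8, 1, 97, 80, 58⟩, ⟨15, 1, 98, 93, 84⟩, ⟨14, 1, 99, 94, 83⟩, ⟨13, 1, 100, 95, 82⟩,
  ⟨12, 1, 101, 96, 81⟩, ⟨45, 3, 102, 101, 6⟩, ⟨46, 3, 103, 102, 5⟩, ⟨44, 3, 104, 103, 4⟩]

/-- columns, diagram A -/
def VTA : List (VEdge 49) := [⟨0, 1, 0, 27, 0⟩, ⟨1, 1, 1, 26, 1⟩, ⟨2, 1, 2, 25, 2⟩, ⟨3, 1, 3, 24, 3⟩, ⟨44, 3, 4, 104, 80⟩,
  ⟨46, 3, 5, 103, 86⟩, ⟨45, 3, 6, 102, 88⟩, ⟨40, 1, 7, 85, 8⟩, ⟨41, 1, 8, 84, 13⟩, ⟨42, 1, 9, 83, 18⟩,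
  ⟨43, 1, 10, 82, 23⟩, ⟨43, 0, 11, 23, 82⟩, ⟨42, 0, 12, 18, 83⟩, ⟨41, 0, 13, 13, 84⟩, ⟨40, 0, 14, 8, 85⟩,
  ⟨4, 1, 15, 96, 42⟩, ⟨5, 1, 16, 94, 45⟩, ⟨6, 1, 17, 92, 48⟩, ⟨7, 1, 18, 90, 51⟩, ⟨44, 0, 19, 80, 79⟩,
  ⟨24, 1, 20, 63, 4⟩, ⟨25, 1, 21, 60, 9⟩, ⟨26, 1, 22, 57, 14⟩, ⟨27, 1, 23, 54, 19⟩, ⟨46, 0, 24, 86, 67⟩,
  ⟨45, 0, 25, 88, 68⟩, ⟨27, 0, 26, 19, 54⟩, ⟨26, 0, 27, 14, 57⟩, ⟨25, 0, 28, 9, 60⟩, ⟨24, 0, 29, 4, 63⟩,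
  ⟨16, 1, 30, 78, 70⟩, ⟨17, 1, 31, 77, 71⟩, ⟨18, 1, 32, 76, 72⟩, ⟨19, 1, 33, 75, 73⟩, ⟨7, 0, 34, 51, 90⟩,
  ⟨6, 0, 35, 48, 92⟩, ⟨5, 0, 36, 45, 94⟩, ⟨4, 0, 37, 42, 96⟩, ⟨20, 1, 38, 41, 28⟩, ⟨21, 1, 39, 40, 29⟩,
  ⟨22, 1, 40, 39, 30⟩, ⟨23, 1, 41, 38, 31⟩, ⟨47, 1, 42, 69, 36⟩, ⟨47, 0, 43, 36, 69⟩, ⟨36, 1, 44, 35, 7⟩,
  ⟨37, 1, 45, 34, 12⟩, ⟨38, 1, 46, 33, 17⟩, ⟨39, 1, 47, 32, 22⟩, ⟨39, 0, 48, 22, 32⟩, ⟨38, 0, 49, 17, 33⟩,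
  ⟨37, 0, 50, 12, 34⟩, ⟨36, 0, 51, 7, 35⟩, ⟨48, 1, 52, 74, 37⟩, ⟨48, 0, 53, 37, 74⟩, ⟨23, 0, 54, 31, 38⟩,
  ⟨22, 0, 55, 30, 39⟩, ⟨21, 0, 56, 29, 40⟩, ⟨20, 0, 57, 28, 41⟩, ⟨8, 1, 58, 97, 43⟩, ⟨9, 1, 59, 95, 46⟩,
  ⟨10, 1, 60, 93, 49⟩, ⟨11, 1, 61, 91, 52⟩, ⟨19, 0, 62, 73, 75⟩, ⟨18, 0, 63, 72, 76⟩, ⟨17, 0, 64, 71, 77⟩,
  ⟨16, 0, 65, 70, 78⟩, ⟨28, 1, 66, 64, 5⟩, ⟨29, 1, 67, 61, 10⟩, ⟨30, 1, 68, 58, 15⟩, ⟨31, 1, 69, 55, 20⟩,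
  ⟨45, 1, 70, 68, 89⟩, ⟨46, 1, 71, 67, 87⟩, ⟨31, 0, 72, 20, 55⟩, ⟨30, 0, 73, 15, 58⟩, ⟨29, 0, 74, 10, 61⟩,
  ⟨28, 0, 75, 5, 64⟩, ⟨44, 1, 76, 79, 81⟩, ⟨11, 0, 77, 52, 91⟩, ⟨10, 0, 78, 49, 93⟩, ⟨9, 0, 79, 46, 95⟩,
  ⟨8, 0, 80, 43, 97⟩, ⟨12, 1, 81, 101, 44⟩, ⟨13, 1, 82, 100, 47⟩, ⟨14, 1, 83, 99, 50⟩, ⟨15, 1, 84, 98, 53⟩,
  ⟨32, 1, 85, 65, 6⟩, ⟨33, 1, 86, 62, 11⟩, ⟨34, 1, 87, 59, 16⟩, ⟨35, 1, 88, 56, 21⟩, ⟨35, 0, 89, 21, 56⟩,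
  ⟨34, 0, 90, 16, 59⟩, ⟨33, 0, 91, 11, 62⟩, ⟨32, 0, 92, 6, 65⟩, ⟨15, 0, 93, 53, 98⟩, ⟨14, 0, 94, 50, 99⟩,
  ⟨13, 0, 95, 47, 100⟩, ⟨12, 0, 96, 44, 101⟩, ⟨3, 0, 97, 3, 24⟩, ⟨2, 0, 98, 2, 25⟩, ⟨1, 0, 99, 1, 26⟩,
  ⟨0, 0, 100, 0, 27⟩, ⟨45, 2, 101, 89, 102⟩, ⟨46, 2, 102, 87, 103⟩, ⟨44, 2, 103, 81, 104⟩]

def hA (i : Fin 49) : ℕ := (cornersA.getD i.val []).length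
def xA (i : Fin 49) (r : ℕ) : ℕ := ((cornersA.getD i.val []).getD (r % hA i) (0, 0)).1
def yA (i : Fin 49) (r : ℕ) : ℕ := ((cornersA.getD i.val []).getD (r % hA i) (0, 0)).2

theorem hA_two : ∀ i, 2 ≤ hA i := by decide +kernel
theorem xA_per : ∀ i, xA i (hA i) = xA i 0 := by decide +kernel
theorem yA_per : ∀ i, yA i (hA i) = yA i 0 := by decide +kernel
theorem HTA_sound : ∀ e ∈ HTA, e.idx < hA e.comp ∧ e.y = yA e.comp e.idx ∧ e.x₁ = xA e.comp e.idx ∧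
    e.x₂ = xA e.comp (e.idx + 1) := by decide +kernel
theorem VTA_sound : ∀ f ∈ VTA, f.idx < hA f.comp ∧ f.x = xA f.comp (f.idx + 1) ∧
    f.y₁ = yA f.comp f.idx ∧ f.y₂ = yA f.comp (f.idx + 1) := by decide +kernel
theorem HTA_complete : ∀ i, ∀ r < hA i, ∃ e ∈ HTA, e.comp = i ∧ e.idx = r := by decide +kernel
theorem VTA_complete : ∀ i, ∀ r < hA i, ∃ f ∈ VTA, f.comp = i ∧ f.idx = r := by decide +kernel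
theorem HTA_sorted : HTA.Pairwise fun e e' => e.y < e'.y := by decide +kernel
theorem VTA_sorted : VTA.Pairwise fun f f' => f.x < f'.x := by decide +kernel
theorem xA_lt : ∀ f ∈ VTA, f.x < 104 := by decide +kernel

/-- diagram A -/
def TA : Grid 49 where
  h := hA
  x := xA
  y := yA
  HT := HTA
  VT := VTA
  k0 := kindRule
  N := 104
  two_le := hA_two
  xper := xA_per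
  yper := yA_per
  HT_sound := HTA_sound
  VT_sound := VTA_sound
  HT_complete := HTA_complete
  VT_complete := VTA_complete
  HT_sorted := HTA_sorted
  VT_sorted := VTA_sorted
  x_lt := xA_lt

/-- corners of the components, diagram B -/
def cornersB : List (List (ℕ × ℕ)) := [
  [(0, 0), (100, 27)],
  [(1, 1), (99, 26)],
  [(2, 2), (98, 25)],
  [(3, 3), (97, 24)],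
  [(15, 42), (37, 96)],
  [(16, 45), (36, 94)],
  [(17, 48), (35, 92)],
  [(18, 51), (34, 90)],
  [(58, 43), (80, 97)],
  [(59, 46), (79, 95)],
  [(60, 49), (78, 93)],
  [(61, 52), (77, 91)],
  [(81, 44), (96, 101)],
  [(82, 47), (95, 100)],
  [(83, 50), (94, 99)],
  [(84, 53), (93, 98)],
  [(30, 70), (65, 78)],
  [(31, 71), (64, 77)],
  [(32, 72), (63, 76)],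
  [(33, 73), (62, 75)],
  [(38, 28), (57, 41)],
  [(39, 29), (56, 40)],
  [(40, 30), (55, 39)],
  [(41, 31), (54, 38)],
  [(20, 4), (29, 63)],
  [(21, 9), (28, 60)],
  [(22, 14), (27, 57)],
  [(23, 19), (26, 54)],
  [(66, 5), (75, 64)],
  [(67, 10), (74, 61)],
  [(68, 15), (73, 58)],
  [(69, 20), (72, 55)],
  [(85, 6), (92, 65)],
  [(86, 11), (91, 62)],
  [(87, 16), (90, 59)],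
  [(88, 21), (89, 56)],
  [(44, 7), (51, 35)],
  [(45, 12), (50, 34)],
  [(46, 17), (49, 33)],
  [(47, 22), (48, 32)],
  [(7, 8), (14, 85)],
  [(8, 13), (13, 84)],
  [(9, 18), (12, 83)],
  [(10, 23), (11, 82)],
  [(4, 80), (19, 66), (76, 81), (103, 104)],
  [(6, 88), (25, 68), (70, 89), (101, 102)],
  [(5, 86), (24, 67), (71, 87), (102, 103)],
  [(42, 36), (43, 69)],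
  [(52, 37), (53, 74)]]

/-- rows, diagram B -/
def HTB : List (HEdge 49) := [⟨0, 0, 0, 0, 100⟩, ⟨1, 0, 1, 1, 99⟩, ⟨2, 0, 2, 2, 98⟩, ⟨3, 0, 3, 3, 97⟩, ⟨24, 0, 4, 20, 29⟩,
  ⟨28, 0, 5, 66, 75⟩, ⟨32, 0, 6, 85, 92⟩, ⟨36, 0, 7, 44, 51⟩, ⟨40, 0, 8, 7, 14⟩, ⟨25, 0, 9, 21, 28⟩,
  ⟨29, 0, 10, 67, 74⟩, ⟨33, 0, 11, 86, 91⟩, ⟨37, 0, 12, 45, 50⟩, ⟨41, 0, 13, 8, 13⟩, ⟨26, 0, 14, 22, 27⟩,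
  ⟨30, 0, 15, 68, 73⟩, ⟨34, 0, 16, 87, 90⟩, ⟨38, 0, 17, 46, 49⟩, ⟨42, 0, 18, 9, 12⟩, ⟨27, 0, 19, 23, 26⟩,
  ⟨31, 0, 20, 69, 72⟩, ⟨35, 0, 21, 88, 89⟩, ⟨39, 0, 22, 47, 48⟩, ⟨43, 0, 23, 10, 11⟩, ⟨3, 1, 24, 97, 3⟩,
  ⟨2, 1, 25, 98, 2⟩, ⟨1, 1, 26, 99, 1⟩, ⟨0, 1, 27, 100, 0⟩, ⟨20, 0, 28, 38, 57⟩, ⟨21, 0, 29, 39, 56⟩,
  ⟨22, 0, 30, 40, 55⟩, ⟨23, 0, 31, 41, 54⟩, ⟨39, 1, 32, 48, 47⟩, ⟨38, 1, 33, 49, 46⟩, ⟨37, 1, 34, 50, 45⟩,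
  ⟨36, 1, 35, 51, 44⟩, ⟨47, 0, 36, 42, 43⟩, ⟨48, 0, 37, 52, 53⟩, ⟨23, 1, 38, 54, 41⟩, ⟨22, 1, 39, 55, 40⟩,
  ⟨21, 1, 40, 56, 39⟩, ⟨20, 1, 41, 57, 38⟩, ⟨4, 0, 42, 15, 37⟩, ⟨8, 0, 43, 58, 80⟩, ⟨12, 0, 44, 81, 96⟩,
  ⟨5, 0, 45, 16, 36⟩, ⟨9, 0, 46, 59, 79⟩, ⟨13, 0, 47, 82, 95⟩, ⟨6, 0, 48, 17, 35⟩, ⟨10, 0, 49, 60, 78⟩,
  ⟨14, 0, 50, 83, 94⟩, ⟨7, 0, 51, 18, 34⟩, ⟨11, 0, 52, 61, 77⟩, ⟨15, 0, 53, 84, 93⟩, ⟨27, 1, 54, 26, 23⟩,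
  ⟨31, 1, 55, 72, 69⟩, ⟨35, 1, 56, 89, 88⟩, ⟨26, 1, 57, 27, 22⟩, ⟨30, 1, 58, 73, 68⟩, ⟨34, 1, 59, 90, 87⟩,
  ⟨25, 1, 60, 28, 21⟩, ⟨29, 1, 61, 74, 67⟩, ⟨33, 1, 62, 91, 86⟩, ⟨24, 1, 63, 29, 20⟩, ⟨28, 1, 64, 75, 66⟩,
  ⟨32, 1, 65, 92, 85⟩, ⟨44, 1, 66, 19, 76⟩, ⟨46, 1, 67, 24, 71⟩, ⟨45, 1, 68, 25, 70⟩, ⟨47, 1, 69, 43, 42⟩,
  ⟨16, 0, 70, 30, 65⟩, ⟨17, 0, 71, 31, 64⟩, ⟨18, 0, 72, 32, 63⟩, ⟨19, 0, 73, 33, 62⟩, ⟨48, 1, 74, 53, 52⟩,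
  ⟨19, 1, 75, 62, 33⟩, ⟨18, 1, 76, 63, 32⟩, ⟨17, 1, 77, 64, 31⟩, ⟨16, 1, 78, 65, 30⟩, ⟨44, 0, 80, 4, 19⟩,
  ⟨44, 2, 81, 76, 103⟩, ⟨43, 1, 82, 11, 10⟩, ⟨42, 1, 83, 12, 9⟩, ⟨41, 1, 84, 13, 8⟩, ⟨40, 1, 85, 14, 7⟩,
  ⟨46, 0, 86, 5, 24⟩, ⟨46, 2, 87, 71, 102⟩, ⟨45, 0, 88, 6, 25⟩, ⟨45, 2, 89, 70, 101⟩, ⟨7, 1, 90, 34, 18⟩,
  ⟨11, 1, 91, 77, 61⟩, ⟨6, 1, 92, 35, 17⟩, ⟨10, 1, 93, 78, 60⟩, ⟨5, 1, 94, 36, 16⟩, ⟨9, 1, 95, 79, 59⟩,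
  ⟨4, 1, 96, 37, 15⟩, ⟨8, 1, 97, 80, 58⟩, ⟨15, 1, 98, 93, 84⟩, ⟨14, 1, 99, 94, 83⟩, ⟨13, 1, 100, 95, 82⟩,
  ⟨12, 1, 101, 96, 81⟩, ⟨45, 3, 102, 101, 6⟩, ⟨46, 3, 103, 102, 5⟩, ⟨44, 3, 104, 103, 4⟩]

/-- columns, diagram B -/
def VTB : List (VEdge 49) := [⟨0, 1, 0, 27, 0⟩, ⟨1, 1, 1, 26, 1⟩, ⟨2, 1, 2, 25, 2⟩, ⟨3, 1, 3, 24, 3⟩, ⟨44, 3, 4, 104, 80⟩,
  ⟨46, 3, 5, 103, 86⟩, ⟨45, 3, 6, 102, 88⟩, ⟨40, 1, 7, 85, 8⟩, ⟨41, 1, 8, 84, 13⟩, ⟨42, 1, 9, 83, 18⟩,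
  ⟨43, 1, 10, 82, 23⟩, ⟨43, 0, 11, 23, 82⟩, ⟨42, 0, 12, 18, 83⟩, ⟨41, 0, 13, 13, 84⟩, ⟨40, 0, 14, 8, 85⟩,
  ⟨4, 1, 15, 96, 42⟩, ⟨5, 1, 16, 94, 45⟩, ⟨6, 1, 17, 92, 48⟩, ⟨7, 1, 18, 90, 51⟩, ⟨44, 0, 19, 80, 66⟩,
  ⟨24, 1, 20, 63, 4⟩, ⟨25, 1, 21, 60, 9⟩, ⟨26, 1, 22, 57, 14⟩, ⟨27, 1, 23, 54, 19⟩, ⟨46, 0, 24, 86, 67⟩,
  ⟨45, 0, 25, 88, 68⟩, ⟨27, 0, 26, 19, 54⟩, ⟨26, 0, 27, 14, 57⟩, ⟨25, 0, 28, 9, 60⟩, ⟨24, 0, 29, 4, 63⟩,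
  ⟨16, 1, 30, 78, 70⟩, ⟨17, 1, 31, 77, 71⟩, ⟨18, 1, 32, 76, 72⟩, ⟨19, 1, 33, 75, 73⟩, ⟨7, 0, 34, 51, 90⟩,
  ⟨6, 0, 35, 48, 92⟩, ⟨5, 0, 36, 45, 94⟩, ⟨4, 0, 37, 42, 96⟩, ⟨20, 1, 38, 41, 28⟩, ⟨21, 1, 39, 40, 29⟩,
  ⟨22, 1, 40, 39, 30⟩, ⟨23, 1, 41, 38, 31⟩, ⟨47, 1, 42, 69, 36⟩, ⟨47, 0, 43, 36, 69⟩, ⟨36, 1, 44, 35, 7⟩,
  ⟨37, 1, 45, 34, 12⟩, ⟨38, 1, 46, 33, 17⟩, ⟨39, 1, 47, 32, 22⟩, ⟨39, 0, 48, 22, 32⟩, ⟨38, 0, 49, 17, 33⟩,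
  ⟨37, 0, 50, 12, 34⟩, ⟨36, 0, 51, 7, 35⟩, ⟨48, 1, 52, 74, 37⟩, ⟨48, 0, 53, 37, 74⟩, ⟨23, 0, 54, 31, 38⟩,
  ⟨22, 0, 55, 30, 39⟩, ⟨21, 0, 56, 29, 40⟩, ⟨20, 0, 57, 28, 41⟩, ⟨8, 1, 58, 97, 43⟩, ⟨9, 1, 59, 95, 46⟩,
  ⟨10, 1, 60, 93, 49⟩, ⟨11, 1, 61, 91, 52⟩, ⟨19, 0, 62, 73, 75⟩, ⟨18, 0, 63, 72, 76⟩, ⟨17, 0, 64, 71, 77⟩,
  ⟨16, 0, 65, 70, 78⟩, ⟨28, 1, 66, 64, 5⟩, ⟨29, 1, 67, 61, 10⟩, ⟨30, 1, 68, 58, 15⟩, ⟨31, 1, 69, 55, 20⟩,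
  ⟨45, 1, 70, 68, 89⟩, ⟨46, 1, 71, 67, 87⟩, ⟨31, 0, 72, 20, 55⟩, ⟨30, 0, 73, 15, 58⟩, ⟨29, 0, 74, 10, 61⟩,
  ⟨28, 0, 75, 5, 64⟩, ⟨44, 1, 76, 66, 81⟩, ⟨11, 0, 77, 52, 91⟩, ⟨10, 0, 78, 49, 93⟩, ⟨9, 0, 79, 46, 95⟩,
  ⟨8, 0, 80, 43, 97⟩, ⟨12, 1, 81, 101, 44⟩, ⟨13, 1, 82, 100, 47⟩, ⟨14, 1, 83, 99, 50⟩, ⟨15, 1, 84, 98, 53⟩,
  ⟨32, 1, 85, 65, 6⟩, ⟨33, 1, 86, 62, 11⟩, ⟨34, 1, 87, 59, 16⟩, ⟨35, 1, 88, 56, 21⟩, ⟨35, 0, 89, 21, 56⟩,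
  ⟨34, 0, 90, 16, 59⟩, ⟨33, 0, 91, 11, 62⟩, ⟨32, 0, 92, 6, 65⟩, ⟨15, 0, 93, 53, 98⟩, ⟨14, 0, 94, 50, 99⟩,
  ⟨13, 0, 95, 47, 100⟩, ⟨12, 0, 96, 44, 101⟩, ⟨3, 0, 97, 3, 24⟩, ⟨2, 0, 98, 2, 25⟩, ⟨1, 0, 99, 1, 26⟩,
  ⟨0, 0, 100, 0, 27⟩, ⟨45, 2, 101, 89, 102⟩, ⟨46, 2, 102, 87, 103⟩, ⟨44, 2, 103, 81, 104⟩]

def hB (i : Fin 49) : ℕ := (cornersB.getD i.val []).length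
def xB (i : Fin 49) (r : ℕ) : ℕ := ((cornersB.getD i.val []).getD (r % hB i) (0, 0)).1
def yB (i : Fin 49) (r : ℕ) : ℕ := ((cornersB.getD i.val []).getD (r % hB i) (0, 0)).2

theorem hB_two : ∀ i, 2 ≤ hB i := by decide +kernel
theorem xB_per : ∀ i, xB i (hB i) = xB i 0 := by decide +kernel
theorem yB_per : ∀ i, yB i (hB i) = yB i 0 := by decide +kernel
theorem HTB_sound : ∀ e ∈ HTB, e.idx < hB e.comp ∧ e.y = yB e.comp e.idx ∧ e.x₁ = xB e.comp e.idx ∧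
    e.x₂ = xB e.comp (e.idx + 1) := by decide +kernel
theorem VTB_sound : ∀ f ∈ VTB, f.idx < hB f.comp ∧ f.x = xB f.comp (f.idx + 1) ∧
    f.y₁ = yB f.comp f.idx ∧ f.y₂ = yB f.comp (f.idx + 1) := by decide +kernel
theorem HTB_complete : ∀ i, ∀ r < hB i, ∃ e ∈ HTB, e.comp = i ∧ e.idx = r := by decide +kernel
theorem VTB_complete : ∀ i, ∀ r < hB i, ∃ f ∈ VTB, f.comp = i ∧ f.idx = r := by decide +kernel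
theorem HTB_sorted : HTB.Pairwise fun e e' => e.y < e'.y := by decide +kernel
theorem VTB_sorted : VTB.Pairwise fun f f' => f.x < f'.x := by decide +kernel
theorem xB_lt : ∀ f ∈ VTB, f.x < 104 := by decide +kernel

/-- diagram B -/
def TB : Grid 49 where
  h := hB
  x := xB
  y := yB
  HT := HTB
  VT := VTB
  k0 := kindRule
  N := 104
  two_le := hB_two
  xper := xB_per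
  yper := yB_per
  HT_sound := HTB_sound
  VT_sound := VTB_sound
  HT_complete := HTB_complete
  VT_complete := VTB_complete
  HT_sorted := HTB_sorted
  VT_sorted := VTB_sorted
  x_lt := xB_lt


end Pool.Agent.Lib.MP_0a0e82_gt
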