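import Mathlib

/-!
# Virtual link diagrams, Gauss codes and crossing numbers (definitions for MP_0a0e82_gt)

* A virtual link diagram is a finite family of closed polygons in `ℝ²` in general position (edges
  meet only in finitely many transversal double points, which are interior to the edges, apart from the
  common vertex of two consecutive edges), every double point being marked as virtual
  or as classical with over/under information.
* A virtual link is an equivalence class of such diagrams, two diagrams being equivalent when their
  signed Gauss codes (which record the classical crossings only) are related by the classical Reidemeister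
  moves.  By the detour theorem this is the same as equivalence under planar isotopy and the generalised
  Reidemeister moves.  Changes of base point, names of crossings, order of the components and
  orientation of components are moves too, so links are unordered and unoriented.
-/

set_option autoImplicit false

namespace Pool.Agent.Lib.MP_0a0e82_gt

/-! ### Segments in the plane -/

/-- Points, and vectors, of the plane `ℝ²`. -/
abbrev Pt : Type := ℝ × ℝ

/-- The determinant of two plane vectors. -/
def det2 (u v : Pt) : ℝ := u.1 * v.2 - u.2 * v.1

/-- The segments `[a,b]` and `[c,d]` cross transversally: they are not parallel and they have a common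
point that is interior to both. -/
def SegCross (a b c d : Pt) : Prop :=
  det2 (b - a) (d - c) ≠ 0 ∧ ∃ p, p ∈ openSegment ℝ a b ∧ p ∈ openSegment ℝ c d

/-- For non-parallel segments: the parameter `t` for which `a + t (b - a)` is the common point of the
lines through `a, b` and through `c, d`. -/
noncomputable def segPar (a b c d : Pt) : ℝ := det2 (c - a) (d - c) / det2 (b - a) (d - c)

/-! ### Closed polygons and diagrams -/

/-- `m` closed polygons in the plane.  Polygon `i` has the vertices `v i 0, …, v i (n i - 1)` and the
edges from `v i k` to `v i (k + 1)` for `k < n i`, where `v i (n i) = v i 0`. -/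
structure Polygons (m : ℕ) where
  n : Fin m → ℕ
  v : Fin m → ℕ → Pt
  three_le : ∀ i, 3 ≤ n i
  closed : ∀ i, v i (n i) = v i 0

namespace Polygons

variable {m : ℕ} (P : Polygons m)

/-- Edges are named by pairs `(i, k)` with `k < n i`: the `k`-th edge of polygon `i`. -/
def IsEdge (e : Fin m × ℕ) : Prop := e.2 < P.n e.1

/-- The first end point of an edge. -/
def src (e : Fin m × ℕ) : Pt := P.v e.1 e.2

/-- The last end point of an edge. -/
def tgt (e : Fin m × ℕ) : Pt := P.v e.1 (e.2 + 1)

/-- The direction vector of an edge. -/
def dir (e : Fin m × ℕ) : Pt := P.tgt e - P.src e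

/-- The edge as a subset of the plane. -/
def seg (e : Fin m × ℕ) : Set Pt := segment ℝ (P.src e) (P.tgt e)

/-- The next edge of the same polygon, in cyclic order. -/
def succ (e : Fin m × ℕ) : Fin m × ℕ := (e.1, (e.2 + 1) % P.n e.1)

/-- Two edges cross transversally at a point interior to both. -/
def Cross (e f : Fin m × ℕ) : Prop := SegCross (P.src e) (P.tgt e) (P.src f) (P.tgt f)

/-- The position (between `0` and `1`) on the edge `e` of its crossing point with the edge `f`. -/
noncomputable def par (e f : Fin m × ℕ) : ℝ := segPar (P.src e) (P.tgt e) (P.src f) (P.tgt f)

/-- The finite set of all edges. -/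
def edges : Finset (Fin m × ℕ) :=
  Finset.univ.biUnion fun i : Fin m => (Finset.range (P.n i)).image fun k => (i, k)

end Polygons

/-- The three kinds of passage of one edge across another: a virtual crossing, or a classical crossing
at which the first edge is over, or under, the second one. -/
inductive Kind : Type
  | virt : Kind
  | above : Kind
  | below : Kind
  deriving DecidableEq

/-- The kind of the same crossing seen from the other edge. -/
def Kind.flip : Kind → Kind
  | Kind.virt => Kind.virt
  | Kind.above => Kind.below
  | Kind.below => Kind.above

/-- A virtual link diagram with `m` components: `m` closed polygons in `ℝ²` in general position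
together with the kind `kind e f` of each crossing of two edges `e`, `f`. -/
structure Diagram (m : ℕ) extends Polygons m where
  kind : Fin m × ℕ → Fin m × ℕ → Kind
  /-- edges are not degenerate -/
  nondeg : ∀ e, toPolygons.IsEdge e → toPolygons.src e ≠ toPolygons.tgt e
  /-- consecutive edges meet only in their common vertex -/
  consecutive : ∀ e, toPolygons.IsEdge e →
    toPolygons.seg e ∩ toPolygons.seg (toPolygons.succ e) = {toPolygons.tgt e}
  /-- two distinct edges that are not consecutive cross transversally or are disjoint -/
  general : ∀ e f, toPolygons.IsEdge e → toPolygons.IsEdge f → e ≠ f → f ≠ toPolygons.succ e →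
    e ≠ toPolygons.succ f → toPolygons.Cross e f ∨ Disjoint (toPolygons.seg e) (toPolygons.seg f)
  /-- no point lies on three edges -/
  noTriple : ∀ e f g, toPolygons.IsEdge e → toPolygons.IsEdge f → toPolygons.IsEdge g →
    e ≠ f → f ≠ g → e ≠ g → ∀ p, ¬ (p ∈ toPolygons.seg e ∧ p ∈ toPolygons.seg f ∧ p ∈ toPolygons.seg g)
  /-- the kind of a crossing is consistent -/
  kind_flip : ∀ e f, toPolygons.IsEdge e → toPolygons.IsEdge f → toPolygons.Cross e f →
    kind f e = (kind e f).flip

namespace Diagram

variable {m : ℕ} (D : Diagram m)

open Classical in
/-- The number of classical crossings: pairs of edges `(e, f)` such that `e` crosses over `f`. -/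
noncomputable def classicalCrossings : ℕ :=
  ((D.edges ×ˢ D.edges).filter fun p => D.Cross p.1 p.2 ∧ D.kind p.1 p.2 = Kind.above).card

open Classical in
/-- The number of virtual crossings (each of them is seen from both of its edges). -/
noncomputable def virtualCrossings : ℕ :=
  ((D.edges ×ˢ D.edges).filter fun p => D.Cross p.1 p.2 ∧ D.kind p.1 p.2 = Kind.virt).card / 2

/-- The total number of crossings. -/
noncomputable def totalCrossings : ℕ := D.classicalCrossings + D.virtualCrossings

end Diagram

/-! ### Signed Gauss codes and Reidemeister moves -/

/-- An entry of a Gauss code: the passage through the classical crossing named `lab`, over it or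
under it (`isOver`); `isPos` tells whether the crossing is positive. -/
structure Pass where
  lab : ℕ
  isOver : Bool
  isPos : Bool
  deriving DecidableEq

/-- A signed Gauss code with `m` components: one cyclic word of passages for each component, written
from some base point. -/
abbrev Code (m : ℕ) : Type := Fin m → List Pass

namespace Code

variable {m : ℕ}

/-- The crossing name `c` does not occur in the code. -/
def Fresh (c : ℕ) (G : Code m) : Prop := ∀ i, ∀ p ∈ G i, p.lab ≠ c

/-- Reversal of the orientation of component `i`: its word is reversed, and the crossings between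
component `i` and another component (those that are met exactly once on component `i`) change their sign. -/
def reverseComp (G : Code m) (i : Fin m) : Code m := fun j =>
  let f : Pass → Pass := fun p =>
    if ((G i).filter fun q => q.lab = p.lab).length = 1 then { p with isPos := !p.isPos } else p
  if j = i then ((G j).map f).reverse else (G j).map f

/-- `Swap P Q G H`: the code `H` arises from `G` by exchanging two adjacent entries `P, Q`. -/
def Swap (P Q : Pass) (G H : Code m) : Prop :=
  ∃ (i : Fin m) (A B : List Pass), G i = A ++ P :: Q :: B ∧ H = Function.update G i (A ++ Q :: P :: B)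

/-- `Swap` of the adjacent entries `P, Q` (if `o` is true) or `Q, P` (if `o` is false). -/
def SwapO (o : Bool) (P Q : Pass) (G H : Code m) : Prop :=
  if o then Swap P Q G H else Swap Q P G H

end Code

open Code in
/-- The moves on Gauss codes. -/
inductive Move {m : ℕ} : Code m → Code m → Prop
  /-- change of the base point of component `i` -/
  | rotate (G : Code m) (i : Fin m) (k : ℕ) : Move G (Function.update G i ((G i).rotate k))
  /-- change of the names of the crossings -/
  | relabel (G : Code m) (f : ℕ → ℕ) (hf : Function.Injective f) :
      Move G (fun i => (G i).map fun p => { p with lab := f p.lab })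
  /-- change of the order of the components -/
  | permute (G : Code m) (σ : Equiv.Perm (Fin m)) : Move G (fun i => G (σ i))
  /-- change of the orientation of a component -/
  | reverse (G : Code m) (i : Fin m) : Move G (G.reverseComp i)
  /-- first Reidemeister move: a kink with the crossing `c` is added -/
  | r1 (G : Code m) (i : Fin m) (A B : List Pass) (c : ℕ) (o s : Bool) (hc : Fresh c G)
      (h : G i = A ++ B) :
      Move G (Function.update G i (A ++ ⟨c, o, s⟩ :: ⟨c, !o, s⟩ :: B))
  /-- second Reidemeister move between two different components; `dirn` tells whether the two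
  strands run in the same direction -/
  | r2 (G : Code m) (i j : Fin m) (hij : i ≠ j) (A B A' B' : List Pass) (c d : ℕ) (s dirn : Bool)
      (hcd : c ≠ d) (hc : Fresh c G) (hd : Fresh d G) (hi : G i = A ++ B) (hj : G j = A' ++ B') :
      Move G (Function.update (Function.update G i (A ++ ⟨c, true, s⟩ :: ⟨d, true, !s⟩ :: B)) j
        (A' ++ (if dirn then [⟨c, false, s⟩, ⟨d, false, !s⟩] else [⟨d, false, !s⟩, ⟨c, false, s⟩]) ++ B'))
  /-- second Reidemeister move between two strands of one component -/
  | r2self (G : Code m) (i : Fin m) (A B C : List Pass) (c d : ℕ) (s dirn : Bool)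
      (hcd : c ≠ d) (hc : Fresh c G) (hd : Fresh d G) (hi : G i = A ++ B ++ C) :
      Move G (Function.update G i (A ++ ⟨c, true, s⟩ :: ⟨d, true, !s⟩ :: B ++
        (if dirn then [⟨c, false, s⟩, ⟨d, false, !s⟩] else [⟨d, false, !s⟩, ⟨c, false, s⟩]) ++ C))
  /-- third Reidemeister move: `a` is the crossing of the top strand over the middle strand, `b` that
  of the top strand over the bottom strand, `c` that of the middle strand over the bottom strand;
  `sa sb sc` are their signs, and `oT` (`oM`, `oB`) is true when the top (middle, bottom) strand
  meets its two crossings in the order `a, b` (`a, c`; `b, c`).  The two equations hold exactly when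
  three strands can cross in this way in the plane. -/
  | r3 (G G₁ G₂ G₃ : Code m) (a b c : ℕ) (sa sb sc oT oM oB : Bool)
      (hab : a ≠ b) (hac : a ≠ c) (hbc : b ≠ c)
      (h1 : (oM == sa) = (oB == sb)) (h2 : (oT == sb) = (oM == sc))
      (hT : SwapO oT ⟨a, true, sa⟩ ⟨b, true, sb⟩ G G₁)
      (hM : SwapO oM ⟨a, false, sa⟩ ⟨c, true, sc⟩ G₁ G₂)
      (hB : SwapO oB ⟨b, false, sb⟩ ⟨c, false, sc⟩ G₂ G₃) : Move G G₃

/-! ### The Gauss code of a diagram, virtual links and their crossing numbers -/

namespace Diagram

variable {m : ℕ} (D : Diagram m)

/-- `ps` lists the classical crossings met on a walk once around component `i`, in the order in which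
they are met; the entry `(k, f)` stands for the crossing of the `k`-th edge of component `i` with the
edge `f`. -/
def IsItinerary (i : Fin m) (ps : List (ℕ × (Fin m × ℕ))) : Prop :=
  (∀ k f, (k, f) ∈ ps ↔ D.IsEdge (i, k) ∧ D.IsEdge f ∧ D.Cross (i, k) f ∧ D.kind (i, k) f ≠ Kind.virt) ∧
  ps.Pairwise fun p q => p.1 < q.1 ∨ (p.1 = q.1 ∧ D.par (i, p.1) p.2 < D.par (i, q.1) q.2)

open Classical in
/-- The entry of the Gauss code for the passage of the edge `e` over or under the edge `f`, where
`lab` names the crossings.  A crossing is positive when (direction of the over strand, direction of the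
under strand) is a positively oriented frame. -/
noncomputable def pass (lab : Fin m × ℕ → Fin m × ℕ → ℕ) (e f : Fin m × ℕ) : Pass where
  lab := lab e f
  isOver := decide (D.kind e f = Kind.above)
  isPos := decide (0 < if D.kind e f = Kind.above then det2 (D.dir e) (D.dir f) else det2 (D.dir f) (D.dir e))

/-- `G` is a signed Gauss code of the diagram `D` (for some way `lab` of naming its crossings). -/
def HasCode (G : Code m) : Prop :=
  ∃ lab : Fin m × ℕ → Fin m × ℕ → ℕ,
    (∀ e f e' f', D.IsEdge e → D.IsEdge f → D.IsEdge e' → D.IsEdge f' → D.Cross e f → D.Cross e' f' →
      (lab e f = lab e' f' ↔ (e = e' ∧ f = f') ∨ (e = f' ∧ f = e'))) ∧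
    ∀ i, ∃ ps, D.IsItinerary i ps ∧ G i = ps.map fun p => D.pass lab (i, p.1) p.2

/-- Two diagrams are related when they have Gauss codes that are related by moves. -/
def Rel (D D' : Diagram m) : Prop :=
  ∃ G G' : Code m, D.HasCode G ∧ D'.HasCode G' ∧ Relation.EqvGen Move G G'

end Diagram

/-- Virtual links with `m` components. -/
def VirtualLink (m : ℕ) : Type := Quot (Diagram.Rel (m := m))

/-- The virtual link represented by a diagram. -/
def Diagram.link {m : ℕ} (D : Diagram m) : VirtualLink m := Quot.mk _ D

namespace VirtualLink

variable {m : ℕ} (L : VirtualLink m)

/-- The least number of classical crossings of a diagram of `L`. -/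
noncomputable def C : ℕ := sInf {c | ∃ D : Diagram m, D.link = L ∧ D.classicalCrossings = c}

/-- The least number of virtual crossings of a diagram of `L`. -/
noncomputable def V : ℕ := sInf {c | ∃ D : Diagram m, D.link = L ∧ D.virtualCrossings = c}

/-- The least total number of crossings of a diagram of `L`. -/
noncomputable def T : ℕ := sInf {c | ∃ D : Diagram m, D.link = L ∧ D.totalCrossings = c}

end VirtualLink

end Pool.Agent.Lib.MP_0a0e82_gt
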