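import Pool.Agent.Lib.MP_0a0e82_gt.GridDefs

set_option autoImplicit false

namespace Pool.Agent.Lib.MP_0a0e82_gt.Grid

variable {m : ℕ} (G : Grid m)

/-! ### Segments parallel to the axes -/

theorem mem_hseg (a b c : ℝ) (p : Pt) :
    p ∈ segment ℝ ((a, c) : Pt) (b, c) ↔ p.2 = c ∧ p.1 ∈ Set.uIcc a b := by
  rw [← Prod.image_mk_segment_left, segment_eq_uIcc]
  constructor
  · rintro ⟨x, hx, rfl⟩
    exact ⟨rfl, hx⟩
  · rintro ⟨h1, h2⟩
    exact ⟨p.1, h2, by rw [← h1]⟩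

theorem mem_vseg (a b c : ℝ) (p : Pt) :
    p ∈ segment ℝ ((c, a) : Pt) (c, b) ↔ p.1 = c ∧ p.2 ∈ Set.uIcc a b := by
  rw [← Prod.image_mk_segment_right, segment_eq_uIcc]
  constructor
  · rintro ⟨x, hx, rfl⟩
    exact ⟨rfl, hx⟩
  · rintro ⟨h1, h2⟩
    exact ⟨p.2, h2, by rw [← h1]⟩

theorem mem_hoseg (a b c : ℝ) (hab : a ≠ b) (p : Pt) :
    p ∈ openSegment ℝ ((a, c) : Pt) (b, c) ↔ p.2 = c ∧ p.1 ∈ Set.Ioo (min a b) (max a b) := by
  rw [← Prod.image_mk_openSegment_left, openSegment_eq_Ioo' hab]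
  constructor
  · rintro ⟨x, hx, rfl⟩
    exact ⟨rfl, hx⟩
  · rintro ⟨h1, h2⟩
    exact ⟨p.1, h2, by rw [← h1]⟩

theorem mem_voseg (a b c : ℝ) (hab : a ≠ b) (p : Pt) :
    p ∈ openSegment ℝ ((c, a) : Pt) (c, b) ↔ p.1 = c ∧ p.2 ∈ Set.Ioo (min a b) (max a b) := by
  rw [← Prod.image_mk_openSegment_right, openSegment_eq_Ioo' hab]
  constructor
  · rintro ⟨x, hx, rfl⟩
    exact ⟨rfl, hx⟩
  · rintro ⟨h1, h2⟩
    exact ⟨p.2, h2, by rw [← h1]⟩

theorem btw_iff (a b c : ℕ) : btw a b c = true ↔ (a < b ∧ b < c) ∨ (c < b ∧ b < a) := by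
  simp [btw]

theorem btw_iff_Ioo (a b c : ℕ) :
    btw a b c = true ↔ (b : ℝ) ∈ Set.Ioo (min (a : ℝ) c) (max (a : ℝ) c) := by
  rw [btw_iff, Set.mem_Ioo]
  constructor
  · rintro (⟨h1, h2⟩ | ⟨h1, h2⟩)
    · have h1' : (a : ℝ) < b := by exact_mod_cast h1
      have h2' : (b : ℝ) < c := by exact_mod_cast h2
      exact ⟨lt_of_le_of_lt (min_le_left _ _) h1', lt_of_lt_of_le h2' (le_max_right _ _)⟩
    · have h1' : (c : ℝ) < b := by exact_mod_cast h1
      have h2' : (b : ℝ) < a := by exact_mod_cast h2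
      exact ⟨lt_of_le_of_lt (min_le_right _ _) h1', lt_of_lt_of_le h2' (le_max_left _ _)⟩
  · rintro ⟨h1, h2⟩
    rcases le_total a c with hac | hac
    · have hac' : (a : ℝ) ≤ c := by exact_mod_cast hac
      rw [min_eq_left hac'] at h1
      rw [max_eq_right hac'] at h2
      left
      exact ⟨by exact_mod_cast h1, by exact_mod_cast h2⟩
    · have hac' : (c : ℝ) ≤ a := by exact_mod_cast hac
      rw [min_eq_right hac'] at h1
      rw [max_eq_left hac'] at h2
      right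
      exact ⟨by exact_mod_cast h1, by exact_mod_cast h2⟩

theorem btw_ne {a b c : ℕ} (h : btw a b c = true) : a ≠ c := by
  rw [btw_iff] at h
  omega

theorem btw_of_uIcc {a b c : ℕ} (h : (b : ℝ) ∈ Set.uIcc (a : ℝ) c) (h1 : b ≠ a) (h2 : b ≠ c) :
    btw a b c = true := by
  rw [btw_iff]
  rcases Set.mem_uIcc.1 h with ⟨h3, h4⟩ | ⟨h3, h4⟩
  · have h3' : a ≤ b := by exact_mod_cast h3
    have h4' : b ≤ c := by exact_mod_cast h4
    omega
  · have h3' : c ≤ b := by exact_mod_cast h3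
    have h4' : b ≤ a := by exact_mod_cast h4
    omega

theorem seg_cross_symm {a b c d : Pt} (h : SegCross a b c d) : SegCross c d a b := by
  obtain ⟨h1, p, hp1, hp2⟩ := h
  refine ⟨?_, p, hp2, hp1⟩
  intro h0
  apply h1
  simp only [det2] at h0 ⊢
  linarith

/-- a horizontal and a vertical segment with natural coordinates -/
theorem segCross_hv (x₁ x₂ y X y₁ y₂ : ℕ) :
    SegCross ((x₁ : ℝ), (y : ℝ)) (x₂, y) (X, y₁) (X, y₂) ↔
      btw x₁ X x₂ = true ∧ btw y₁ y y₂ = true := by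
  constructor
  · rintro ⟨h1, p, hp1, hp2⟩
    have hx : (x₁ : ℝ) ≠ x₂ := by
      intro h0
      apply h1
      simp [det2, h0]
    have hy : (y₁ : ℝ) ≠ y₂ := by
      intro h0
      apply h1
      simp [det2, h0]
    rw [mem_hoseg _ _ _ hx] at hp1
    rw [mem_voseg _ _ _ hy] at hp2
    rw [btw_iff_Ioo, btw_iff_Ioo]
    obtain ⟨ha, hb⟩ := hp1
    obtain ⟨hc, hd⟩ := hp2
    rw [hc] at hb
    rw [ha] at hd
    exact ⟨hb, hd⟩
  · rintro ⟨h1, h2⟩
    have hx : (x₁ : ℝ) ≠ x₂ := by exact_mod_cast btw_ne h1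
    have hy : (y₁ : ℝ) ≠ y₂ := by exact_mod_cast btw_ne h2
    rw [btw_iff_Ioo] at h1 h2
    refine ⟨?_, ((X : ℝ), (y : ℝ)), ?_, ?_⟩
    · have h3 : (x₂ : ℝ) - x₁ ≠ 0 := sub_ne_zero.2 hx.symm
      have h4 : (y₂ : ℝ) - y₁ ≠ 0 := sub_ne_zero.2 hy.symm
      simp only [det2, Prod.fst_sub, Prod.snd_sub, sub_self, zero_mul, sub_zero]
      exact mul_ne_zero h3 h4
    · rw [mem_hoseg _ _ _ hx]
      exact ⟨rfl, h1⟩
    · rw [mem_voseg _ _ _ hy]
      exact ⟨rfl, h2⟩

/-! ### Distinctness of the coordinates -/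

theorem x_inj {i j : Fin m} {r s : ℕ} (hr : r < G.h i) (hs : s < G.h j)
    (h : G.x i (r + 1) = G.x j (s + 1)) : i = j ∧ r = s := by
  obtain ⟨f, hf, rfl, rfl⟩ := G.VT_complete i r hr
  obtain ⟨f', hf', rfl, rfl⟩ := G.VT_complete j s hs
  by_cases hff : f = f'
  · subst hff
    exact ⟨rfl, rfl⟩
  · exfalso
    have h1 := (G.VT_sound f hf).2.1
    have h2 := (G.VT_sound f' hf').2.1
    have h3 : f.x = f'.x := by rw [h1, h2, h]
    rcases List.pairwise_iff_getElem.1 G.VT_sorted with h4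
    obtain ⟨a, ha, hae⟩ := List.getElem_of_mem hf
    obtain ⟨b, hb, hbe⟩ := List.getElem_of_mem hf'
    rcases lt_trichotomy a b with hab | hab | hab
    · have := h4 a b ha hb hab
      rw [hae, hbe] at this
      omega
    · subst hab
      exact hff (hae.symm.trans hbe)
    · have := h4 b a hb ha hab
      rw [hae, hbe] at this
      omega

theorem y_inj {i j : Fin m} {r s : ℕ} (hr : r < G.h i) (hs : s < G.h j)
    (h : G.y i r = G.y j s) : i = j ∧ r = s := by
  obtain ⟨f, hf, rfl, rfl⟩ := G.HT_complete i r hr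
  obtain ⟨f', hf', rfl, rfl⟩ := G.HT_complete j s hs
  by_cases hff : f = f'
  · subst hff
    exact ⟨rfl, rfl⟩
  · exfalso
    have h1 := (G.HT_sound f hf).2.1
    have h2 := (G.HT_sound f' hf').2.1
    have h3 : f.y = f'.y := by rw [h1, h2, h]
    rcases List.pairwise_iff_getElem.1 G.HT_sorted with h4
    obtain ⟨a, ha, hae⟩ := List.getElem_of_mem hf
    obtain ⟨b, hb, hbe⟩ := List.getElem_of_mem hf'
    rcases lt_trichotomy a b with hab | hab | hab
    · have := h4 a b ha hb hab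
      rw [hae, hbe] at this
      omega
    · subst hab
      exact hff (hae.symm.trans hbe)
    · have := h4 b a hb ha hab
      rw [hae, hbe] at this
      omega

/-- the abscissas of the two ends of a horizontal edge differ -/
theorem x_ne_succ {i : Fin m} {r : ℕ} (hr : r < G.h i) : G.x i r ≠ G.x i (r + 1) := by
  intro h
  have h2 := G.two_le i
  rcases Nat.eq_zero_or_pos r with h0 | h0
  · subst h0
    rw [← G.xper i] at h
    have h3 : G.h i = (G.h i - 1) + 1 := by omega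
    rw [h3] at h
    have := (G.x_inj (i := i) (j := i) (r := G.h i - 1) (s := 0) (by omega) (by omega) h).2
    omega
  · obtain ⟨t, rfl⟩ : ∃ t, r = t + 1 := ⟨r - 1, by omega⟩
    have := (G.x_inj (i := i) (j := i) (r := t) (s := t + 1) (by omega) hr h).2
    omega

/-- the ordinates of the two ends of a vertical edge differ -/
theorem y_ne_succ {i : Fin m} {r : ℕ} (hr : r < G.h i) : G.y i r ≠ G.y i (r + 1) := by
  intro h
  have h2 := G.two_le i
  by_cases h0 : r + 1 = G.h i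
  · rw [h0, G.yper i] at h
    have := (G.y_inj (i := i) (j := i) (r := r) (s := 0) (by omega) (by omega) h).2
    omega
  · have := (G.y_inj (i := i) (j := i) (r := r) (s := r + 1) (by omega) (by omega) h).2
    omega

/-! ### Edges -/

theorem isEdge_iff (e : Fin m × ℕ) : G.toPolygons.IsEdge e ↔ e.2 < 2 * G.h e.1 := Iff.rfl

theorem src_even (i : Fin m) (r : ℕ) :
    G.toPolygons.src (i, 2 * r) = ((G.x i r : ℝ), (G.y i r : ℝ)) := by
  have h1 : (2 * r + 1) / 2 = r := by omega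
  have h2 : (2 * r) / 2 = r := by omega
  simp only [Polygons.src, toPolygons, h1, h2]

theorem tgt_even (i : Fin m) (r : ℕ) :
    G.toPolygons.tgt (i, 2 * r) = ((G.x i (r + 1) : ℝ), (G.y i r : ℝ)) := by
  have h1 : (2 * r + 1 + 1) / 2 = r + 1 := by omega
  have h2 : (2 * r + 1) / 2 = r := by omega
  simp only [Polygons.tgt, toPolygons, h1, h2]

theorem src_odd (i : Fin m) (r : ℕ) :
    G.toPolygons.src (i, 2 * r + 1) = ((G.x i (r + 1) : ℝ), (G.y i r : ℝ)) :=
  G.tgt_even i r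

theorem tgt_odd (i : Fin m) (r : ℕ) :
    G.toPolygons.tgt (i, 2 * r + 1) = ((G.x i (r + 1) : ℝ), (G.y i (r + 1) : ℝ)) := by
  have h1 : (2 * r + 1 + 1 + 1) / 2 = r + 1 := by omega
  have h2 : (2 * r + 1 + 1) / 2 = r + 1 := by omega
  simp only [Polygons.tgt, toPolygons, h1, h2]

theorem edge_cases (e : Fin m × ℕ) (he : G.toPolygons.IsEdge e) :
    (∃ i r, e = (i, 2 * r) ∧ r < G.h i) ∨ (∃ i r, e = (i, 2 * r + 1) ∧ r < G.h i) := by
  obtain ⟨i, k⟩ := e
  rw [isEdge_iff] at he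
  simp only at he
  rcases Nat.even_or_odd' k with ⟨r, hr | hr⟩
  · exact Or.inl ⟨i, r, by rw [hr], by omega⟩
  · exact Or.inr ⟨i, r, by rw [hr], by omega⟩

theorem mem_seg_even (i : Fin m) (r : ℕ) (p : Pt) :
    p ∈ G.toPolygons.seg (i, 2 * r) ↔
      p.2 = (G.y i r : ℝ) ∧ p.1 ∈ Set.uIcc (G.x i r : ℝ) (G.x i (r + 1) : ℝ) := by
  rw [Polygons.seg, src_even, tgt_even, mem_hseg]

theorem mem_seg_odd (i : Fin m) (r : ℕ) (p : Pt) :
    p ∈ G.toPolygons.seg (i, 2 * r + 1) ↔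
      p.1 = (G.x i (r + 1) : ℝ) ∧ p.2 ∈ Set.uIcc (G.y i r : ℝ) (G.y i (r + 1) : ℝ) := by
  rw [Polygons.seg, src_odd, tgt_odd, mem_vseg]

theorem succ_even (i : Fin m) (r : ℕ) (hr : r < G.h i) :
    G.toPolygons.succ (i, 2 * r) = (i, 2 * r + 1) := by
  have h1 : (2 * r + 1) % (2 * G.h i) = 2 * r + 1 := Nat.mod_eq_of_lt (by omega)
  simp only [Polygons.succ, toPolygons, h1]

theorem succ_odd (i : Fin m) (r : ℕ) (hr : r + 1 < G.h i) :
    G.toPolygons.succ (i, 2 * r + 1) = (i, 2 * (r + 1)) := by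
  have h1 : (2 * r + 1 + 1) % (2 * G.h i) = 2 * (r + 1) := by
    rw [Nat.mod_eq_of_lt (by omega)]
    ring
  simp only [Polygons.succ, toPolygons, h1]

theorem succ_odd_last (i : Fin m) (r : ℕ) (hr : r + 1 = G.h i) :
    G.toPolygons.succ (i, 2 * r + 1) = (i, 2 * 0) := by
  have h1 : (2 * r + 1 + 1) % (2 * G.h i) = 2 * 0 := by
    have h2 : 2 * r + 1 + 1 = 2 * G.h i := by omega
    rw [h2, Nat.mod_self]
  simp only [Polygons.succ, toPolygons, h1]

theorem hv_eo (i j : Fin m) (r s : ℕ) :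
    G.hv (i, 2 * r) (j, 2 * s + 1) ↔
      btw (G.x i r) (G.x j (s + 1)) (G.x i (r + 1)) = true ∧
        btw (G.y j s) (G.y i r) (G.y j (s + 1)) = true := by
  have h1 : (2 * r) % 2 = 0 := by omega
  have h2 : (2 * s + 1) % 2 = 1 := by omega
  have h3 : (2 * r) / 2 = r := by omega
  have h4 : (2 * s + 1) / 2 = s := by omega
  simp only [hv, h1, h2, h3, h4, crossHV, hE, vE, true_and, Bool.and_eq_true]

theorem not_hv_odd (i : Fin m) (r : ℕ) (f : Fin m × ℕ) : ¬ G.hv (i, 2 * r + 1) f := by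
  rintro ⟨h, -⟩
  simp only at h
  omega

theorem not_hv_even (i : Fin m) (r : ℕ) (f : Fin m × ℕ) : ¬ G.hv f (i, 2 * r) := by
  rintro ⟨-, h, -⟩
  simp only at h
  omega

theorem cross_symm {e f : Fin m × ℕ} (h : G.toPolygons.Cross e f) : G.toPolygons.Cross f e :=
  seg_cross_symm h

theorem cross_eo (i j : Fin m) (r s : ℕ) :
    G.toPolygons.Cross (i, 2 * r) (j, 2 * s + 1) ↔ G.hv (i, 2 * r) (j, 2 * s + 1) := by
  rw [hv_eo, Polygons.Cross, src_even, tgt_even, src_odd, tgt_odd, segCross_hv]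

/-- two edges of a rectilinear diagram cross iff one is horizontal, the other is vertical, and the
test succeeds -/
theorem cross_iff (e f : Fin m × ℕ) (he : G.toPolygons.IsEdge e) (hf : G.toPolygons.IsEdge f) :
    G.toPolygons.Cross e f ↔ G.hv e f ∨ G.hv f e := by
  rcases G.edge_cases e he with ⟨i, r, rfl, hr⟩ | ⟨i, r, rfl, hr⟩
  · rcases G.edge_cases f hf with ⟨j, s, rfl, hs⟩ | ⟨j, s, rfl, hs⟩
    · constructor
      · intro h
        exfalso
        apply h.1
        rw [src_even, tgt_even, src_even, tgt_even]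
        simp [det2]
      · rintro (h | h)
        · exact absurd h (G.not_hv_even _ _ _)
        · exact absurd h (G.not_hv_even _ _ _)
    · rw [cross_eo]
      constructor
      · exact fun h => Or.inl h
      · rintro (h | h)
        · exact h
        · exact absurd h (G.not_hv_odd _ _ _)
  · rcases G.edge_cases f hf with ⟨j, s, rfl, hs⟩ | ⟨j, s, rfl, hs⟩
    · constructor
      · intro h
        exact Or.inr ((G.cross_eo _ _ _ _).1 (G.cross_symm h))
      · rintro (h | h)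
        · exact absurd h (G.not_hv_odd _ _ _)
        · exact G.cross_symm ((G.cross_eo _ _ _ _).2 h)
    · constructor
      · intro h
        exfalso
        apply h.1
        rw [src_odd, tgt_odd, src_odd, tgt_odd]
        simp [det2]
      · rintro (h | h)
        · exact absurd h (G.not_hv_odd _ _ _)
        · exact absurd h (G.not_hv_odd _ _ _)

theorem nondeg (e : Fin m × ℕ) (he : G.toPolygons.IsEdge e) :
    G.toPolygons.src e ≠ G.toPolygons.tgt e := by
  rcases G.edge_cases e he with ⟨i, r, rfl, hr⟩ | ⟨i, r, rfl, hr⟩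
  · rw [src_even, tgt_even]
    intro h
    have h1 : (G.x i r : ℝ) = G.x i (r + 1) := congrArg Prod.fst h
    exact G.x_ne_succ hr (by exact_mod_cast h1)
  · rw [src_odd, tgt_odd]
    intro h
    have h1 : (G.y i r : ℝ) = G.y i (r + 1) := congrArg Prod.snd h
    exact G.y_ne_succ hr (by exact_mod_cast h1)

theorem consecutive (e : Fin m × ℕ) (he : G.toPolygons.IsEdge e) :
    G.toPolygons.seg e ∩ G.toPolygons.seg (G.toPolygons.succ e) = {G.toPolygons.tgt e} := by
  rcases G.edge_cases e he with ⟨i, r, rfl, hr⟩ | ⟨i, r, rfl, hr⟩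
  · rw [G.succ_even i r hr, tgt_even]
    ext p
    rw [Set.mem_inter_iff, mem_seg_even, mem_seg_odd, Set.mem_singleton_iff]
    constructor
    · rintro ⟨⟨h1, -⟩, ⟨h2, -⟩⟩
      exact Prod.ext h2 h1
    · rintro rfl
      exact ⟨⟨rfl, Set.right_mem_uIcc⟩, ⟨rfl, Set.left_mem_uIcc⟩⟩
  · by_cases hr1 : r + 1 = G.h i
    · rw [G.succ_odd_last i r hr1, tgt_odd]
      ext p
      rw [Set.mem_inter_iff, mem_seg_even, mem_seg_odd, Set.mem_singleton_iff, hr1, G.xper, G.yper]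
      constructor
      · rintro ⟨⟨h1, -⟩, ⟨h2, -⟩⟩
        exact Prod.ext h1 h2
      · rintro rfl
        exact ⟨⟨rfl, Set.right_mem_uIcc⟩, ⟨rfl, Set.left_mem_uIcc⟩⟩
    · rw [G.succ_odd i r (by omega), tgt_odd]
      ext p
      rw [Set.mem_inter_iff, mem_seg_even, mem_seg_odd, Set.mem_singleton_iff]
      constructor
      · rintro ⟨⟨h1, -⟩, ⟨h2, -⟩⟩
        exact Prod.ext h1 h2
      · rintro rfl
        exact ⟨⟨rfl, Set.right_mem_uIcc⟩, ⟨rfl, Set.left_mem_uIcc⟩⟩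

theorem disj_even (i j : Fin m) (r s : ℕ) (hr : r < G.h i) (hs : s < G.h j)
    (hne : ((i, 2 * r) : Fin m × ℕ) ≠ (j, 2 * s)) (p : Pt) (h1 : p ∈ G.toPolygons.seg (i, 2 * r))
    (h2 : p ∈ G.toPolygons.seg (j, 2 * s)) : False := by
  rw [mem_seg_even] at h1 h2
  have h3 : G.y i r = G.y j s := by
    have := h1.1.symm.trans h2.1
    exact_mod_cast this
  obtain ⟨h4, h5⟩ := G.y_inj hr hs h3
  exact hne (by rw [h4, h5])

theorem disj_odd (i j : Fin m) (r s : ℕ) (hr : r < G.h i) (hs : s < G.h j)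
    (hne : ((i, 2 * r + 1) : Fin m × ℕ) ≠ (j, 2 * s + 1)) (p : Pt)
    (h1 : p ∈ G.toPolygons.seg (i, 2 * r + 1))
    (h2 : p ∈ G.toPolygons.seg (j, 2 * s + 1)) : False := by
  rw [mem_seg_odd] at h1 h2
  have h3 : G.x i (r + 1) = G.x j (s + 1) := by
    have := h1.1.symm.trans h2.1
    exact_mod_cast this
  obtain ⟨h4, h5⟩ := G.x_inj hr hs h3
  exact hne (by rw [h4, h5])

/-- a horizontal and a vertical edge that have a common point are consecutive or cross -/
theorem meet_eo (i j : Fin m) (r s : ℕ) (hr : r < G.h i) (hs : s < G.h j)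
    (h1 : ((j, 2 * s + 1) : Fin m × ℕ) ≠ G.toPolygons.succ (i, 2 * r))
    (h2 : ((i, 2 * r) : Fin m × ℕ) ≠ G.toPolygons.succ (j, 2 * s + 1)) (p : Pt)
    (hp1 : p ∈ G.toPolygons.seg (i, 2 * r)) (hp2 : p ∈ G.toPolygons.seg (j, 2 * s + 1)) :
    G.toPolygons.Cross (i, 2 * r) (j, 2 * s + 1) := by
  rw [mem_seg_even] at hp1
  rw [mem_seg_odd] at hp2
  obtain ⟨ha, hb⟩ := hp1
  obtain ⟨hc, hd⟩ := hp2
  rw [hc] at hb
  rw [ha] at hd
  rw [G.succ_even i r hr] at h1
  rw [cross_eo, hv_eo]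
  refine ⟨btw_of_uIcc hb ?_ ?_, btw_of_uIcc hd ?_ ?_⟩
  · intro h
    rcases Nat.eq_zero_or_pos r with h0 | h0
    · subst h0
      rw [← G.xper i] at h
      have h3 : G.h i = (G.h i - 1) + 1 := by omega
      rw [h3] at h
      obtain ⟨h4, h5⟩ := G.x_inj hs (by omega) h
      subst h4
      apply h2
      rw [G.succ_odd_last j s (by omega)]
    · obtain ⟨t, rfl⟩ : ∃ t, r = t + 1 := ⟨r - 1, by omega⟩
      obtain ⟨h4, h5⟩ := G.x_inj hs (by omega) h
      subst h4
      subst h5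
      apply h2
      rw [G.succ_odd j s hr]
  · intro h
    obtain ⟨h4, h5⟩ := G.x_inj hs hr h
    subst h4
    subst h5
    exact h1 rfl
  · intro h
    obtain ⟨h4, h5⟩ := G.y_inj hr hs h
    subst h4
    subst h5
    exact h1 rfl
  · intro h
    by_cases hs1 : s + 1 = G.h j
    · rw [hs1, G.yper j] at h
      obtain ⟨h4, h5⟩ := G.y_inj hr (by omega) h
      subst h4
      subst h5
      apply h2
      rw [G.succ_odd_last _ s hs1]
    · obtain ⟨h4, h5⟩ := G.y_inj hr (by omega) h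
      subst h4
      subst h5
      apply h2
      rw [G.succ_odd _ s (by omega)]

theorem general (e f : Fin m × ℕ) (he : G.toPolygons.IsEdge e) (hf : G.toPolygons.IsEdge f)
    (hef : e ≠ f) (h1 : f ≠ G.toPolygons.succ e) (h2 : e ≠ G.toPolygons.succ f) :
    G.toPolygons.Cross e f ∨ Disjoint (G.toPolygons.seg e) (G.toPolygons.seg f) := by
  by_cases hc : G.toPolygons.Cross e f
  · exact Or.inl hc
  right
  rw [Set.disjoint_left]
  intro p hp1 hp2
  rcases G.edge_cases e he with ⟨i, r, rfl, hr⟩ | ⟨i, r, rfl, hr⟩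
  · rcases G.edge_cases f hf with ⟨j, s, rfl, hs⟩ | ⟨j, s, rfl, hs⟩
    · exact G.disj_even i j r s hr hs hef p hp1 hp2
    · exact hc (G.meet_eo i j r s hr hs h1 h2 p hp1 hp2)
  · rcases G.edge_cases f hf with ⟨j, s, rfl, hs⟩ | ⟨j, s, rfl, hs⟩
    · exact hc (G.cross_symm (G.meet_eo j i s r hs hr h2 h1 p hp2 hp1))
    · exact G.disj_odd i j r s hr hs hef p hp1 hp2

theorem noTriple (e f g : Fin m × ℕ) (he : G.toPolygons.IsEdge e) (hf : G.toPolygons.IsEdge f)
    (hg : G.toPolygons.IsEdge g) (hef : e ≠ f) (hfg : f ≠ g) (heg : e ≠ g) (p : Pt) :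
    ¬ (p ∈ G.toPolygons.seg e ∧ p ∈ G.toPolygons.seg f ∧ p ∈ G.toPolygons.seg g) := by
  rintro ⟨h1, h2, h3⟩
  rcases G.edge_cases e he with ⟨i, r, rfl, hr⟩ | ⟨i, r, rfl, hr⟩ <;>
  rcases G.edge_cases f hf with ⟨j, s, rfl, hs⟩ | ⟨j, s, rfl, hs⟩ <;>
  rcases G.edge_cases g hg with ⟨k, t, rfl, ht⟩ | ⟨k, t, rfl, ht⟩
  · exact G.disj_even i j r s hr hs hef p h1 h2
  · exact G.disj_even i j r s hr hs hef p h1 h2
  · exact G.disj_even i k r t hr ht heg p h1 h3
  · exact G.disj_odd j k s t hs ht hfg p h2 h3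
  · exact G.disj_even j k s t hs ht hfg p h2 h3
  · exact G.disj_odd i k r t hr ht heg p h1 h3
  · exact G.disj_odd i j r s hr hs hef p h1 h2
  · exact G.disj_odd i j r s hr hs hef p h1 h2

theorem flip_flip (k : Kind) : k.flip.flip = k := by
  cases k <;> rfl

theorem kind_flip (e f : Fin m × ℕ) (he : G.toPolygons.IsEdge e) (hf : G.toPolygons.IsEdge f)
    (h : G.toPolygons.Cross e f) : G.kind f e = (G.kind e f).flip := by
  rcases (G.cross_iff e f he hf).1 h with h | h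
  · obtain ⟨h1, h2, -⟩ := h
    have h3 : f.2 % 2 ≠ 0 := by omega
    simp only [kind, h1, h3, if_true, if_false]
  · obtain ⟨h1, h2, -⟩ := h
    have h3 : e.2 % 2 ≠ 0 := by omega
    simp only [kind, h1, h3, if_true, if_false, flip_flip]

/-- the diagram in `ℝ²` given by a rectilinear diagram -/
noncomputable def toDiagram : Diagram m where
  toPolygons := G.toPolygons
  kind := G.kind
  nondeg := G.nondeg
  consecutive := G.consecutive
  general := G.general
  noTriple := G.noTriple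
  kind_flip := G.kind_flip

end Pool.Agent.Lib.MP_0a0e82_gt.Grid
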