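import Pool.Agent.Lib.MP_0a0e82_gt.Grid1

set_option autoImplicit false

namespace Pool.Agent.Lib.MP_0a0e82_gt.Grid

variable {m : ℕ} (G : Grid m)

/-! ### The tables -/

theorem hE_of_mem {e : HEdge m} (he : e ∈ G.HT) : G.hE e.comp e.idx = e := by
  obtain ⟨_, h1, h2, h3⟩ := G.HT_sound e he
  cases e
  simp only [hE] at *
  simp [h1, h2, h3]

theorem vE_of_mem {f : VEdge m} (hf : f ∈ G.VT) : G.vE f.comp f.idx = f := by
  obtain ⟨_, h1, h2, h3⟩ := G.VT_sound f hf
  cases f
  simp only [vE] at *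
  simp [h1, h2, h3]

theorem g2_hE_mem {i : Fin m} {r : ℕ} (hr : r < G.h i) : G.hE i r ∈ G.HT := by
  obtain ⟨e, he, rfl, rfl⟩ := G.HT_complete i r hr
  rw [G.hE_of_mem he]
  exact he

theorem g2_vE_mem {i : Fin m} {r : ℕ} (hr : r < G.h i) : G.vE i r ∈ G.VT := by
  obtain ⟨e, he, rfl, rfl⟩ := G.VT_complete i r hr
  rw [G.vE_of_mem he]
  exact he

theorem eq_of_pairwise_lt {α : Type} {g : α → ℕ} : ∀ {l : List α}
    (_ : l.Pairwise fun a b => g a < g b) {a b : α} (_ : a ∈ l) (_ : b ∈ l) (_ : g a = g b), a = b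
  | [], _, _, _, ha, _, _ => absurd ha (List.not_mem_nil)
  | c :: l, hl, a, b, ha, hb, hab => by
    rw [List.pairwise_cons] at hl
    rcases List.mem_cons.1 ha with rfl | ha' <;> rcases List.mem_cons.1 hb with rfl | hb'
    · rfl
    · exact absurd hab (hl.1 b hb').ne
    · exact absurd hab.symm (hl.1 a ha').ne
    · exact eq_of_pairwise_lt hl.2 ha' hb' hab

theorem hE_inj {i j : Fin m} {r s : ℕ} (hr : r < G.h i) (hs : s < G.h j) (h : G.y i r = G.y j s) :
    i = j ∧ r = s := by
  have := eq_of_pairwise_lt (g := HEdge.y) G.HT_sorted (G.g2_hE_mem hr) (G.g2_hE_mem hs) h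
  simp only [hE, HEdge.mk.injEq] at this
  exact ⟨this.1, this.2.1⟩

theorem vE_inj {i j : Fin m} {r s : ℕ} (hr : r < G.h i) (hs : s < G.h j)
    (h : G.x i (r + 1) = G.x j (s + 1)) : i = j ∧ r = s := by
  have := eq_of_pairwise_lt (g := VEdge.x) G.VT_sorted (G.g2_vE_mem hr) (G.g2_vE_mem hs) h
  simp only [vE, VEdge.mk.injEq] at this
  exact ⟨this.1, this.2.1⟩

/-! ### The names of the crossings -/

/-- name of the crossing of the horizontal edge `e` with the vertical edge `f` -/
def lab0 (e f : Fin m × ℕ) : ℕ := G.y e.1 (e.2 / 2) * G.N + G.x f.1 (f.2 / 2 + 1)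

/-- names of the crossings -/
def labF (e f : Fin m × ℕ) : ℕ := if e.2 % 2 = 0 then G.lab0 e f else G.lab0 f e

theorem labF_hv {e f : Fin m × ℕ} (h : G.hv e f) : G.labF e f = G.lab0 e f := by
  simp [labF, h.1]

theorem labF_vh {e f : Fin m × ℕ} (h : G.hv e f) : G.labF f e = G.lab0 e f := by
  simp [labF, h.2.1]

theorem lab0_inj {e f e' f' : Fin m × ℕ} (he : G.toPolygons.IsEdge e) (hf : G.toPolygons.IsEdge f)
    (he' : G.toPolygons.IsEdge e') (hf' : G.toPolygons.IsEdge f') (h : G.hv e f) (h' : G.hv e' f')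
    (hl : G.lab0 e f = G.lab0 e' f') : e = e' ∧ f = f' := by
  obtain ⟨i, k⟩ := e
  obtain ⟨j, l⟩ := f
  obtain ⟨i', k'⟩ := e'
  obtain ⟨j', l'⟩ := f'
  simp only [Polygons.IsEdge, toPolygons] at he hf he' hf'
  obtain ⟨h1, h2, -⟩ := h
  obtain ⟨h1', h2', -⟩ := h'
  simp only [lab0] at h1 h2 h1' h2' hl
  have hx := G.x_lt _ (G.g2_vE_mem (i := j) (r := l / 2) (by omega))
  have hx' := G.x_lt _ (G.g2_vE_mem (i := j') (r := l' / 2) (by omega))
  simp only [vE] at hx hx'
  have hN : 0 < G.N := by omega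
  have hy : G.y i (k / 2) = G.y i' (k' / 2) := by
    have := congrArg (· / G.N) hl
    simpa [Nat.add_div_of_dvd_right, Nat.div_eq_of_lt hx, Nat.div_eq_of_lt hx', hN, mul_comm,
      Nat.mul_add_div] using this
  rw [hy] at hl
  have hxx : G.x j (l / 2 + 1) = G.x j' (l' / 2 + 1) := by omega
  obtain ⟨rfl, hk⟩ := G.hE_inj (by omega) (by omega) hy
  obtain ⟨rfl, hl'⟩ := G.vE_inj (by omega) (by omega) hxx
  constructor
  · simp only [Prod.mk.injEq, true_and]
    omega
  · simp only [Prod.mk.injEq, true_and]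
    omega

theorem labF_iff (e f e' f' : Fin m × ℕ) (he : G.toPolygons.IsEdge e) (hf : G.toPolygons.IsEdge f)
    (he' : G.toPolygons.IsEdge e') (hf' : G.toPolygons.IsEdge f') (h : G.toPolygons.Cross e f)
    (h' : G.toPolygons.Cross e' f') :
    G.labF e f = G.labF e' f' ↔ (e = e' ∧ f = f') ∨ (e = f' ∧ f = e') := by
  rw [G.cross_iff e f he hf] at h
  rw [G.cross_iff e' f' he' hf'] at h'
  constructor
  · intro hl
    rcases h with h | h <;> rcases h' with h' | h'
    · rw [G.labF_hv h, G.labF_hv h'] at hl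
      exact Or.inl (G.lab0_inj he hf he' hf' h h' hl)
    · rw [G.labF_hv h, G.labF_vh h'] at hl
      exact Or.inr (G.lab0_inj he hf hf' he' h h' hl)
    · rw [G.labF_vh h, G.labF_hv h'] at hl
      exact Or.inr (G.lab0_inj hf he he' hf' h h' hl).symm
    · rw [G.labF_vh h, G.labF_vh h'] at hl
      exact Or.inl (G.lab0_inj hf he hf' he' h h' hl).symm
  · rintro (⟨rfl, rfl⟩ | ⟨rfl, rfl⟩)
    · rfl
    · rcases h with h | h
      · rw [G.labF_hv h, G.labF_vh h]
      · rw [G.labF_vh h, G.labF_hv h]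

/-! ### Directions and positions -/

theorem g2_src_even (i : Fin m) (r : ℕ) :
    G.toPolygons.src (i, 2 * r) = ((G.x i r : ℝ), (G.y i r : ℝ)) := by
  have h1 : (2 * r + 1) / 2 = r := by omega
  have h2 : 2 * r / 2 = r := by omega
  simp [Polygons.src, toPolygons, h1, h2]

theorem g2_tgt_even (i : Fin m) (r : ℕ) :
    G.toPolygons.tgt (i, 2 * r) = ((G.x i (r + 1) : ℝ), (G.y i r : ℝ)) := by
  have h1 : (2 * r + 1 + 1) / 2 = r + 1 := by omega
  have h2 : (2 * r + 1) / 2 = r := by omega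
  simp only [Polygons.tgt, toPolygons, h1, h2]

theorem g2_src_odd (i : Fin m) (r : ℕ) :
    G.toPolygons.src (i, 2 * r + 1) = ((G.x i (r + 1) : ℝ), (G.y i r : ℝ)) := by
  have h1 : (2 * r + 1 + 1) / 2 = r + 1 := by omega
  have h2 : (2 * r + 1) / 2 = r := by omega
  simp only [Polygons.src, toPolygons, h1, h2]

theorem g2_tgt_odd (i : Fin m) (r : ℕ) :
    G.toPolygons.tgt (i, 2 * r + 1) = ((G.x i (r + 1) : ℝ), (G.y i (r + 1) : ℝ)) := by
  have h1 : (2 * r + 1 + 1 + 1) / 2 = r + 1 := by omega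
  have h2 : (2 * r + 1 + 1) / 2 = r + 1 := by omega
  simp only [Polygons.tgt, toPolygons, h1, h2]

theorem g2_btw_ne {a b c : ℕ} (h : btw a b c = true) : (c : ℝ) - a ≠ 0 := by
  have : a ≠ c := by
    simp only [btw, Bool.or_eq_true, Bool.and_eq_true, decide_eq_true_eq] at h
    omega
  intro h0
  exact this (by exact_mod_cast (sub_eq_zero.1 h0).symm)

theorem par_even {i j : Fin m} {r s : ℕ} (h : crossHV (G.hE i r) (G.vE j s) = true) :
    G.toPolygons.par (i, 2 * r) (j, 2 * s + 1) =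
      ((G.x j (s + 1) : ℝ) - G.x i r) / ((G.x i (r + 1) : ℝ) - G.x i r) := by
  simp only [crossHV, hE, vE, Bool.and_eq_true] at h
  have h2 := g2_btw_ne h.2
  rw [Polygons.par, segPar, G.g2_src_even, G.g2_tgt_even, G.g2_src_odd, G.g2_tgt_odd]
  simp only [det2, Prod.fst_sub, Prod.snd_sub, sub_self, mul_zero, sub_zero]
  rw [mul_div_mul_right _ _ h2]

theorem par_odd {i j : Fin m} {r s : ℕ} (h : crossHV (G.hE j s) (G.vE i r) = true) :
    G.toPolygons.par (i, 2 * r + 1) (j, 2 * s) =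
      ((G.y j s : ℝ) - G.y i r) / ((G.y i (r + 1) : ℝ) - G.y i r) := by
  simp only [crossHV, hE, vE, Bool.and_eq_true] at h
  have h2 := g2_btw_ne h.1
  rw [Polygons.par, segPar, G.g2_src_even, G.g2_tgt_even, G.g2_src_odd, G.g2_tgt_odd]
  simp only [det2, Prod.fst_sub, Prod.snd_sub, sub_self, mul_zero, zero_sub]
  rw [neg_div_neg_eq, mul_div_mul_right _ _ h2]

/-- comparison of two positions on a line traversed in some direction -/
theorem pos_lt {a c u v : ℕ} (hac : (c : ℝ) - a ≠ 0) (h : if a < c then u < v else v < u) :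
    ((u : ℝ) - a) / ((c : ℝ) - a) < ((v : ℝ) - a) / ((c : ℝ) - a) := by
  by_cases h1 : a < c
  · rw [if_pos h1] at h
    have h2 : (0 : ℝ) < (c : ℝ) - a := by
      rw [sub_pos]; exact_mod_cast h1
    have h3 : (u : ℝ) < v := by exact_mod_cast h
    rw [div_lt_div_iff_of_pos_right h2]
    linarith
  · rw [if_neg h1] at h
    have h2 : (c : ℝ) - a < 0 := by
      refine lt_of_le_of_ne ?_ hac
      rw [sub_nonpos]
      exact_mod_cast not_lt.1 h1
    have h3 : (v : ℝ) < u := by exact_mod_cast h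
    rw [div_lt_div_right_of_neg h2]
    linarith

/-! ### The itinerary -/

/-- vertical edges met on the `r`-th horizontal edge of component `i` -/
def rowL (i : Fin m) (r : ℕ) : List (VEdge m) :=
  (if G.x i r < G.x i (r + 1) then G.VT else G.VT.reverse).filter
    fun f => crossHV (G.hE i r) f && decide (G.k0 (G.hE i r) f ≠ Kind.virt)

/-- horizontal edges met on the `r`-th vertical edge of component `i` -/
def colL (i : Fin m) (r : ℕ) : List (HEdge m) :=
  (if G.y i r < G.y i (r + 1) then G.HT else G.HT.reverse).filter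
    fun e => crossHV e (G.vE i r) && decide (G.k0 e (G.vE i r) ≠ Kind.virt)

/-- the itinerary of component `i` -/
def itin (i : Fin m) : List (ℕ × (Fin m × ℕ)) :=
  (List.range (G.h i)).flatMap fun r =>
    (G.rowL i r).map (fun f => (2 * r, (f.comp, 2 * f.idx + 1))) ++
      (G.colL i r).map (fun e => (2 * r + 1, (e.comp, 2 * e.idx)))

theorem mem_rowL {i : Fin m} {r : ℕ} {f : VEdge m} :
    f ∈ G.rowL i r ↔ f ∈ G.VT ∧ crossHV (G.hE i r) f = true ∧ G.k0 (G.hE i r) f ≠ Kind.virt := by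
  simp only [rowL, List.mem_filter, Bool.and_eq_true, decide_eq_true_eq]
  split_ifs <;> simp

theorem mem_colL {i : Fin m} {r : ℕ} {e : HEdge m} :
    e ∈ G.colL i r ↔ e ∈ G.HT ∧ crossHV e (G.vE i r) = true ∧ G.k0 e (G.vE i r) ≠ Kind.virt := by
  simp only [colL, List.mem_filter, Bool.and_eq_true, decide_eq_true_eq]
  split_ifs <;> simp

theorem rowL_pairwise (i : Fin m) (r : ℕ) :
    (G.rowL i r).Pairwise fun f f' => if G.x i r < G.x i (r + 1) then f.x < f'.x else f'.x < f.x := by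
  unfold rowL
  refine List.Pairwise.filter _ ?_
  by_cases h : G.x i r < G.x i (r + 1)
  · simp only [if_pos h]
    exact G.VT_sorted
  · simp only [if_neg h]
    rw [List.pairwise_reverse]
    exact G.VT_sorted

theorem colL_pairwise (i : Fin m) (r : ℕ) :
    (G.colL i r).Pairwise fun f f' => if G.y i r < G.y i (r + 1) then f.y < f'.y else f'.y < f.y := by
  unfold colL
  refine List.Pairwise.filter _ ?_
  by_cases h : G.y i r < G.y i (r + 1)
  · simp only [if_pos h]
    exact G.HT_sorted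
  · simp only [if_neg h]
    rw [List.pairwise_reverse]
    exact G.HT_sorted

theorem flip_ne_virt {k : Kind} : k.flip ≠ Kind.virt ↔ k ≠ Kind.virt := by
  cases k <;> simp [Kind.flip]

theorem itin_mem (i : Fin m) (k : ℕ) (f : Fin m × ℕ) :
    (k, f) ∈ G.itin i ↔ G.toPolygons.IsEdge (i, k) ∧ G.toPolygons.IsEdge f ∧
      G.toPolygons.Cross (i, k) f ∧ G.kind (i, k) f ≠ Kind.virt := by
  obtain ⟨j, l⟩ := f
  simp only [itin, List.mem_flatMap, List.mem_range, List.mem_append, List.mem_map, Prod.mk.injEq]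
  constructor
  · rintro ⟨r, hr, ⟨f, hf, rfl, rfl, rfl⟩ | ⟨e, he, rfl, rfl, rfl⟩⟩
    · rw [mem_rowL] at hf
      obtain ⟨hf, hc, hk⟩ := hf
      obtain ⟨h1, -⟩ := G.VT_sound f hf
      have e1 : (i, 2 * r).2 % 2 = 0 := by simp
      have e2 : (f.comp, 2 * f.idx + 1).2 % 2 = 1 := by simp
      have e3 : 2 * r / 2 = r := by omega
      have e4 : (2 * f.idx + 1) / 2 = f.idx := by omega
      have ha : G.toPolygons.IsEdge (i, 2 * r) := by
        simp only [Polygons.IsEdge, toPolygons]; omega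
      have hb : G.toPolygons.IsEdge (f.comp, 2 * f.idx + 1) := by
        simp only [Polygons.IsEdge, toPolygons]; omega
      refine ⟨ha, hb, ?_, ?_⟩
      · rw [G.cross_iff _ _ ha hb]
        left
        refine ⟨e1, e2, ?_⟩
        simp only [e3, e4, G.vE_of_mem hf]
        exact hc
      · simp only [kind, e1, if_true, e3, e4, G.vE_of_mem hf]
        exact hk
    · rw [mem_colL] at he
      obtain ⟨he, hc, hk⟩ := he
      obtain ⟨h1, -⟩ := G.HT_sound e he
      have e1 : (i, 2 * r + 1).2 % 2 = 1 := by simp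
      have e2 : (e.comp, 2 * e.idx).2 % 2 = 0 := by simp
      have e3 : (2 * r + 1) / 2 = r := by omega
      have e4 : 2 * e.idx / 2 = e.idx := by omega
      have ha : G.toPolygons.IsEdge (i, 2 * r + 1) := by
        simp only [Polygons.IsEdge, toPolygons]; omega
      have hb : G.toPolygons.IsEdge (e.comp, 2 * e.idx) := by
        simp only [Polygons.IsEdge, toPolygons]; omega
      refine ⟨ha, hb, ?_, ?_⟩
      · rw [G.cross_iff _ _ ha hb]
        right
        refine ⟨e2, e1, ?_⟩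
        simp only [e3, e4, G.hE_of_mem he]
        exact hc
      · have e5 : ¬ ((i, 2 * r + 1).2 % 2 = 0) := by rw [e1]; norm_num
        simp only [kind, if_neg e5, e3, e4, G.hE_of_mem he]
        rw [flip_ne_virt]
        exact hk
  · rintro ⟨ha, hb, hc, hk⟩
    rw [G.cross_iff _ _ ha hb] at hc
    simp only [Polygons.IsEdge, toPolygons] at ha hb
    rcases hc with hc | hc
    · obtain ⟨h1, h2, h3⟩ := hc
      simp only [kind, h1, if_true] at hk
      simp only at h1 h2 h3 hk
      refine ⟨k / 2, by omega, Or.inl ⟨G.vE j (l / 2), ?_, by omega, rfl, ?_⟩⟩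
      · rw [mem_rowL]
        exact ⟨G.g2_vE_mem (by omega), h3, hk⟩
      · simp only [vE]; omega
    · obtain ⟨h1, h2, h3⟩ := hc
      have e5 : ¬ ((i, k).2 % 2 = 0) := by rw [h2]; norm_num
      simp only [kind, if_neg e5, flip_ne_virt] at hk
      simp only at h1 h2 h3 hk
      refine ⟨k / 2, by omega, Or.inr ⟨G.hE j (l / 2), ?_, by omega, rfl, ?_⟩⟩
      · rw [mem_colL]
        exact ⟨G.g2_hE_mem (by omega), h3, hk⟩
      · simp only [hE]; omega

theorem itin_pairwise (i : Fin m) : (G.itin i).Pairwise fun p q => p.1 < q.1 ∨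
    (p.1 = q.1 ∧ G.toPolygons.par (i, p.1) p.2 < G.toPolygons.par (i, q.1) q.2) := by
  unfold itin
  rw [List.pairwise_flatMap]
  constructor
  · intro r _
    rw [List.pairwise_append]
    refine ⟨?_, ?_, ?_⟩
    · rw [List.pairwise_map]
      refine (G.rowL_pairwise i r).imp_of_mem ?_
      intro f f' hf hf' hff
      rw [mem_rowL] at hf hf'
      refine Or.inr ⟨rfl, ?_⟩
      have h1 := hf.2.1
      have h1' := hf'.2.1
      rw [← G.vE_of_mem hf.1] at h1
      rw [← G.vE_of_mem hf'.1] at h1'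
      simp only
      rw [G.par_even h1, G.par_even h1']
      have e1 : G.x f.comp (f.idx + 1) = f.x := (G.VT_sound f hf.1).2.1.symm
      have e2 : G.x f'.comp (f'.idx + 1) = f'.x := (G.VT_sound f' hf'.1).2.1.symm
      rw [e1, e2]
      refine pos_lt ?_ hff
      simp only [crossHV, hE, vE, Bool.and_eq_true] at h1
      exact g2_btw_ne h1.1
    · rw [List.pairwise_map]
      refine (G.colL_pairwise i r).imp_of_mem ?_
      intro f f' hf hf' hff
      rw [mem_colL] at hf hf'
      refine Or.inr ⟨rfl, ?_⟩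
      have h1 := hf.2.1
      have h1' := hf'.2.1
      rw [← G.hE_of_mem hf.1] at h1
      rw [← G.hE_of_mem hf'.1] at h1'
      simp only
      rw [G.par_odd h1, G.par_odd h1']
      have e1 : G.y f.comp f.idx = f.y := (G.HT_sound f hf.1).2.1.symm
      have e2 : G.y f'.comp f'.idx = f'.y := (G.HT_sound f' hf'.1).2.1.symm
      rw [e1, e2]
      refine pos_lt ?_ hff
      simp only [crossHV, hE, vE, Bool.and_eq_true] at h1
      exact g2_btw_ne h1.2
    · intro p hp q hq
      rw [List.mem_map] at hp hq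
      obtain ⟨f, _, rfl⟩ := hp
      obtain ⟨e, _, rfl⟩ := hq
      left
      simp
  · refine List.pairwise_lt_range.imp ?_
    intro r s hrs p hp q hq
    left
    rw [List.mem_append, List.mem_map, List.mem_map] at hp hq
    rcases hp with ⟨f, _, rfl⟩ | ⟨f, _, rfl⟩ <;> rcases hq with ⟨e, _, rfl⟩ | ⟨e, _, rfl⟩ <;>
      simp only <;> omega

/-! ### The entries of the code -/

theorem dir_even (i : Fin m) (r : ℕ) :
    G.toPolygons.dir (i, 2 * r) = ((G.x i (r + 1) : ℝ) - G.x i r, 0) := by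
  rw [Polygons.dir, G.g2_src_even, G.g2_tgt_even]
  simp

theorem dir_odd (i : Fin m) (r : ℕ) :
    G.toPolygons.dir (i, 2 * r + 1) = (0, (G.y i (r + 1) : ℝ) - G.y i r) := by
  rw [Polygons.dir, G.g2_src_odd, G.g2_tgt_odd]
  simp

theorem sgn_pos {a b c d : ℕ} (h1 : (b : ℝ) - a ≠ 0) (h2 : (d : ℝ) - c ≠ 0) :
    (0 < ((b : ℝ) - a) * ((d : ℝ) - c)) ↔ (decide (a < b) == decide (c < d)) = true := by
  have ea : ((b : ℝ) - a < 0) ↔ ¬ a < b := by
    rw [sub_neg, not_lt]
    constructor
    · intro h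
      exact_mod_cast h.le
    · intro h
      refine lt_of_le_of_ne (by exact_mod_cast h) ?_
      intro h'
      exact h1 (by rw [h', sub_self])
  have ec : ((d : ℝ) - c < 0) ↔ ¬ c < d := by
    rw [sub_neg, not_lt]
    constructor
    · intro h
      exact_mod_cast h.le
    · intro h
      refine lt_of_le_of_ne (by exact_mod_cast h) ?_
      intro h'
      exact h2 (by rw [h', sub_self])
  have fa : (0 < (b : ℝ) - a) ↔ a < b := by
    rw [sub_pos]; exact Nat.cast_lt
  have fc : (0 < (d : ℝ) - c) ↔ c < d := by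
    rw [sub_pos]; exact Nat.cast_lt
  rw [mul_pos_iff, fa, fc, ea, ec]
  by_cases ha : a < b <;> by_cases hc : c < d <;> simp [ha, hc]

theorem sgn_neg {a b c d : ℕ} (h1 : (b : ℝ) - a ≠ 0) (h2 : (d : ℝ) - c ≠ 0) :
    (0 < -(((b : ℝ) - a) * ((d : ℝ) - c))) ↔ (decide (a < b) != decide (c < d)) = true := by
  have h := sgn_pos h1 h2
  have h3 : ((b : ℝ) - a) * ((d : ℝ) - c) ≠ 0 := mul_ne_zero h1 h2
  rw [neg_pos]
  have h4 : (((b : ℝ) - a) * ((d : ℝ) - c) < 0) ↔ ¬ (0 < ((b : ℝ) - a) * ((d : ℝ) - c)) := by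
    rw [not_lt]
    exact ⟨le_of_lt, fun h => lt_of_le_of_ne h h3⟩
  rw [h4, h]
  by_cases ha : a < b <;> by_cases hc : c < d <;> simp [ha, hc]

theorem pass_row {i : Fin m} {r : ℕ} {f : VEdge m} (hf : f ∈ G.rowL i r) :
    G.toDiagram.pass G.labF (i, 2 * r) (f.comp, 2 * f.idx + 1) =
      ⟨(G.hE i r).y * G.N + f.x, decide (G.k0 (G.hE i r) f = Kind.above), G.sign (G.hE i r) f⟩ := by
  rw [mem_rowL] at hf
  obtain ⟨hf, hc, hk⟩ := hf
  have hv := G.vE_of_mem hf
  obtain ⟨-, hx, hy1, hy2⟩ := G.VT_sound f hf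
  have e1 : (i, 2 * r).2 % 2 = 0 := by simp
  have e3 : 2 * r / 2 = r := by omega
  have e4 : (2 * f.idx + 1) / 2 = f.idx := by omega
  have hkind : G.toDiagram.kind (i, 2 * r) (f.comp, 2 * f.idx + 1) = G.k0 (G.hE i r) f := by
    simp only [toDiagram, kind, e1, if_true, e3, e4, hv]
  simp only [crossHV, Bool.and_eq_true] at hc
  have hx0 := g2_btw_ne hc.1
  have hy0 := g2_btw_ne hc.2
  simp only [hE] at hx0
  have hd1 : G.toDiagram.toPolygons.dir (i, 2 * r) = ((G.x i (r + 1) : ℝ) - G.x i r, 0) := G.dir_even i r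
  have hd2 : G.toDiagram.toPolygons.dir (f.comp, 2 * f.idx + 1) = (0, (f.y₂ : ℝ) - f.y₁) := by
    rw [hy1, hy2]; exact G.dir_odd _ _
  unfold Diagram.pass
  congr 1
  · simp only [labF, e1, if_true, lab0, e3, e4, hE, hx]
  · rw [hkind]
  · rw [hkind, hd1, hd2]
    unfold sign
    by_cases ha : G.k0 (G.hE i r) f = Kind.above
    · rw [if_pos ha, if_pos ha]
      simp only [det2, zero_mul, sub_zero, hE]
      rw [Bool.eq_iff_iff, decide_eq_true_eq]
      exact sgn_pos hx0 hy0
    · rw [if_neg ha, if_neg ha]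
      simp only [det2, zero_sub, hE, mul_zero]
      rw [Bool.eq_iff_iff, decide_eq_true_eq, mul_comm]
      exact sgn_neg hx0 hy0

theorem pass_col {i : Fin m} {r : ℕ} {e : HEdge m} (he : e ∈ G.colL i r) :
    G.toDiagram.pass G.labF (i, 2 * r + 1) (e.comp, 2 * e.idx) =
      ⟨e.y * G.N + (G.vE i r).x, decide (G.k0 e (G.vE i r) = Kind.below), G.sign e (G.vE i r)⟩ := by
  rw [mem_colL] at he
  obtain ⟨he, hc, hk⟩ := he
  have hv := G.hE_of_mem he
  obtain ⟨-, hy, hx1, hx2⟩ := G.HT_sound e he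
  have e1 : ¬ ((i, 2 * r + 1).2 % 2 = 0) := by simp
  have e3 : (2 * r + 1) / 2 = r := by omega
  have e4 : 2 * e.idx / 2 = e.idx := by omega
  have hkind : G.toDiagram.kind (i, 2 * r + 1) (e.comp, 2 * e.idx) = (G.k0 e (G.vE i r)).flip := by
    simp only [toDiagram, kind, if_neg e1, e3, e4, hv]
  simp only [crossHV, Bool.and_eq_true] at hc
  have hx0 := g2_btw_ne hc.1
  have hy0 := g2_btw_ne hc.2
  simp only [vE] at hy0
  have hd1 : G.toDiagram.toPolygons.dir (i, 2 * r + 1) = (0, (G.y i (r + 1) : ℝ) - G.y i r) :=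
    G.dir_odd i r
  have hd2 : G.toDiagram.toPolygons.dir (e.comp, 2 * e.idx) = ((e.x₂ : ℝ) - e.x₁, 0) := by
    rw [hx1, hx2]; exact G.dir_even _ _
  have hfl : (G.k0 e (G.vE i r)).flip = Kind.above ↔ G.k0 e (G.vE i r) = Kind.below := by
    cases G.k0 e (G.vE i r) <;> simp [Kind.flip]
  unfold Diagram.pass
  congr 1
  · simp only [labF, if_neg e1, lab0, e3, e4, vE, hy]
  · rw [hkind]
    exact decide_eq_decide.2 hfl
  · rw [hkind, hd1, hd2]
    unfold sign
    by_cases ha : G.k0 e (G.vE i r) = Kind.above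
    · have ha' : ¬ ((G.k0 e (G.vE i r)).flip = Kind.above) := by
        rw [hfl, ha]; simp
      rw [if_neg ha', if_pos ha]
      simp only [det2, zero_mul, sub_zero, vE]
      rw [Bool.eq_iff_iff, decide_eq_true_eq]
      exact sgn_pos hx0 hy0
    · have hb : G.k0 e (G.vE i r) = Kind.below := by
        cases h : G.k0 e (G.vE i r)
        · exact absurd h hk
        · exact absurd h ha
        · rfl
      have ha' : (G.k0 e (G.vE i r)).flip = Kind.above := hfl.2 hb
      rw [if_pos ha', if_neg ha]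
      simp only [det2, zero_mul, zero_sub, vE]
      rw [Bool.eq_iff_iff, decide_eq_true_eq, mul_comm]
      exact sgn_neg hx0 hy0

/-- the computed word is a Gauss code of the diagram -/
theorem hasCode : G.toDiagram.HasCode G.code := by
  refine ⟨G.labF, ?_, ?_⟩
  · intro e f e' f' he hf he' hf' h h'
    exact G.labF_iff e f e' f' he hf he' hf' h h'
  · intro i
    refine ⟨G.itin i, ⟨fun k f => G.itin_mem i k f, G.itin_pairwise i⟩, ?_⟩
    unfold itin code
    rw [List.map_flatMap]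
    congr 1
    funext r
    rw [List.map_append, List.map_map, List.map_map]
    congr 1
    · refine List.map_congr_left ?_
      intro f hf
      exact (G.pass_row (i := i) (r := r) hf).symm
    · refine List.map_congr_left ?_
      intro e he
      exact (G.pass_col (i := i) (r := r) he).symm

end Pool.Agent.Lib.MP_0a0e82_gt.Grid
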