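import Pool.Agent.Lib.MP_0a0e82_gt.Grid1

set_option autoImplicit false

namespace Pool.Agent.Lib.MP_0a0e82_gt.Grid

variable {m : ℕ} (G : Grid m)

namespace Grid3Count

theorem isEdge_of_mem {P : Polygons m} {e : Fin m × ℕ} (h : e ∈ P.edges) : P.IsEdge e := by
  simp only [Polygons.edges, Finset.mem_biUnion, Finset.mem_univ, true_and, Finset.mem_image,
    Finset.mem_range] at h
  obtain ⟨i, k, hk, rfl⟩ := h
  exact hk

theorem hE_mem (i : Fin m) (r : ℕ) (hr : r < G.h i) : G.hE i r ∈ G.HT := by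
  obtain ⟨e, he, h1, h2⟩ := G.HT_complete i r hr
  obtain ⟨-, h3, h4, h5⟩ := G.HT_sound e he
  have : e = G.hE i r := by
    cases e
    simp only at h1 h2 h3 h4 h5
    subst h1 h2 h3 h4 h5
    rfl
  exact this ▸ he

theorem vE_mem (i : Fin m) (r : ℕ) (hr : r < G.h i) : G.vE i r ∈ G.VT := by
  obtain ⟨e, he, h1, h2⟩ := G.VT_complete i r hr
  obtain ⟨-, h3, h4, h5⟩ := G.VT_sound e he
  have : e = G.vE i r := by
    cases e
    simp only at h1 h2 h3 h4 h5
    subst h1 h2 h3 h4 h5
    rfl
  exact this ▸ he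

/-- the pairs of table entries with a property -/
def tab (q : HEdge m → VEdge m → Bool) : List (HEdge m × VEdge m) :=
  G.HT.flatMap fun e => (G.VT.filter fun f => q e f).map fun f => (e, f)

theorem length_tab (q : HEdge m → VEdge m → Bool) :
    (tab G q).length = (G.HT.map fun e => (G.VT.filter fun f => q e f).length).sum := by
  unfold tab
  rw [List.length_flatMap]
  simp only [List.length_map]

theorem mem_tab {q : HEdge m → VEdge m → Bool} {z : HEdge m × VEdge m} (ha : z.1 ∈ G.HT)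
    (hb : z.2 ∈ G.VT) (h : q z.1 z.2 = true) : z ∈ tab G q := by
  unfold tab
  rw [List.mem_flatMap]
  exact ⟨z.1, ha, List.mem_map.2 ⟨z.2, List.mem_filter.2 ⟨hb, h⟩, rfl⟩⟩

/-- the pair of table entries of a crossing pair of edges -/
def toPair (p : (Fin m × ℕ) × (Fin m × ℕ)) : HEdge m × VEdge m :=
  if p.1.2 % 2 = 0 then (G.hE p.1.1 (p.1.2 / 2), G.vE p.2.1 (p.2.2 / 2))
  else (G.hE p.2.1 (p.2.2 / 2), G.vE p.1.1 (p.1.2 / 2))

theorem toPair_spec {p : (Fin m × ℕ) × (Fin m × ℕ)} (h1 : G.toPolygons.IsEdge p.1)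
    (h2 : G.toPolygons.IsEdge p.2) (hc : G.toPolygons.Cross p.1 p.2) :
    (toPair G p).1 ∈ G.HT ∧ (toPair G p).2 ∈ G.VT ∧
    crossHV (toPair G p).1 (toPair G p).2 = true ∧ p.1.2 % 2 + p.2.2 % 2 = 1 ∧
    G.kind p.1 p.2 = (if p.1.2 % 2 = 0 then G.k0 (toPair G p).1 (toPair G p).2
      else (G.k0 (toPair G p).1 (toPair G p).2).flip) := by
  have e1 : p.1.2 < 2 * G.h p.1.1 := h1
  have e2 : p.2.2 < 2 * G.h p.2.1 := h2
  rcases (G.cross_iff _ _ h1 h2).1 hc with ⟨h3, h4, h5⟩ | ⟨h3, h4, h5⟩
  · unfold toPair kind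
    rw [if_pos h3, if_pos h3, if_pos h3]
    exact ⟨hE_mem G _ _ (by omega), vE_mem G _ _ (by omega), h5, by omega, rfl⟩
  · unfold toPair kind
    rw [if_neg (by omega), if_neg (by omega), if_neg (by omega)]
    exact ⟨hE_mem G _ _ (by omega), vE_mem G _ _ (by omega), h5, by omega, rfl⟩

theorem toPair_inj {p q : (Fin m × ℕ) × (Fin m × ℕ)} (hp : p.1.2 % 2 + p.2.2 % 2 = 1)
    (hq : q.1.2 % 2 + q.2.2 % 2 = 1) (hpq : p.1.2 % 2 = q.1.2 % 2)
    (h : toPair G p = toPair G q) : p = q := by
  obtain ⟨⟨a, b⟩, ⟨c, d⟩⟩ := p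
  obtain ⟨⟨a', b'⟩, ⟨c', d'⟩⟩ := q
  simp only at hp hq hpq
  unfold toPair at h
  simp only at h
  by_cases h0 : b % 2 = 0
  · rw [if_pos h0, if_pos (by omega)] at h
    simp only [hE, vE, Prod.mk.injEq, HEdge.mk.injEq, VEdge.mk.injEq] at h
    obtain ⟨⟨k1, k2, -⟩, ⟨k3, k4, -⟩⟩ := h
    subst k1 k3
    have e1 : b = b' := by omega
    have e2 : d = d' := by omega
    rw [e1, e2]
  · rw [if_neg h0, if_neg (by omega)] at h
    simp only [hE, vE, Prod.mk.injEq, HEdge.mk.injEq, VEdge.mk.injEq] at h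
    obtain ⟨⟨k1, k2, -⟩, ⟨k3, k4, -⟩⟩ := h
    subst k1 k3
    have e1 : b = b' := by omega
    have e2 : d = d' := by omega
    rw [e1, e2]

theorem flip_eq_virt {k : Kind} (h : k.flip = Kind.virt) : k = Kind.virt := by
  cases k <;> simp_all [Kind.flip]

theorem flip_eq_above {k : Kind} (h : k.flip = Kind.above) : k = Kind.below := by
  cases k <;> simp_all [Kind.flip]

end Grid3Count

open Grid3Count

theorem virtualCrossings_le : G.toDiagram.virtualCrossings ≤ G.virtCount := by
  classical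
  have hcount : G.virtCount = (tab G fun e f => crossHV e f && decide (G.k0 e f = Kind.virt)).length :=
    (length_tab G _).symm
  have key : ((G.toDiagram.edges ×ˢ G.toDiagram.edges).filter fun p =>
      G.toDiagram.Cross p.1 p.2 ∧ G.toDiagram.kind p.1 p.2 = Kind.virt).card ≤
      ((tab G fun e f => crossHV e f && decide (G.k0 e f = Kind.virt)).toFinset ×ˢ
        Finset.range 2).card := by
    refine Finset.card_le_card_of_injOn (fun p => (toPair G p, p.1.2 % 2)) ?_ ?_
    · intro p hp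
      simp only [Finset.coe_filter, Finset.mem_product, Set.mem_ofPred_eq] at hp
      obtain ⟨⟨h1, h2⟩, h3, h4⟩ := hp
      obtain ⟨k1, k2, k3, k4, k5⟩ := toPair_spec G (isEdge_of_mem h1) (isEdge_of_mem h2) h3
      simp only [Finset.coe_product, Set.mem_prod, Finset.mem_coe, List.mem_toFinset,
        Finset.mem_range]
      refine ⟨mem_tab G k1 k2 ?_, by omega⟩
      have h5 : G.kind p.1 p.2 = Kind.virt := h4
      rw [k5] at h5
      have h6 : G.k0 (toPair G p).1 (toPair G p).2 = Kind.virt := by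
        split_ifs at h5
        · exact h5
        · exact flip_eq_virt h5
      simp [k3, h6]
    · intro p hp q hq h
      simp only [Finset.coe_filter, Finset.mem_product, Set.mem_ofPred_eq] at hp hq
      obtain ⟨⟨h1, h2⟩, h3, h4⟩ := hp
      obtain ⟨k1, k2, k3, k4, k5⟩ := toPair_spec G (isEdge_of_mem h1) (isEdge_of_mem h2) h3
      obtain ⟨⟨h1', h2'⟩, h3', h4'⟩ := hq
      obtain ⟨k1', k2', k3', k4', k5'⟩ := toPair_spec G (isEdge_of_mem h1') (isEdge_of_mem h2') h3'
      simp only [Prod.mk.injEq] at h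
      exact toPair_inj G k4 k4' h.2 h.1
  rw [Finset.card_product, Finset.card_range] at key
  have h1 := List.toFinset_card_le
    (tab G fun e f => crossHV e f && decide (G.k0 e f = Kind.virt))
  unfold Diagram.virtualCrossings
  rw [hcount]
  omega

theorem classicalCrossings_le : G.toDiagram.classicalCrossings ≤ G.classCount := by
  classical
  have hcount : G.classCount = (tab G fun e f => crossHV e f && decide (G.k0 e f ≠ Kind.virt)).length :=
    (length_tab G _).symm
  have key : ((G.toDiagram.edges ×ˢ G.toDiagram.edges).filter fun p =>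
      G.toDiagram.Cross p.1 p.2 ∧ G.toDiagram.kind p.1 p.2 = Kind.above).card ≤
      (tab G fun e f => crossHV e f && decide (G.k0 e f ≠ Kind.virt)).toFinset.card := by
    refine Finset.card_le_card_of_injOn (fun p => toPair G p) ?_ ?_
    · intro p hp
      simp only [Finset.coe_filter, Finset.mem_product, Set.mem_ofPred_eq] at hp
      obtain ⟨⟨h1, h2⟩, h3, h4⟩ := hp
      obtain ⟨k1, k2, k3, k4, k5⟩ := toPair_spec G (isEdge_of_mem h1) (isEdge_of_mem h2) h3
      simp only [Finset.mem_coe, List.mem_toFinset]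
      refine mem_tab G k1 k2 ?_
      have h5 : G.kind p.1 p.2 = Kind.above := h4
      rw [k5] at h5
      have h6 : G.k0 (toPair G p).1 (toPair G p).2 ≠ Kind.virt := by
        split_ifs at h5
        · rw [h5]; decide
        · rw [flip_eq_above h5]; decide
      simp [k3, h6]
    · intro p hp q hq h
      simp only [Finset.coe_filter, Finset.mem_product, Set.mem_ofPred_eq] at hp hq
      obtain ⟨⟨h1, h2⟩, h3, h4⟩ := hp
      obtain ⟨k1, k2, k3, k4, k5⟩ := toPair_spec G (isEdge_of_mem h1) (isEdge_of_mem h2) h3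
      obtain ⟨⟨h1', h2'⟩, h3', h4'⟩ := hq
      obtain ⟨k1', k2', k3', k4', k5'⟩ := toPair_spec G (isEdge_of_mem h1') (isEdge_of_mem h2') h3'
      simp only at h
      have h5 : G.kind p.1 p.2 = Kind.above := h4
      have h5' : G.kind q.1 q.2 = Kind.above := h4'
      rw [k5] at h5
      rw [k5', ← h] at h5'
      refine toPair_inj G k4 k4' ?_ h
      split_ifs at h5 h5' with i1 i2 i2
      · omega
      · rw [h5] at h5'; simp [Kind.flip] at h5'
      · rw [h5'] at h5; simp [Kind.flip] at h5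
      · omega
  have h1 := List.toFinset_card_le
    (tab G fun e f => crossHV e f && decide (G.k0 e f ≠ Kind.virt))
  unfold Diagram.classicalCrossings
  rw [hcount]
  exact key.trans h1

end Pool.Agent.Lib.MP_0a0e82_gt.Grid
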