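import Pool.Agent.Lib.MP_0a0e82_gt.Defs

/-!
# Rectilinear diagrams with natural coordinates (proof-side definitions)

Component `i` has the corners `(x i r, y i r)` (`r < h i`); its edge number `2 r` is horizontal, from
`(x i r, y i r)` to `(x i (r+1), y i r)`, and its edge number `2 r + 1` is vertical, from
`(x i (r+1), y i r)` to `(x i (r+1), y i (r+1))`.  All horizontal edges have different `y`, all vertical
edges have different `x`.
-/

set_option autoImplicit false

namespace Pool.Agent.Lib.MP_0a0e82_gt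

/-- `b` is strictly between `a` and `c`. -/
def btw (a b c : ℕ) : Bool := (decide (a < b) && decide (b < c)) || (decide (c < b) && decide (b < a))

/-- A horizontal edge, number `2 * idx` of component `comp`, from `(x₁, y)` to `(x₂, y)`. -/
structure HEdge (m : ℕ) where
  comp : Fin m
  idx : ℕ
  y : ℕ
  x₁ : ℕ
  x₂ : ℕ

/-- A vertical edge, number `2 * idx + 1` of component `comp`, from `(x, y₁)` to `(x, y₂)`. -/
structure VEdge (m : ℕ) where
  comp : Fin m
  idx : ℕ
  x : ℕ
  y₁ : ℕ
  y₂ : ℕ

/-- crossing test -/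
def crossHV {m : ℕ} (e : HEdge m) (f : VEdge m) : Bool := btw e.x₁ f.x e.x₂ && btw f.y₁ e.y f.y₂

/-- Rectilinear diagram with tables `HT` (rows by increasing height) and `VT` (columns by increasing
abscissa) of its edges; `k0 e f` is the kind of passage of the horizontal edge `e` across the vertical
edge `f`. -/
structure Grid (m : ℕ) where
  h : Fin m → ℕ
  x : Fin m → ℕ → ℕ
  y : Fin m → ℕ → ℕ
  HT : List (HEdge m)
  VT : List (VEdge m)
  k0 : HEdge m → VEdge m → Kind
  N : ℕ
  two_le : ∀ i, 2 ≤ h i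
  xper : ∀ i, x i (h i) = x i 0
  yper : ∀ i, y i (h i) = y i 0
  HT_sound : ∀ e ∈ HT, e.idx < h e.comp ∧ e.y = y e.comp e.idx ∧ e.x₁ = x e.comp e.idx ∧
    e.x₂ = x e.comp (e.idx + 1)
  VT_sound : ∀ f ∈ VT, f.idx < h f.comp ∧ f.x = x f.comp (f.idx + 1) ∧ f.y₁ = y f.comp f.idx ∧
    f.y₂ = y f.comp (f.idx + 1)
  HT_complete : ∀ i, ∀ r < h i, ∃ e ∈ HT, e.comp = i ∧ e.idx = r
  VT_complete : ∀ i, ∀ r < h i, ∃ f ∈ VT, f.comp = i ∧ f.idx = r
  HT_sorted : HT.Pairwise fun e e' => e.y < e'.y
  VT_sorted : VT.Pairwise fun f f' => f.x < f'.x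
  x_lt : ∀ f ∈ VT, f.x < N

namespace Grid

variable {m : ℕ} (G : Grid m)

/-- horizontal edge number `2 r` of component `i` -/
def hE (i : Fin m) (r : ℕ) : HEdge m := ⟨i, r, G.y i r, G.x i r, G.x i (r + 1)⟩

/-- vertical edge number `2 r + 1` of component `i` -/
def vE (i : Fin m) (r : ℕ) : VEdge m := ⟨i, r, G.x i (r + 1), G.y i r, G.y i (r + 1)⟩

/-- the underlying polygons -/
noncomputable def toPolygons : Polygons m where
  n := fun i => 2 * G.h i
  v := fun i k => ((G.x i ((k + 1) / 2) : ℝ), (G.y i (k / 2) : ℝ))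
  three_le := fun i => by have := G.two_le i; omega
  closed := fun i => by
    have h1 : (2 * G.h i + 1) / 2 = G.h i := by omega
    have h2 : (2 * G.h i) / 2 = G.h i := by omega
    simp only [h1, h2, G.xper, G.yper]

/-- the kinds of all crossings -/
def kind (e f : Fin m × ℕ) : Kind :=
  if e.2 % 2 = 0 then G.k0 (G.hE e.1 (e.2 / 2)) (G.vE f.1 (f.2 / 2))
  else (G.k0 (G.hE f.1 (f.2 / 2)) (G.vE e.1 (e.2 / 2))).flip

/-- the crossing test for edges given by their numbers: `e` horizontal, `f` vertical -/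
def hv (e f : Fin m × ℕ) : Prop :=
  e.2 % 2 = 0 ∧ f.2 % 2 = 1 ∧ crossHV (G.hE e.1 (e.2 / 2)) (G.vE f.1 (f.2 / 2)) = true

/-- sign of a classical crossing -/
def sign (e : HEdge m) (f : VEdge m) : Bool :=
  if G.k0 e f = Kind.above then (decide (e.x₁ < e.x₂) == decide (f.y₁ < f.y₂))
  else (decide (e.x₁ < e.x₂) != decide (f.y₁ < f.y₂))

/-- Gauss code entries met on the horizontal edge `e` -/
def rowPasses (e : HEdge m) : List Pass :=
  ((if e.x₁ < e.x₂ then G.VT else G.VT.reverse).filter
    fun f => crossHV e f && decide (G.k0 e f ≠ Kind.virt)).map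
    fun f => ⟨e.y * G.N + f.x, decide (G.k0 e f = Kind.above), G.sign e f⟩

/-- Gauss code entries met on the vertical edge `f` -/
def colPasses (f : VEdge m) : List Pass :=
  ((if f.y₁ < f.y₂ then G.HT else G.HT.reverse).filter
    fun e => crossHV e f && decide (G.k0 e f ≠ Kind.virt)).map
    fun e => ⟨e.y * G.N + f.x, decide (G.k0 e f = Kind.below), G.sign e f⟩

/-- the Gauss code of a rectilinear diagram -/
def code : Code m := fun i =>
  (List.range (G.h i)).flatMap fun r => G.rowPasses (G.hE i r) ++ G.colPasses (G.vE i r)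

/-- number of virtual crossings, computed from the tables -/
def virtCount : ℕ :=
  (G.HT.map fun e => (G.VT.filter fun f => crossHV e f && decide (G.k0 e f = Kind.virt)).length).sum

/-- number of classical crossings, computed from the tables -/
def classCount : ℕ :=
  (G.HT.map fun e => (G.VT.filter fun f => crossHV e f && decide (G.k0 e f ≠ Kind.virt)).length).sum

end Grid

end Pool.Agent.Lib.MP_0a0e82_gt
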