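import Pool.Agent.Lib.MP_0a0e82_gt.Codes

/-!
# The two diagrams have equivalent Gauss codes
-/

set_option autoImplicit false
set_option maxRecDepth 100000

namespace Pool.Agent.Lib.MP_0a0e82_gt

open Code

lemma K44 (wa w1 w2 wx : List Pass) : K wa w1 w2 wx 44 = wa := rfl
lemma K45 (wa w1 w2 wx : List Pass) : K wa w1 w2 wx 45 = w1 := rfl
lemma K46 (wa w1 w2 wx : List Pass) : K wa w1 w2 wx 46 = w2 := rfl
lemma K47 (wa w1 w2 wx : List Pass) : K wa w1 w2 wx 47 = wx := rfl

lemma up44 (wa w1 w2 wx w : List Pass) : Function.update (K wa w1 w2 wx) 44 w = K w w1 w2 wx := by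
  funext i
  by_cases h : i = 44
  · subst h; rw [Function.update_self, K44]
  · rw [Function.update_of_ne h]; simp only [K, if_neg h]

lemma up45 (wa w1 w2 wx w : List Pass) : Function.update (K wa w1 w2 wx) 45 w = K wa w w2 wx := by
  funext i
  by_cases h : i = 45
  · subst h; rw [Function.update_self, K45]
  · rw [Function.update_of_ne h]; simp only [K, if_neg h]

lemma up46 (wa w1 w2 wx w : List Pass) : Function.update (K wa w1 w2 wx) 46 w = K wa w1 w wx := by
  funext i
  by_cases h : i = 46
  · subst h; rw [Function.update_self, K46]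
  · rw [Function.update_of_ne h]; simp only [K, if_neg h]

lemma up47 (wa w1 w2 wx w : List Pass) : Function.update (K wa w1 w2 wx) 47 w = K wa w1 w2 w := by
  funext i
  by_cases h : i = 47
  · subst h; rw [Function.update_self, K47]
  · rw [Function.update_of_ne h]; simp only [K, if_neg h]

lemma sw44 {P Q : Pass} {wa w1 w2 wx A B : List Pass} (h : wa = A ++ P :: Q :: B) :
    Swap P Q (K wa w1 w2 wx) (K (A ++ Q :: P :: B) w1 w2 wx) :=
  ⟨44, A, B, by rw [K44, h], by rw [up44]⟩

lemma sw45 {P Q : Pass} {wa w1 w2 wx A B : List Pass} (h : w1 = A ++ P :: Q :: B) :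
    Swap P Q (K wa w1 w2 wx) (K wa (A ++ Q :: P :: B) w2 wx) :=
  ⟨45, A, B, by rw [K45, h], by rw [up45]⟩

lemma sw46 {P Q : Pass} {wa w1 w2 wx A B : List Pass} (h : w2 = A ++ P :: Q :: B) :
    Swap P Q (K wa w1 w2 wx) (K wa w1 (A ++ Q :: P :: B) wx) :=
  ⟨46, A, B, by rw [K46, h], by rw [up46]⟩

lemma sw47 {P Q : Pass} {wa w1 w2 wx A B : List Pass} (h : wx = A ++ P :: Q :: B) :
    Swap P Q (K wa w1 w2 wx) (K wa w1 w2 (A ++ Q :: P :: B)) :=
  ⟨47, A, B, by rw [K47, h], by rw [up47]⟩

/-- codes with prescribed middle parts of the four words -/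
def KM (ma m1 m2 mx : List Pass) : Code 49 :=
  K (a0 ++ ma ++ a1) (b10 ++ m1 ++ b11) (b20 ++ m2 ++ b21) (x0 ++ mx ++ x1)

-- names: crossings of a with b2, b1 (left, right), with x (left c, right d)
abbrev pO (n : ℕ) (s : Bool) : Pass := ⟨n, true, s⟩
abbrev pU (n : ℕ) (s : Bool) : Pass := ⟨n, false, s⟩

/-- intermediate code 0 -/
def G0 : Code 49 := KM [pO 8240 false, pO 8241 false, pO 8286 true, pO 8287 true]
  [pU 8241 false, pU 7114 true, pO 7115 true, pU 8286 true]
  [pU 8240 false, pU 7010 true, pO 7011 true, pU 8287 true]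
  [pU 7011 true, pU 7115 true, pO 7114 true, pO 7010 true]

/-- intermediate code 1 -/
def G1 : Code 49 := KM [pO 8240 false, pO 8241 false, pO 6906 false, pO 6907 true, pO 8286 true, pO 8287 true]
  [pU 8241 false, pU 7114 true, pO 7115 true, pU 8286 true]
  [pU 8240 false, pU 7010 true, pO 7011 true, pU 8287 true]
  [pU 7011 true, pU 7115 true, pU 6907 true, pU 6906 false, pO 7114 true, pO 7010 true]

/-- intermediate code 2 -/
def G2 : Code 49 := KM [pO 8240 false, pO 6906 false, pO 8241 false, pO 6907 true, pO 8286 true, pO 8287 true]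
  [pU 7114 true, pU 8241 false, pO 7115 true, pU 8286 true]
  [pU 8240 false, pU 7010 true, pO 7011 true, pU 8287 true]
  [pU 7011 true, pU 7115 true, pU 6907 true, pO 7114 true, pU 6906 false, pO 7010 true]

/-- intermediate code 3 -/
def G3 : Code 49 := KM [pO 8240 false, pO 6906 false, pO 8241 false, pO 8286 true, pO 6907 true, pO 8287 true]
  [pU 7114 true, pU 8241 false, pU 8286 true, pO 7115 true]
  [pU 8240 false, pU 7010 true, pO 7011 true, pU 8287 true]
  [pU 7011 true, pU 6907 true, pU 7115 true, pO 7114 true, pU 6906 false, pO 7010 true]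

/-- intermediate code 4 -/
def G4 : Code 49 := KM [pO 8240 false, pO 6906 false, pO 6907 true, pO 8287 true]
  [pU 7114 true, pO 7115 true]
  [pU 8240 false, pU 7010 true, pO 7011 true, pU 8287 true]
  [pU 7011 true, pU 6907 true, pU 7115 true, pO 7114 true, pU 6906 false, pO 7010 true]

/-- intermediate code 5 -/
def G5 : Code 49 := KM [pO 6906 false, pO 8240 false, pO 6907 true, pO 8287 true]
  [pU 7114 true, pO 7115 true]
  [pU 7010 true, pU 8240 false, pO 7011 true, pU 8287 true]
  [pU 7011 true, pU 6907 true, pU 7115 true, pO 7114 true, pO 7010 true, pU 6906 false]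

/-- intermediate code 6 -/
def G6 : Code 49 := KM [pO 6906 false, pO 8240 false, pO 8287 true, pO 6907 true]
  [pU 7114 true, pO 7115 true]
  [pU 7010 true, pU 8240 false, pU 8287 true, pO 7011 true]
  [pU 6907 true, pU 7011 true, pU 7115 true, pO 7114 true, pO 7010 true, pU 6906 false]

/-- intermediate code 7 -/
def G7 : Code 49 := KM [pO 6906 false, pO 6907 true]
  [pU 7114 true, pO 7115 true]
  [pU 7010 true, pO 7011 true]
  [pU 6907 true, pU 7011 true, pU 7115 true, pO 7114 true, pO 7010 true, pU 6906 false]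

/-- `a` is pulled over `x` -/
theorem mv_0_1 : Move G0 G1 := by
  have hc : Fresh 6906 G0 := by unfold Fresh; decide +kernel
  have hd : Fresh 6907 G0 := by unfold Fresh; decide +kernel
  have := Move.r2 _ 44 47 (by decide) (a0 ++ [pO 8240 false, pO 8241 false]) ([pO 8286 true, pO 8287 true] ++ a1) (x0 ++ [pU 7011 true, pU 7115 true]) ([pO 7114 true, pO 7010 true] ++ x1) 6906 6907 false false
    (by decide) hc hd rfl rfl
  unfold G0 KM at this
  rw [up44, up47] at this
  exact this

/-- third move: `a` over `x`, `b1`, left -/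
theorem mv_1_2 : Move G1 G2 := by
  have h := Move.r3 G1 _ _ _ 6906 8241 7114 false false true false true true (by decide) (by decide) (by decide) rfl rfl
    (sw44 (P := pO 8241 false) (Q := pO 6906 false) (A := a0 ++ [pO 8240 false]) (B := [pO 6907 true, pO 8286 true, pO 8287 true] ++ a1) rfl)
    (sw47 (P := pU 6906 false) (Q := pO 7114 true) (A := x0 ++ [pU 7011 true, pU 7115 true, pU 6907 true]) (B := [pO 7010 true] ++ x1) rfl)
    (sw45 (P := pU 8241 false) (Q := pU 7114 true) (A := b10 ++ []) (B := [pO 7115 true, pU 8286 true] ++ b11) rfl)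
  exact h

/-- third move: `a` over `b1`, `x`, right -/
theorem mv_2_3 : Move G2 G3 := by
  have h := Move.r3 G2 _ _ _ 8286 6907 7115 true true true false false false (by decide) (by decide) (by decide) rfl rfl
    (sw44 (P := pO 6907 true) (Q := pO 8286 true) (A := a0 ++ [pO 8240 false, pO 6906 false, pO 8241 false]) (B := [pO 8287 true] ++ a1) rfl)
    (sw45 (P := pO 7115 true) (Q := pU 8286 true) (A := b10 ++ [pU 7114 true, pU 8241 false]) (B := [] ++ b11) rfl)
    (sw47 (P := pU 7115 true) (Q := pU 6907 true) (A := x0 ++ [pU 7011 true]) (B := [pO 7114 true, pU 6906 false, pO 7010 true] ++ x1) rfl)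
  exact h

/-- second move between `a` and `b1` -/
theorem mv_4_3 : Move G4 G3 := by
  have hc : Fresh 8241 G4 := by unfold Fresh; decide +kernel
  have hd : Fresh 8286 G4 := by unfold Fresh; decide +kernel
  have := Move.r2 _ 44 45 (by decide) (a0 ++ [pO 8240 false, pO 6906 false]) ([pO 6907 true, pO 8287 true] ++ a1) (b10 ++ [pU 7114 true]) ([pO 7115 true] ++ b11) 8241 8286 false true
    (by decide) hc hd rfl rfl
  unfold G4 KM at this
  rw [up44, up45] at this
  exact this

/-- third move: `a` over `x`, `b2`, left -/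
theorem mv_4_5 : Move G4 G5 := by
  have h := Move.r3 G4 _ _ _ 6906 8240 7010 false false true false true true (by decide) (by decide) (by decide) rfl rfl
    (sw44 (P := pO 8240 false) (Q := pO 6906 false) (A := a0 ++ []) (B := [pO 6907 true, pO 8287 true] ++ a1) rfl)
    (sw47 (P := pU 6906 false) (Q := pO 7010 true) (A := x0 ++ [pU 7011 true, pU 6907 true, pU 7115 true, pO 7114 true]) (B := [] ++ x1) rfl)
    (sw46 (P := pU 8240 false) (Q := pU 7010 true) (A := b20 ++ []) (B := [pO 7011 true, pU 8287 true] ++ b21) rfl)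
  exact h

/-- third move: `a` over `b2`, `x`, right -/
theorem mv_5_6 : Move G5 G6 := by
  have h := Move.r3 G5 _ _ _ 8287 6907 7011 true true true false false false (by decide) (by decide) (by decide) rfl rfl
    (sw44 (P := pO 6907 true) (Q := pO 8287 true) (A := a0 ++ [pO 6906 false, pO 8240 false]) (B := [] ++ a1) rfl)
    (sw46 (P := pO 7011 true) (Q := pU 8287 true) (A := b20 ++ [pU 7010 true, pU 8240 false]) (B := [] ++ b21) rfl)
    (sw47 (P := pU 7011 true) (Q := pU 6907 true) (A := x0 ++ []) (B := [pU 7115 true, pO 7114 true, pO 7010 true, pU 6906 false] ++ x1) rfl)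
  exact h

/-- second move between `a` and `b2` -/
theorem mv_7_6 : Move G7 G6 := by
  have hc : Fresh 8240 G7 := by unfold Fresh; decide +kernel
  have hd : Fresh 8287 G7 := by unfold Fresh; decide +kernel
  have := Move.r2 _ 44 46 (by decide) (a0 ++ [pO 6906 false]) ([pO 6907 true] ++ a1) (b20 ++ [pU 7010 true]) ([pO 7011 true] ++ b21) 8240 8287 false true
    (by decide) hc hd rfl rfl
  unfold G7 KM at this
  rw [up44, up46] at this
  exact this

theorem litA_G0 : litA = G0 := rfl

theorem litB_G7 : litB = G7 := rfl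

/-- the Gauss codes of the two diagrams are equivalent -/
theorem codes_equiv : Relation.EqvGen Move TA.code TB.code := by
  rw [codeA, codeB, litA_G0, litB_G7]
  exact ((((((Relation.EqvGen.rel _ _ mv_0_1).trans _ _ _ (.rel _ _ mv_1_2)).trans _ _ _
    (.rel _ _ mv_2_3)).trans _ _ _ (.symm _ _ (.rel _ _ mv_4_3))).trans _ _ _
    (.rel _ _ mv_4_5)).trans _ _ _ (.rel _ _ mv_5_6)).trans _ _ _ (.symm _ _ (.rel _ _ mv_7_6))

end Pool.Agent.Lib.MP_0a0e82_gt
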