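import Pool.Agent.Lib.MP_0a0e82_gt.Bound
import Pool.Agent.Lib.MP_0a0e82_gt.Moves
import Pool.Agent.Lib.MP_0a0e82_gt.Grid2
import Pool.Agent.Lib.MP_0a0e82_gt.Grid3

/-!
# Assembly: a virtual link with `C + V < T`
-/

set_option autoImplicit false
set_option maxRecDepth 100000

namespace Pool.Agent.Lib.MP_0a0e82_gt

/-- number of pairs (over entry of `A`, under entry of `B`) with the same crossing name -/
def lkN (A B : List Pass) : ℕ :=
  (A.map fun p => if p.isOver then (B.countP fun q => !q.isOver && (q.lab == p.lab)) else 0).sum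

lemma lk2_eq_lkN {m : ℕ} (G : Code m) (i j : Fin m) : lk2 G i j = (lkN (G i) (G j) : ZMod 2) := by
  unfold lk2 lkN
  generalize G i = A
  generalize G j = B
  rw [Nat.cast_list_sum, List.map_map]
  congr 1
  apply List.map_congr_left
  intro p _
  simp only [Function.comp]
  by_cases hp : p.isOver = true
  · rw [if_pos hp]
    induction B with
    | nil => simp
    | cons q B ih =>
      rw [List.map_cons, List.sum_cons, ih, List.countP_cons, Nat.cast_add, add_comm]
      congr 1
      by_cases hq : q.isOver = false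
      · by_cases hl : q.lab = p.lab
        · simp [hp, hq, hl]
        · have hl' : ¬ p.lab = q.lab := fun h => hl h.symm
          simp [hq, hl, hl']
      · simp [hq]
  · rw [if_neg hp]
    rw [Nat.cast_zero]
    apply List.sum_eq_zero
    intro x hx
    obtain ⟨q, _, rfl⟩ := List.mem_map.1 hx
    rw [if_neg (fun h => hp h.1)]

/-- all linked pairs have an odd linking number in one direction -/
theorem lkA_odd : ∀ i j, lnk (lbl i) (lbl j) = true →
    lkN (litA i) (litA j) % 2 = 1 ∨ lkN (litA j) (litA i) % 2 = 1 := by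
  decide +kernel

lemma lnk_ne {i j : Fin 49} (h : lnk (lbl i) (lbl j) = true) : i ≠ j := by
  rintro rfl
  revert h
  revert i
  decide +kernel

/-- linked pairs of components of the first diagram -/
theorem lkA_diagram (i j : Fin 49) (h : lnk (lbl i) (lbl j) = true) :
    TA.toDiagram.lk2 i j ≠ 0 ∨ TA.toDiagram.lk2 j i ≠ 0 := by
  have hij := lnk_ne h
  have hc : TA.toDiagram.HasCode litA := by
    rw [← codeA]; exact TA.hasCode
  have hodd : ∀ n : ℕ, n % 2 = 1 → ((n : ℕ) : ZMod 2) ≠ 0 := by
    intro n hn h0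
    rw [ZMod.natCast_eq_zero_iff_even, Nat.even_iff] at h0
    omega
  rw [← lk2_hasCode _ _ hc i j hij, ← lk2_hasCode _ _ hc j i hij.symm, lk2_eq_lkN, lk2_eq_lkN]
  rcases lkA_odd i j h with h1 | h1
  · exact Or.inl (hodd _ h1)
  · exact Or.inr (hodd _ h1)

/-- every diagram of the link has at least 468 crossings -/
theorem total_lower (D : Diagram 49) (h : D.link = TA.toDiagram.link) : 468 ≤ D.totalCrossings := by
  obtain ⟨σ, hσ⟩ := lk2_link TA.toDiagram D h.symm
  have hlb := lower_bound (fun a => D.cv (σ.symm a))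
    (fun i j hij => D.gp (fun h => hij (σ.symm.injective h))) (by
      intro i j hl
      have hij := lnk_ne hl
      have hij' : σ.symm i ≠ σ.symm j := fun h => hij (σ.symm.injective h)
      rcases lkA_diagram i j hl with h1 | h1
      · apply D.t_ne_zero_of_lk2
        rw [hσ _ _ hij', Equiv.apply_symm_apply, Equiv.apply_symm_apply]
        exact h1
      · have h2 : (D.cv (σ.symm j)).t (D.cv (σ.symm i)) ≠ 0 := by
          apply D.t_ne_zero_of_lk2
          rw [hσ _ _ hij'.symm, Equiv.apply_symm_apply, Equiv.apply_symm_apply]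
          exact h1
        unfold Cv.t at h2 ⊢
        rwa [cnt_comm])
  have hsum : (∑ i, ∑ j, if i = j then 0 else (D.cv (σ.symm i)).t (D.cv (σ.symm j))) =
      ∑ i, ∑ j, if i = j then 0 else (D.cv i).t (D.cv j) := by
    rw [← Equiv.sum_comp σ]
    apply Finset.sum_congr rfl
    intro i _
    rw [← Equiv.sum_comp σ]
    apply Finset.sum_congr rfl
    intro j _
    simp only [Equiv.symm_apply_apply, σ.injective.eq_iff]
  rw [hsum] at hlb
  have := D.total_ge
  omega

/-- the two diagrams represent the same virtual link -/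
theorem same_link : TB.toDiagram.link = TA.toDiagram.link :=
  (Quot.sound ⟨TA.code, TB.code, TA.hasCode, TB.hasCode, codes_equiv⟩ : TA.toDiagram.link =
    TB.toDiagram.link).symm

/-- the numbers for the virtual link represented by the two diagrams -/
theorem numbers : TA.toDiagram.link.C ≤ 438 ∧ TA.toDiagram.link.V ≤ 28 ∧
    468 ≤ TA.toDiagram.link.T := by
  have h1 : TB.toDiagram.classicalCrossings ∈
      {c | ∃ D : Diagram 49, D.link = TA.toDiagram.link ∧ D.classicalCrossings = c} :=
    ⟨_, same_link, rfl⟩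
  have h2 : TA.toDiagram.virtualCrossings ∈
      {c | ∃ D : Diagram 49, D.link = TA.toDiagram.link ∧ D.virtualCrossings = c} :=
    ⟨_, rfl, rfl⟩
  have h3 : {c | ∃ D : Diagram 49, D.link = TA.toDiagram.link ∧ D.totalCrossings = c}.Nonempty :=
    ⟨_, TA.toDiagram, rfl, rfl⟩
  refine ⟨?_, ?_, ?_⟩
  · exact (Nat.sInf_le h1).trans (TB.classicalCrossings_le.trans classB.le)
  · exact (Nat.sInf_le h2).trans (TA.virtualCrossings_le.trans virtA.le)
  · obtain ⟨D, hD, hDc⟩ := Nat.sInf_mem h3
    unfold VirtualLink.T
    rw [← hDc]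
    exact total_lower D hD

end Pool.Agent.Lib.MP_0a0e82_gt
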