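import Pool.Agent.Lib.MP_0a0e82_gt.SegDefs

/-!
# Parity of the crossings of two segments (piece A1 for MP_0a0e82_gt)
-/

set_option autoImplicit false

namespace Pool.Agent.Lib.MP_0a0e82_gt

/-! ### Exchanging the end points -/

theorem det2_swap (a b p : Pt) : det2 (a - b) (p - b) = - det2 (b - a) (p - a) := by
  simp only [det2, Prod.fst_sub, Prod.snd_sub]
  ring

theorem Rp_swap (p : Pt) (t : Seg) : Rp p (t.2, t.1) = Rp p t := by
  unfold Rp
  refine if_congr ?_ rfl rfl
  simp only [det2_swap t.1 t.2 p]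
  constructor
  · rintro (⟨h1, h2, h3⟩ | ⟨h1, h2, h3⟩)
    · right; exact ⟨h1, h2, by linarith⟩
    · left; exact ⟨h1, h2, by linarith⟩
  · rintro (⟨h1, h2, h3⟩ | ⟨h1, h2, h3⟩)
    · right; exact ⟨h1, h2, by linarith⟩
    · left; exact ⟨h1, h2, by linarith⟩

theorem Rm_swap (p : Pt) (t : Seg) : Rm p (t.2, t.1) = Rm p t := by
  unfold Rm
  refine if_congr ?_ rfl rfl
  simp only [det2_swap t.1 t.2 p]
  constructor
  · rintro (⟨h1, h2, h3⟩ | ⟨h1, h2, h3⟩)
    · right; exact ⟨h1, h2, by linarith⟩
    · left; exact ⟨h1, h2, by linarith⟩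
  · rintro (⟨h1, h2, h3⟩ | ⟨h1, h2, h3⟩)
    · right; exact ⟨h1, h2, by linarith⟩
    · left; exact ⟨h1, h2, by linarith⟩

theorem X_swap_left (s t : Seg) : X (s.2, s.1) t = X s t := by
  unfold X
  rw [Rm_swap, Rm_swap]
  ring

theorem X_swap_right (s t : Seg) : X s (t.2, t.1) = X s t := by
  unfold X
  rw [Rp_swap, Rp_swap]
  ring

/-! ### The sorted case in coordinates -/

open Classical in
theorem X_sorted (a a' b b' c c' d d' : ℝ) (hab : a ≤ b) (hcd : c ≤ d) :
    X ((a, a'), (b, b')) ((c, c'), (d, d')) =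
      (if c ≤ a ∧ a < d ∧ 0 < (d - c) * (a' - c') - (d' - c') * (a - c) then 1 else 0) +
      (if c ≤ b ∧ b < d ∧ 0 < (d - c) * (b' - c') - (d' - c') * (b - c) then 1 else 0) +
      (if a < c ∧ c ≤ b ∧ (b - a) * (c' - a') - (b' - a') * (c - a) < 0 then 1 else 0) +
      (if a < d ∧ d ≤ b ∧ (b - a) * (d' - a') - (b' - a') * (d - a) < 0 then 1 else 0) := by
  unfold X Rp Rm
  simp only [det2, Prod.fst_sub, Prod.snd_sub]
  congr 1
  · congr 1
    · congr 1
      · refine if_congr ⟨?_, ?_⟩ rfl rfl
        · rintro (h | ⟨h1, h2, h3⟩)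
          · exact h
          · exfalso; linarith
        · intro h; left; exact h
      · refine if_congr ⟨?_, ?_⟩ rfl rfl
        · rintro (h | ⟨h1, h2, h3⟩)
          · exact h
          · exfalso; linarith
        · intro h; left; exact h
    · refine if_congr ⟨?_, ?_⟩ rfl rfl
      · rintro (h | ⟨h1, h2, h3⟩)
        · exact h
        · exfalso; linarith
      · intro h; left; exact h
  · refine if_congr ⟨?_, ?_⟩ rfl rfl
    · rintro (h | ⟨h1, h2, h3⟩)
      · exact h
      · exfalso; linarith
    · intro h; left; exact h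

/-- the common form of the two segments: four propositions, an even number of which hold -/
theorem ite_pair_eq (P Q : Prop) [Decidable P] [Decidable Q] (h : P ↔ Q) :
    ((if P then 1 else 0 : ZMod 2) + (if Q then 1 else 0)) = 0 := by
  by_cases hP : P
  · have hQ := h.1 hP
    rw [if_pos hP, if_pos hQ]; decide
  · have hQ : ¬ Q := fun hQ => hP (h.2 hQ)
    rw [if_neg hP, if_neg hQ]; decide

theorem ite_pair_ne (P Q : Prop) [Decidable P] [Decidable Q] (h : P ↔ ¬ Q) :
    ((if P then 1 else 0 : ZMod 2) + (if Q then 1 else 0)) = 1 := by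
  by_cases hP : P
  · have hQ := h.1 hP
    rw [if_pos hP, if_neg hQ]; decide
  · have hQ : Q := by
      by_contra hQ
      exact hP (h.2 hQ)
    rw [if_neg hP, if_pos hQ]; decide

open Classical in
/-- In the overlapping case the four terms reduce to the signs of `F` at the two ends. -/
theorem X_overlap (a a' b b' c c' d d' : ℝ) (hab : a < b) (hcd : c < d)
    (hcb : c < b) (had : a < d) :
    X ((a, a'), (b, b')) ((c, c'), (d, d')) =
      (if 0 < (d - c) * (a' * (b - a) + (b' - a') * (max a c - a)) -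
        (b - a) * (c' * (d - c) + (d' - c') * (max a c - c)) then 1 else 0) +
      (if 0 < (d - c) * (a' * (b - a) + (b' - a') * (min b d - a)) -
        (b - a) * (c' * (d - c) + (d' - c') * (min b d - c)) then 1 else 0) := by
  rw [X_sorted a a' b b' c c' d d' hab.le hcd.le]
  have h1 : ((if c ≤ a ∧ a < d ∧ 0 < (d - c) * (a' - c') - (d' - c') * (a - c) then 1 else 0 : ZMod 2) +
      (if a < c ∧ c ≤ b ∧ (b - a) * (c' - a') - (b' - a') * (c - a) < 0 then 1 else 0)) =
      (if 0 < (d - c) * (a' * (b - a) + (b' - a') * (max a c - a)) -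
        (b - a) * (c' * (d - c) + (d' - c') * (max a c - c)) then 1 else 0) := by
    rcases le_or_gt c a with hca | hac
    · have hn : ¬ (a < c ∧ c ≤ b ∧ (b - a) * (c' - a') - (b' - a') * (c - a) < 0) := by
        rintro ⟨h, -⟩; linarith
      rw [if_neg hn, add_zero, max_eq_left hca]
      refine if_congr ?_ rfl rfl
      have e : (d - c) * (a' * (b - a) + (b' - a') * (a - a)) -
        (b - a) * (c' * (d - c) + (d' - c') * (a - c)) =
        (b - a) * ((d - c) * (a' - c') - (d' - c') * (a - c)) := by ring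
      rw [e]
      constructor
      · rintro ⟨-, -, h⟩
        exact mul_pos (by linarith) h
      · intro h
        exact ⟨hca, had, (mul_pos_iff_of_pos_left (by linarith)).1 h⟩
    · have hn : ¬ (c ≤ a ∧ a < d ∧ 0 < (d - c) * (a' - c') - (d' - c') * (a - c)) := by
        rintro ⟨h, -⟩; linarith
      rw [if_neg hn, zero_add, max_eq_right hac.le]
      refine if_congr ?_ rfl rfl
      have e : (d - c) * (a' * (b - a) + (b' - a') * (c - a)) -
        (b - a) * (c' * (d - c) + (d' - c') * (c - c)) =
        (d - c) * (-((b - a) * (c' - a') - (b' - a') * (c - a))) := by ring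
      rw [e]
      constructor
      · rintro ⟨-, -, h⟩
        exact mul_pos (by linarith) (by linarith)
      · intro h
        have := (mul_pos_iff_of_pos_left (by linarith : (0:ℝ) < d - c)).1 h
        exact ⟨hac, hcb.le, by linarith⟩
  have h2 : ((if c ≤ b ∧ b < d ∧ 0 < (d - c) * (b' - c') - (d' - c') * (b - c) then 1 else 0 : ZMod 2) +
      (if a < d ∧ d ≤ b ∧ (b - a) * (d' - a') - (b' - a') * (d - a) < 0 then 1 else 0)) =
      (if 0 < (d - c) * (a' * (b - a) + (b' - a') * (min b d - a)) -
        (b - a) * (c' * (d - c) + (d' - c') * (min b d - c)) then 1 else 0) := by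
    rcases lt_or_ge b d with hbd | hdb
    · have hn : ¬ (a < d ∧ d ≤ b ∧ (b - a) * (d' - a') - (b' - a') * (d - a) < 0) := by
        rintro ⟨-, h, -⟩; linarith
      rw [if_neg hn, add_zero, min_eq_left hbd.le]
      refine if_congr ?_ rfl rfl
      have e : (d - c) * (a' * (b - a) + (b' - a') * (b - a)) -
        (b - a) * (c' * (d - c) + (d' - c') * (b - c)) =
        (b - a) * ((d - c) * (b' - c') - (d' - c') * (b - c)) := by ring
      rw [e]
      constructor
      · rintro ⟨-, -, h⟩
        exact mul_pos (by linarith) h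
      · intro h
        exact ⟨hcb.le, hbd, (mul_pos_iff_of_pos_left (by linarith)).1 h⟩
    · have hn : ¬ (c ≤ b ∧ b < d ∧ 0 < (d - c) * (b' - c') - (d' - c') * (b - c)) := by
        rintro ⟨-, h, -⟩; linarith
      rw [if_neg hn, zero_add, min_eq_right hdb]
      refine if_congr ?_ rfl rfl
      have e : (d - c) * (a' * (b - a) + (b' - a') * (d - a)) -
        (b - a) * (c' * (d - c) + (d' - c') * (d - c)) =
        (d - c) * (-((b - a) * (d' - a') - (b' - a') * (d - a))) := by ring
      rw [e]
      constructor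
      · rintro ⟨-, -, h⟩
        exact mul_pos (by linarith) (by linarith)
      · intro h
        have := (mul_pos_iff_of_pos_left (by linarith : (0:ℝ) < d - c)).1 h
        exact ⟨had, hdb, by linarith⟩
  rw [← h1, ← h2]
  ring

/-! ### Points of the segments in coordinates -/

theorem dj_coord (a a' b b' c c' d d' : ℝ) (h : Dj ((a, a'), (b, b')) ((c, c'), (d, d')))
    (u v : ℝ) (hu0 : 0 ≤ u) (hu1 : u ≤ 1) (hv0 : 0 ≤ v) (hv1 : v ≤ 1)
    (e1 : a + u * (b - a) = c + v * (d - c)) (e2 : a' + u * (b' - a') = c' + v * (d' - c')) :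
    False := by
  unfold Dj Seg.set at h
  rw [Set.disjoint_left] at h
  refine @h (a + u * (b - a), a' + u * (b' - a')) ?_ ?_
  · rw [segment_eq_image']
    exact ⟨u, ⟨hu0, hu1⟩, by simp⟩
  · rw [segment_eq_image', e1, e2]
    exact ⟨v, ⟨hv0, hv1⟩, by simp⟩

theorem sc_coord (a a' b b' c c' d d' : ℝ) (h : Sc ((a, a'), (b, b')) ((c, c'), (d, d'))) :
    (b - a) * (d' - c') - (b' - a') * (d - c) ≠ 0 ∧
    ∃ u v : ℝ, 0 < u ∧ u < 1 ∧ 0 < v ∧ v < 1 ∧ a + u * (b - a) = c + v * (d - c) ∧
      a' + u * (b' - a') = c' + v * (d' - c') := by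
  obtain ⟨h0, p, hp1, hp2⟩ := h
  refine ⟨by simpa [det2] using h0, ?_⟩
  rw [openSegment_eq_image'] at hp1 hp2
  obtain ⟨u, ⟨hu0, hu1⟩, hu⟩ := hp1
  obtain ⟨v, ⟨hv0, hv1⟩, hv⟩ := hp2
  refine ⟨u, v, hu0, hu1, hv0, hv1, ?_, ?_⟩
  · have := congrArg Prod.fst (hu.trans hv.symm)
    simpa using this
  · have := congrArg Prod.snd (hu.trans hv.symm)
    simpa using this

theorem exists_zero (g : ℝ → ℝ) (hg : Continuous g) (m M : ℝ) (hmM : m ≤ M)
    (h : ¬ (0 < g m ↔ 0 < g M)) : ∃ x, m ≤ x ∧ x ≤ M ∧ g x = 0 := by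
  by_cases h1 : 0 < g m
  · have h2 : g M ≤ 0 := by
      by_contra hc
      exact h ⟨fun _ => not_le.1 hc, fun _ => h1⟩
    obtain ⟨x, hx, hx0⟩ := intermediate_value_Icc' hmM hg.continuousOn ⟨h2, h1.le⟩
    exact ⟨x, hx.1, hx.2, hx0⟩
  · have h2 : 0 < g M := by
      by_contra hc
      exact h ⟨fun h' => absurd h' h1, fun h' => absurd h' hc⟩
    obtain ⟨x, hx, hx0⟩ := intermediate_value_Icc hmM hg.continuousOn ⟨not_lt.1 h1, h2.le⟩
    exact ⟨x, hx.1, hx.2, hx0⟩

/-! ### Disjoint segments, sorted -/

theorem X_disj_overlap (a a' b b' c c' d d' : ℝ) (hab : a < b) (hcd : c < d)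
    (hcb : c < b) (had : a < d) (h : Dj ((a, a'), (b, b')) ((c, c'), (d, d'))) :
    X ((a, a'), (b, b')) ((c, c'), (d, d')) = 0 := by
  classical
  rw [X_overlap a a' b b' c c' d d' hab hcd hcb had]
  apply ite_pair_eq
  by_contra hne
  obtain ⟨x, hx1, hx2, hx0⟩ := exists_zero
    (fun x => (d - c) * (a' * (b - a) + (b' - a') * (x - a)) -
        (b - a) * (c' * (d - c) + (d' - c') * (x - c))) (by fun_prop) (max a c) (min b d)
    (max_le (le_min hab.le had.le) (le_min hcb.le hcd.le)) hne
  have hxa : a ≤ x := (le_max_left a c).trans hx1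
  have hxc : c ≤ x := (le_max_right a c).trans hx1
  have hxb : x ≤ b := hx2.trans (min_le_left b d)
  have hxd : x ≤ d := hx2.trans (min_le_right b d)
  have hba : 0 < b - a := by linarith
  have hdc : 0 < d - c := by linarith
  refine dj_coord a a' b b' c c' d d' h ((x - a) / (b - a)) ((x - c) / (d - c))
    (div_nonneg (by linarith) hba.le) ((div_le_one hba).2 (by linarith))
    (div_nonneg (by linarith) hdc.le) ((div_le_one hdc).2 (by linarith)) ?_ ?_
  · rw [div_mul_cancel₀ _ hba.ne', div_mul_cancel₀ _ hdc.ne']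
    ring
  · have e : (a' + (x - a) / (b - a) * (b' - a')) - (c' + (x - c) / (d - c) * (d' - c')) =
      ((d - c) * (a' * (b - a) + (b' - a') * (x - a)) -
        (b - a) * (c' * (d - c) + (d' - c') * (x - c))) / ((b - a) * (d - c)) := by
      field_simp
    have hx0' : (d - c) * (a' * (b - a) + (b' - a') * (x - a)) -
        (b - a) * (c' * (d - c) + (d' - c') * (x - c)) = 0 := hx0
    rw [hx0', zero_div] at e
    linarith

theorem X_disj_vert_left (a a' b' c c' d d' : ℝ) (hcd : c ≤ d)
    (h : Dj ((a, a'), (a, b')) ((c, c'), (d, d'))) :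
    X ((a, a'), (a, b')) ((c, c'), (d, d')) = 0 := by
  classical
  rw [X_sorted a a' a b' c c' d d' le_rfl hcd]
  have n3 : ¬ (a < c ∧ c ≤ a ∧ (a - a) * (c' - a') - (b' - a') * (c - a) < 0) := by
    rintro ⟨h1, h2, -⟩; linarith
  have n4 : ¬ (a < d ∧ d ≤ a ∧ (a - a) * (d' - a') - (b' - a') * (d - a) < 0) := by
    rintro ⟨h1, h2, -⟩; linarith
  rw [if_neg n3, if_neg n4, add_zero, add_zero]
  apply ite_pair_eq
  by_cases hr : c ≤ a ∧ a < d
  · have hdc : 0 < d - c := by linarith [hr.1, hr.2]
    have key : (0 < (d - c) * (a' - c') - (d' - c') * (a - c) ↔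
        0 < (d - c) * (b' - c') - (d' - c') * (a - c)) := by
      by_contra hne
      obtain ⟨u, hu0, hu1, hu⟩ := exists_zero
        (fun u => (d - c) * (a' + u * (b' - a') - c') - (d' - c') * (a - c)) (by fun_prop) 0 1
        zero_le_one (by
          intro h'
          apply hne
          have e0 : (d - c) * (a' + 0 * (b' - a') - c') - (d' - c') * (a - c) =
            (d - c) * (a' - c') - (d' - c') * (a - c) := by ring
          have e1 : (d - c) * (a' + 1 * (b' - a') - c') - (d' - c') * (a - c) =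
            (d - c) * (b' - c') - (d' - c') * (a - c) := by ring
          have h'' : (0 < (d - c) * (a' + 0 * (b' - a') - c') - (d' - c') * (a - c) ↔
            0 < (d - c) * (a' + 1 * (b' - a') - c') - (d' - c') * (a - c)) := h'
          rw [e0, e1] at h''
          exact h'')
      refine dj_coord a a' a b' c c' d d' h u ((a - c) / (d - c)) hu0 hu1
        (div_nonneg (by linarith [hr.1]) hdc.le) ((div_le_one hdc).2 (by linarith [hr.2])) ?_ ?_
      · rw [div_mul_cancel₀ _ hdc.ne']; ring
      · have hu' : (d - c) * (a' + u * (b' - a') - c') - (d' - c') * (a - c) = 0 := hu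
        have e : (a' + u * (b' - a')) - (c' + (a - c) / (d - c) * (d' - c')) =
          ((d - c) * (a' + u * (b' - a') - c') - (d' - c') * (a - c)) / (d - c) := by
          field_simp
          ring
        rw [hu', zero_div] at e
        linarith
    constructor
    · rintro ⟨h1, h2, h3⟩; exact ⟨h1, h2, key.1 h3⟩
    · rintro ⟨h1, h2, h3⟩; exact ⟨h1, h2, key.2 h3⟩
  · constructor
    · rintro ⟨h1, h2, -⟩; exact absurd ⟨h1, h2⟩ hr
    · rintro ⟨h1, h2, -⟩; exact absurd ⟨h1, h2⟩ hr

theorem X_disj_vert_right (a a' b b' c c' d' : ℝ) (hab : a ≤ b)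
    (h : Dj ((a, a'), (b, b')) ((c, c'), (c, d'))) :
    X ((a, a'), (b, b')) ((c, c'), (c, d')) = 0 := by
  classical
  rw [X_sorted a a' b b' c c' c d' hab le_rfl]
  have n1 : ¬ (c ≤ a ∧ a < c ∧ 0 < (c - c) * (a' - c') - (d' - c') * (a - c)) := by
    rintro ⟨h1, h2, -⟩; linarith
  have n2 : ¬ (c ≤ b ∧ b < c ∧ 0 < (c - c) * (b' - c') - (d' - c') * (b - c)) := by
    rintro ⟨h1, h2, -⟩; linarith
  rw [if_neg n1, if_neg n2, zero_add, zero_add]
  apply ite_pair_eq
  by_cases hr : a < c ∧ c ≤ b
  · have hba : 0 < b - a := by linarith [hr.1, hr.2]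
    have key : ((b - a) * (c' - a') - (b' - a') * (c - a) < 0 ↔
        (b - a) * (d' - a') - (b' - a') * (c - a) < 0) := by
      by_contra hne
      obtain ⟨v, hv0, hv1, hv⟩ := exists_zero
        (fun v => -((b - a) * (c' + v * (d' - c') - a') - (b' - a') * (c - a))) (by fun_prop) 0 1
        zero_le_one (by
          intro h'
          apply hne
          have e0 : -((b - a) * (c' + 0 * (d' - c') - a') - (b' - a') * (c - a)) =
            -((b - a) * (c' - a') - (b' - a') * (c - a)) := by ring
          have e1 : -((b - a) * (c' + 1 * (d' - c') - a') - (b' - a') * (c - a)) =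
            -((b - a) * (d' - a') - (b' - a') * (c - a)) := by ring
          have h'' : (0 < -((b - a) * (c' + 0 * (d' - c') - a') - (b' - a') * (c - a)) ↔
            0 < -((b - a) * (c' + 1 * (d' - c') - a') - (b' - a') * (c - a))) := h'
          rw [e0, e1, neg_pos, neg_pos] at h''
          exact h'')
      refine dj_coord a a' b b' c c' c d' h ((c - a) / (b - a)) v
        (div_nonneg (by linarith [hr.1]) hba.le) ((div_le_one hba).2 (by linarith [hr.2]))
        hv0 hv1 ?_ ?_
      · rw [div_mul_cancel₀ _ hba.ne']; ring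
      · have hv' : -((b - a) * (c' + v * (d' - c') - a') - (b' - a') * (c - a)) = 0 := hv
        have e : (a' + (c - a) / (b - a) * (b' - a')) - (c' + v * (d' - c')) =
          (-((b - a) * (c' + v * (d' - c') - a') - (b' - a') * (c - a))) / (b - a) := by
          field_simp
          ring
        rw [hv', zero_div] at e
        linarith
    constructor
    · rintro ⟨h1, h2, h3⟩; exact ⟨h1, h2, key.1 h3⟩
    · rintro ⟨h1, h2, h3⟩; exact ⟨h1, h2, key.2 h3⟩
  · constructor
    · rintro ⟨h1, h2, -⟩; exact absurd ⟨h1, h2⟩ hr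
    · rintro ⟨h1, h2, -⟩; exact absurd ⟨h1, h2⟩ hr

/-- the ranges of abscissas have at most one point in common (`s` on the left) -/
theorem X_left (a a' b b' c c' d d' : ℝ) (hab : a < b) (hcd : c < d) (hbc : b ≤ c) :
    X ((a, a'), (b, b')) ((c, c'), (d, d')) = 0 := by
  classical
  rw [X_sorted a a' b b' c c' d d' hab.le hcd.le]
  have n1 : ¬ (c ≤ a ∧ a < d ∧ 0 < (d - c) * (a' - c') - (d' - c') * (a - c)) := by
    rintro ⟨h1, h2, -⟩; linarith
  have n4 : ¬ (a < d ∧ d ≤ b ∧ (b - a) * (d' - a') - (b' - a') * (d - a) < 0) := by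
    rintro ⟨h1, h2, -⟩; linarith
  rw [if_neg n1, if_neg n4, zero_add, add_zero]
  apply ite_pair_eq
  constructor
  · rintro ⟨h1, h2, h3⟩
    have e : b = c := le_antisymm hbc h1
    subst e
    refine ⟨hab, le_rfl, ?_⟩
    have h4 : 0 < (d - b) * (b' - c') := by linarith [sub_self b, mul_zero (d' - c'), h3,
      (by ring : (d' - c') * (b - b) = 0)]
    have h5 : 0 < b' - c' := (mul_pos_iff_of_pos_left (by linarith : (0:ℝ) < d - b)).1 h4
    have h6 : 0 < (b - a) * (b' - c') := mul_pos (by linarith) h5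
    nlinarith
  · rintro ⟨h1, h2, h3⟩
    have e : b = c := le_antisymm hbc h2
    subst e
    refine ⟨le_rfl, hcd, ?_⟩
    have h4 : 0 < (b - a) * (b' - c') := by nlinarith
    have h5 : 0 < b' - c' := (mul_pos_iff_of_pos_left (by linarith : (0:ℝ) < b - a)).1 h4
    have h6 : 0 < (d - b) * (b' - c') := mul_pos (by linarith) h5
    nlinarith

/-- the ranges of abscissas have at most one point in common (`s` on the right) -/
theorem X_right (a a' b b' c c' d d' : ℝ) (hab : a < b) (hcd : c < d) (hda : d ≤ a) :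
    X ((a, a'), (b, b')) ((c, c'), (d, d')) = 0 := by
  classical
  rw [X_sorted a a' b b' c c' d d' hab.le hcd.le]
  have n1 : ¬ (c ≤ a ∧ a < d ∧ 0 < (d - c) * (a' - c') - (d' - c') * (a - c)) := by
    rintro ⟨h1, h2, -⟩; linarith
  have n2 : ¬ (c ≤ b ∧ b < d ∧ 0 < (d - c) * (b' - c') - (d' - c') * (b - c)) := by
    rintro ⟨h1, h2, -⟩; linarith
  have n3 : ¬ (a < c ∧ c ≤ b ∧ (b - a) * (c' - a') - (b' - a') * (c - a) < 0) := by
    rintro ⟨h1, h2, -⟩; linarith
  have n4 : ¬ (a < d ∧ d ≤ b ∧ (b - a) * (d' - a') - (b' - a') * (d - a) < 0) := by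
    rintro ⟨h1, h2, -⟩; linarith
  rw [if_neg n1, if_neg n2, if_neg n3, if_neg n4]
  simp

theorem X_disj_sorted (a a' b b' c c' d d' : ℝ) (hab : a ≤ b) (hcd : c ≤ d)
    (h : Dj ((a, a'), (b, b')) ((c, c'), (d, d'))) :
    X ((a, a'), (b, b')) ((c, c'), (d, d')) = 0 := by
  rcases hab.eq_or_lt with e | hab'
  · subst e
    exact X_disj_vert_left a a' b' c c' d d' hcd h
  rcases hcd.eq_or_lt with e | hcd'
  · subst e
    exact X_disj_vert_right a a' b b' c c' d' hab h
  rcases le_or_gt b c with hbc | hcb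
  · exact X_left a a' b b' c c' d d' hab' hcd' hbc
  rcases le_or_gt d a with hda | had
  · exact X_right a a' b b' c c' d d' hab' hcd' hda
  exact X_disj_overlap a a' b b' c c' d d' hab' hcd' hcb had h

/-! ### Crossing segments, sorted -/

theorem pos_iff_not_pos {x y β : ℝ} (hβ : β ≠ 0) (p q : ℝ) (hp : 0 < p) (hq : 0 < q)
    (hx : x = -(β * p)) (hy : y = β * q) : 0 < x ↔ ¬ 0 < y := by
  rcases lt_or_gt_of_ne hβ with h | h
  · have h1 : β * p < 0 := mul_neg_of_neg_of_pos h hp
    have h2 : β * q < 0 := mul_neg_of_neg_of_pos h hq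
    constructor
    · intro _; linarith
    · intro _; linarith
  · have h1 : 0 < β * p := mul_pos h hp
    have h2 : 0 < β * q := mul_pos h hq
    constructor
    · intro h3; linarith
    · intro h3; exact absurd (by linarith) h3

theorem X_cross_sorted (a a' b b' c c' d d' : ℝ) (hab : a ≤ b) (hcd : c ≤ d)
    (h : Sc ((a, a'), (b, b')) ((c, c'), (d, d'))) :
    X ((a, a'), (b, b')) ((c, c'), (d, d')) = 1 := by
  classical
  obtain ⟨hdet, u, v, hu0, hu1, hv0, hv1, e1, e2⟩ := sc_coord a a' b b' c c' d d' h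
  rcases hab.eq_or_lt with e | hab'
  · subst e
    have hcd' : c < d := by
      rcases hcd.eq_or_lt with e | h'
      · subst e; exact absurd (by ring) hdet
      · exact h'
    have hdc : 0 < d - c := by linarith
    have hba' : b' - a' ≠ 0 := by
      intro h0
      exact hdet (by rw [h0]; ring)
    have ea : a = c + v * (d - c) := by linarith [e1, (by ring : u * (a - a) = 0)]
    have hca : c < a := by nlinarith
    have had : a < d := by nlinarith
    rw [X_sorted a a' a b' c c' d d' le_rfl hcd]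
    have n3 : ¬ (a < c ∧ c ≤ a ∧ (a - a) * (c' - a') - (b' - a') * (c - a) < 0) := by
      rintro ⟨h1, h2, -⟩; linarith
    have n4 : ¬ (a < d ∧ d ≤ a ∧ (a - a) * (d' - a') - (b' - a') * (d - a) < 0) := by
      rintro ⟨h1, h2, -⟩; linarith
    rw [if_neg n3, if_neg n4, add_zero, add_zero]
    apply ite_pair_ne
    have key : (0 < (d - c) * (a' - c') - (d' - c') * (a - c) ↔
        ¬ 0 < (d - c) * (b' - c') - (d' - c') * (a - c)) := by
      refine pos_iff_not_pos hba' ((d - c) * u) ((d - c) * (1 - u)) (mul_pos hdc hu0)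
        (mul_pos hdc (by linarith)) ?_ ?_
      · have : a - c = v * (d - c) := by linarith
        rw [this]
        linear_combination (d - c) * e2
      · have : a - c = v * (d - c) := by linarith
        rw [this]
        linear_combination (d - c) * e2
    constructor
    · rintro ⟨h1, h2, h3⟩ ⟨-, -, h4⟩
      exact key.1 h3 h4
    · intro h3
      refine ⟨hca.le, had, key.2 ?_⟩
      intro h4
      exact h3 ⟨hca.le, had, h4⟩
  rcases hcd.eq_or_lt with e | hcd'
  · subst e
    have hba : 0 < b - a := by linarith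
    have hdc' : d' - c' ≠ 0 := by
      intro h0
      exact hdet (by rw [h0]; ring)
    have ec : c = a + u * (b - a) := by linarith [e1, (by ring : v * (c - c) = 0)]
    have hac : a < c := by nlinarith
    have hcb : c < b := by nlinarith
    rw [X_sorted a a' b b' c c' c d' hab le_rfl]
    have n1 : ¬ (c ≤ a ∧ a < c ∧ 0 < (c - c) * (a' - c') - (d' - c') * (a - c)) := by
      rintro ⟨h1, h2, -⟩; linarith
    have n2 : ¬ (c ≤ b ∧ b < c ∧ 0 < (c - c) * (b' - c') - (d' - c') * (b - c)) := by
      rintro ⟨h1, h2, -⟩; linarith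
    rw [if_neg n1, if_neg n2, zero_add, zero_add]
    apply ite_pair_ne
    have key : (0 < -((b - a) * (c' - a') - (b' - a') * (c - a)) ↔
        ¬ 0 < -((b - a) * (d' - a') - (b' - a') * (c - a))) := by
      refine pos_iff_not_pos (neg_ne_zero.2 hdc') ((b - a) * v) ((b - a) * (1 - v))
        (mul_pos hba hv0) (mul_pos hba (by linarith)) ?_ ?_
      · have : c - a = u * (b - a) := by linarith
        rw [this]
        linear_combination (b - a) * e2
      · have : c - a = u * (b - a) := by linarith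
        rw [this]
        linear_combination (b - a) * e2
    constructor
    · rintro ⟨h1, h2, h3⟩ ⟨-, -, h4⟩
      exact key.1 (by linarith) (by linarith)
    · intro h3
      refine ⟨hac, hcb.le, ?_⟩
      have := key.2 (by
        intro h4
        exact h3 ⟨hac, hcb.le, by linarith⟩)
      linarith
  · have hba : 0 < b - a := by linarith
    have hdc : 0 < d - c := by linarith
    have hax : a < a + u * (b - a) := by nlinarith
    have hxb : a + u * (b - a) < b := by nlinarith
    have hcx : c < a + u * (b - a) := by rw [e1]; nlinarith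
    have hxd : a + u * (b - a) < d := by rw [e1]; nlinarith
    set x : ℝ := a + u * (b - a) with hx
    rw [X_overlap a a' b b' c c' d d' hab' hcd' (by linarith) (by linarith)]
    apply ite_pair_ne
    have hβ : (d - c) * (b' - a') - (b - a) * (d' - c') ≠ 0 := by
      intro h0
      apply hdet
      linear_combination -h0
    have hm : max a c < x := max_lt hax hcx
    have hM : x < min b d := lt_min hxb hxd
    refine pos_iff_not_pos hβ (x - max a c) (min b d - x) (by linarith) (by linarith) ?_ ?_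
    · generalize max a c = m
      have hxu : x - a = u * (b - a) := by rw [hx]; ring
      have hxv : x - c = v * (d - c) := by rw [e1]; ring
      have hF : (d - c) * (a' * (b - a) + (b' - a') * (x - a)) -
        (b - a) * (c' * (d - c) + (d' - c') * (x - c)) = 0 := by
        rw [hxu, hxv]
        linear_combination (d - c) * (b - a) * e2
      linear_combination hF
    · generalize min b d = m
      have hxu : x - a = u * (b - a) := by rw [hx]; ring
      have hxv : x - c = v * (d - c) := by rw [e1]; ring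
      have hF : (d - c) * (a' * (b - a) + (b' - a') * (x - a)) -
        (b - a) * (c' * (d - c) + (d' - c') * (x - c)) = 0 := by
        rw [hxu, hxv]
        linear_combination (d - c) * (b - a) * e2
      linear_combination hF

/-! ### The general case -/

theorem Dj_swap_left {s t : Seg} (h : Dj s t) : Dj (s.2, s.1) t := by
  unfold Dj Seg.set at *
  rw [segment_symm]
  exact h

theorem Dj_swap_right {s t : Seg} (h : Dj s t) : Dj s (t.2, t.1) := by
  unfold Dj Seg.set at *
  rw [segment_symm ℝ t.2 t.1]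
  exact h

theorem Sc_swap_left {s t : Seg} (h : Sc s t) : Sc (s.2, s.1) t := by
  obtain ⟨h0, p, h1, h2⟩ := h
  refine ⟨?_, p, ?_, h2⟩
  · intro h3
    apply h0
    simp only [det2, Prod.fst_sub, Prod.snd_sub] at h3 ⊢
    linear_combination -h3
  · rw [openSegment_symm]
    exact h1

theorem Sc_swap_right {s t : Seg} (h : Sc s t) : Sc s (t.2, t.1) := by
  obtain ⟨h0, p, h1, h2⟩ := h
  refine ⟨?_, p, h1, ?_⟩
  · intro h3
    apply h0
    simp only [det2, Prod.fst_sub, Prod.snd_sub] at h3 ⊢
    linear_combination -h3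
  · rw [openSegment_symm]
    exact h2

theorem X_of_disj (s t : Seg) (h : Dj s t) : X s t = 0 := by
  rcases le_total s.1.1 s.2.1 with hs | hs
  · rcases le_total t.1.1 t.2.1 with ht | ht
    · exact X_disj_sorted _ _ _ _ _ _ _ _ hs ht h
    · rw [← X_swap_right]
      exact X_disj_sorted _ _ _ _ _ _ _ _ hs ht (Dj_swap_right h)
  · rw [← X_swap_left]
    rcases le_total t.1.1 t.2.1 with ht | ht
    · exact X_disj_sorted _ _ _ _ _ _ _ _ hs ht (Dj_swap_left h)
    · rw [← X_swap_right]
      exact X_disj_sorted _ _ _ _ _ _ _ _ hs ht (Dj_swap_right (Dj_swap_left h))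

theorem X_of_cross (s t : Seg) (h : Sc s t) : X s t = 1 := by
  rcases le_total s.1.1 s.2.1 with hs | hs
  · rcases le_total t.1.1 t.2.1 with ht | ht
    · exact X_cross_sorted _ _ _ _ _ _ _ _ hs ht h
    · rw [← X_swap_right]
      exact X_cross_sorted _ _ _ _ _ _ _ _ hs ht (Sc_swap_right h)
  · rw [← X_swap_left]
    rcases le_total t.1.1 t.2.1 with ht | ht
    · exact X_cross_sorted _ _ _ _ _ _ _ _ hs ht (Sc_swap_left h)
    · rw [← X_swap_right]
      exact X_cross_sorted _ _ _ _ _ _ _ _ hs ht (Sc_swap_right (Sc_swap_left h))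

end Pool.Agent.Lib.MP_0a0e82_gt
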