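import Pool.Agent.Lib.MP_0a0e82_gt.Defs

set_option autoImplicit false

namespace Pool.Agent.Lib.MP_0a0e82_gt

abbrev Seg : Type := Pt × Pt

/-- the closed segment as a set -/
def Seg.set (s : Seg) : Set Pt := segment ℝ s.1 s.2

def Sc (s t : Seg) : Prop := SegCross s.1 s.2 t.1 t.2

def Dj (s t : Seg) : Prop := Disjoint s.set t.set

open Classical in
/-- `p` lies above the segment `t` (half-open range of abscissas) -/
noncomputable def Rp (p : Pt) (t : Seg) : ZMod 2 :=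
  if (t.1.1 ≤ p.1 ∧ p.1 < t.2.1 ∧ 0 < det2 (t.2 - t.1) (p - t.1)) ∨
     (t.2.1 ≤ p.1 ∧ p.1 < t.1.1 ∧ det2 (t.2 - t.1) (p - t.1) < 0) then 1 else 0

open Classical in
/-- `p` lies below the segment `t` (other half-open range of abscissas) -/
noncomputable def Rm (p : Pt) (t : Seg) : ZMod 2 :=
  if (t.1.1 < p.1 ∧ p.1 ≤ t.2.1 ∧ det2 (t.2 - t.1) (p - t.1) < 0) ∨
     (t.2.1 < p.1 ∧ p.1 ≤ t.1.1 ∧ 0 < det2 (t.2 - t.1) (p - t.1)) then 1 else 0

open Classical in
/-- `z` comes before `p` in the lexicographic order -/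
noncomputable def lam (p z : Pt) : ZMod 2 :=
  if z.1 < p.1 ∨ (z.1 = p.1 ∧ z.2 < p.2) then 1 else 0

/-- algebraic crossing parity of two segments -/
noncomputable def X (s t : Seg) : ZMod 2 := Rp s.1 t + Rp s.2 t + Rm t.1 s + Rm t.2 s

end Pool.Agent.Lib.MP_0a0e82_gt
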